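import Mathlib

/-!
Helper facts on copies of cycles in graphs, for saturation problems of cycle families.
-/

namespace Pool.Agent.Q95.CycSat

open SimpleGraph

universe u

variable {V : Type u}

/-- A copy of the cycle of length `n + 3` gives an injective cyclic sequence. -/
theorem seq_of_contained {G : SimpleGraph V} {n : ℕ} (h : (cycleGraph (n + 3)) ⊑ G) :
    ∃ f : Fin (n + 3) → V, Function.Injective f ∧ ∀ i, G.Adj (f i) (f (i + 1)) := by
  obtain ⟨c⟩ := h
  refine ⟨c, c.injective, fun i => ?_⟩
  apply c.toHom.map_adj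
  rw [cycleGraph_adj]
  right
  exact add_sub_cancel_left i 1

/-- A path with at least three vertices closes up to a cycle when its ends are joined. -/
theorem contained_of_fun {G : SimpleGraph V} {L : ℕ} (hL : 3 ≤ L) (h : ℕ → V)
    (inj : ∀ i < L, ∀ j < L, h i = h j → i = j)
    (adj : ∀ i, i + 1 < L → G.Adj (h i) (h (i + 1)))
    (x y : V) (hx : h 0 = x) (hy : h (L - 1) = y) :
    (cycleGraph L) ⊑ (G ⊔ edge x y) := by
  obtain ⟨n, rfl⟩ : ∃ n, L = n + 3 := ⟨L - 3, by omega⟩
  have key : ∀ u v : Fin (n + 3), v - u = 1 → (G ⊔ edge x y).Adj (h u) (h v) := by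
    intro u v huv
    have hv : v = u + 1 := by rw [← huv]; abel
    subst hv
    by_cases hu : (u : ℕ) + 1 < n + 3
    · have : ((u + 1 : Fin (n + 3)) : ℕ) = (u : ℕ) + 1 := by
        rw [Fin.val_add, Fin.val_one]
        exact Nat.mod_eq_of_lt hu
      rw [this]
      exact (le_sup_left : G ≤ G ⊔ edge x y) (adj u hu)
    · have hu2 : (u : ℕ) = n + 2 := by have := u.isLt; omega
      have : ((u + 1 : Fin (n + 3)) : ℕ) = 0 := by
        rw [Fin.val_add, Fin.val_one, hu2]
        simp
      rw [this, hu2, hx]
      have hy' : h (n + 2) = y := by simpa using hy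
      rw [hy']
      have hne : x ≠ y := by
        intro hxy
        have := inj 0 (by omega) (n + 2) (by omega) (by rw [hx, hy', hxy])
        omega
      rw [sup_adj, edge_adj]
      right
      exact ⟨Or.inr ⟨rfl, rfl⟩, hne.symm⟩
  refine ⟨⟨⟨fun i : Fin (n + 3) => h i, ?_⟩, ?_⟩⟩
  · intro u v huv
    rw [cycleGraph_adj] at huv
    rcases huv with huv | huv
    · exact (key v u huv).symm
    · exact key u v huv
  · intro u v huv
    exact Fin.ext (inj u u.isLt v v.isLt huv)

/-- Four distinct vertices of a path give a four-cycle after joining the ends. -/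
theorem contained_four {G : SimpleGraph V} {a b c d : V} (hab : G.Adj a b) (hbc : G.Adj b c)
    (hcd : G.Adj c d) (hac : a ≠ c) (had : a ≠ d) (hbd : b ≠ d) :
    (cycleGraph 4) ⊑ (G ⊔ edge a d) := by
  have h1 := hab.ne
  have h2 := hbc.ne
  have h3 := hcd.ne
  refine contained_of_fun (L := 4) (by norm_num)
    (fun i => match i with | 0 => a | 1 => b | 2 => c | _ => d) ?_ ?_ a d rfl rfl
  · intro i hi j hj hij
    interval_cases i <;> interval_cases j <;> simp_all
  · intro i hi
    have hi' : i < 3 := by omega
    interval_cases i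
    · exact hab
    · exact hbc
    · exact hcd

/-- Five distinct vertices of a path give a five-cycle after joining the ends. -/
theorem contained_five {G : SimpleGraph V} {a b c d e : V} (hab : G.Adj a b) (hbc : G.Adj b c)
    (hcd : G.Adj c d) (hde : G.Adj d e) (hac : a ≠ c) (had : a ≠ d) (hae : a ≠ e) (hbd : b ≠ d)
    (hbe : b ≠ e) (hce : c ≠ e) :
    (cycleGraph 5) ⊑ (G ⊔ edge a e) := by
  have h1 := hab.ne
  have h2 := hbc.ne
  have h3 := hcd.ne
  have h4 := hde.ne
  refine contained_of_fun (L := 5) (by norm_num)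
    (fun i => match i with | 0 => a | 1 => b | 2 => c | 3 => d | _ => e) ?_ ?_ a e rfl rfl
  · intro i hi j hj hij
    interval_cases i <;> interval_cases j <;> simp_all
  · intro i hi
    have hi' : i < 4 := by omega
    interval_cases i
    · exact hab
    · exact hbc
    · exact hcd
    · exact hde

section search

variable [DecidableEq V]

/-- Depth first search for a closed simple sequence: `k` further vertices, then back to `s`. -/
def search (nb : V → List V) (s : V) : ℕ → List V → Bool
  | _, [] => false
  | 0, v :: _ => decide (s ∈ nb v)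
  | k + 1, v :: p => (nb v).any fun w => !(decide (w ∈ v :: p)) && search nb s k (w :: v :: p)

/-- The list `g j, ..., g 0`. -/
def plist (g : ℕ → V) : ℕ → List V
  | 0 => [g 0]
  | j + 1 => g (j + 1) :: plist g j

omit [DecidableEq V] in
theorem mem_plist (g : ℕ → V) (w : V) : ∀ j, w ∈ plist g j → ∃ i ≤ j, w = g i
  | 0, h => ⟨0, le_rfl, by simpa [plist] using h⟩
  | j + 1, h => by
      simp only [plist, List.mem_cons] at h
      rcases h with h | h
      · exact ⟨j + 1, le_rfl, h⟩
      · obtain ⟨i, hi, hw⟩ := mem_plist g w j h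
        exact ⟨i, by omega, hw⟩

omit [DecidableEq V] in
theorem plist_eq (g : ℕ → V) (j : ℕ) : ∃ p, plist g j = g j :: p := by
  cases j with
  | zero => exact ⟨[], rfl⟩
  | succ j => exact ⟨plist g j, rfl⟩

theorem search_true {G : SimpleGraph V} {nb : V → List V} (hnb : ∀ v w, G.Adj v w → w ∈ nb v)
    {m : ℕ} (g : ℕ → V) (inj : ∀ i < m, ∀ j < m, g i = g j → i = j)
    (adj : ∀ i, i + 1 < m → G.Adj (g i) (g (i + 1))) (close : G.Adj (g (m - 1)) (g 0)) :
    ∀ k j, j + k + 1 = m → search nb (g 0) k (plist g j) = true := by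
  intro k
  induction k with
  | zero =>
    intro j hj
    obtain ⟨p, hp⟩ := plist_eq g j
    rw [hp]
    have : j = m - 1 := by omega
    subst this
    simp only [search, decide_eq_true_eq]
    exact hnb _ _ close
  | succ k ih =>
    intro j hj
    obtain ⟨p, hp⟩ := plist_eq g j
    have h1 := ih (j + 1) (by omega)
    have h2 : plist g (j + 1) = g (j + 1) :: g j :: p := by rw [plist, hp]
    rw [hp]
    simp only [search, List.any_eq_true, Bool.and_eq_true, Bool.not_eq_true', decide_eq_false_iff_not]
    refine ⟨g (j + 1), hnb _ _ (adj j (by omega)), ?_, ?_⟩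
    · rw [← hp]
      intro hmem
      obtain ⟨i, hi, hw⟩ := mem_plist g _ j hmem
      have := inj (j + 1) (by omega) i (by omega) hw
      omega
    · rw [← h2]
      exact h1

/-- If the search fails from every start, there is no copy of the cycle. -/
theorem not_contained_of_search {G : SimpleGraph V} {nb : V → List V}
    (hnb : ∀ v w, G.Adj v w → w ∈ nb v) {m : ℕ} (hm : 3 ≤ m)
    (hs : ∀ s, search nb s (m - 1) [s] = false) : ¬ (cycleGraph m) ⊑ G := by
  intro hc
  obtain ⟨n, rfl⟩ : ∃ n, m = n + 3 := ⟨m - 3, by omega⟩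
  obtain ⟨f, finj, fadj⟩ := seq_of_contained hc
  let g : ℕ → V := fun i => if h : i < n + 3 then f ⟨i, h⟩ else f 0
  have hg : ∀ i (h : i < n + 3), g i = f ⟨i, h⟩ := fun i h => by simp [g, h]
  have h1 := search_true (m := n + 3) hnb g
    (by
      intro i hi j hj hij
      rw [hg i hi, hg j hj] at hij
      have := finj hij
      simpa using this)
    (by
      intro i hi
      rw [hg i (by omega), hg (i + 1) hi]
      have := fadj ⟨i, by omega⟩
      have e : (⟨i, by omega⟩ + 1 : Fin (n + 3)) = ⟨i + 1, hi⟩ := by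
        apply Fin.ext
        rw [Fin.val_add, Fin.val_one]
        exact Nat.mod_eq_of_lt hi
      rwa [e] at this)
    (by
      rw [hg (n + 3 - 1) (by omega), hg 0 (by omega)]
      have := fadj ⟨n + 3 - 1, by omega⟩
      have e : (⟨n + 3 - 1, by omega⟩ + 1 : Fin (n + 3)) = ⟨0, by omega⟩ := by
        apply Fin.ext
        rw [Fin.val_add, Fin.val_one]
        simp
      rwa [e] at this)
    (n + 3 - 1) 0 (by omega)
  rw [show plist g 0 = [g 0] from rfl, hs (g 0)] at h1
  exact absurd h1 (by simp)

end search

/-- The number of vertices bounds the length of a cycle. -/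
theorem length_le_card [Fintype V] {G : SimpleGraph V} {m : ℕ} (h : (cycleGraph m) ⊑ G) :
    m ≤ Fintype.card V := by
  obtain ⟨c⟩ := h
  simpa using Fintype.card_le_of_injective _ c.injective

/-- Transport of containment along a graph isomorphism. -/
theorem contained_congr {W : Type*} {U : Type*} {A : SimpleGraph U} {G : SimpleGraph V}
    {H : SimpleGraph W} (e : G ≃g H) : A ⊑ G ↔ A ⊑ H :=
  ⟨fun h => h.trans ⟨e.toCopy⟩, fun h => h.trans ⟨e.symm.toCopy⟩⟩

end Pool.Agent.Q95.CycSat
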