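import Mathlib
import Pool.Agent.Q95.CycSat

/-!
A family of graphs saturated for the cycles with lengths in `[4, r]`, for `r ≥ 6`: triangles with
two pendant vertices and one cycle of length `r + 1`, glued at a common vertex.
-/

namespace Pool.Agent.Q95.CycFam

open SimpleGraph Pool.Agent.Q95.CycSat

/-- `G` contains no cycle with length in `I`, and joining any two non-adjacent vertices
creates one. -/
def CycleSaturated (I : Set ℕ) {V : Type} (G : SimpleGraph V) : Prop :=
  (∀ s ∈ I, ¬ (cycleGraph s).IsContained G) ∧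
  ∀ x y : V, x ≠ y → ¬ G.Adj x y → ∃ s ∈ I, (cycleGraph s).IsContained (G ⊔ edge x y)

/-- The saturation number: the least number of edges of a saturated graph on `n` vertices. -/
noncomputable def sat (n : ℕ) (I : Set ℕ) : ℕ :=
  sInf {e : ℕ | ∃ G : SimpleGraph (Fin n), CycleSaturated I G ∧ G.edgeSet.ncard = e}

theorem CycleSaturated.of_iso {I : Set ℕ} {V W : Type} {G : SimpleGraph V} {H : SimpleGraph W}
    (e : G ≃g H) (h : CycleSaturated I G) : CycleSaturated I H := by
  refine ⟨fun s hs hc => h.1 s hs ((contained_congr e).2 hc), fun x y hxy hn => ?_⟩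
  obtain ⟨s, hs, hc⟩ := h.2 (e.symm x) (e.symm y) (fun h' => hxy (e.symm.injective h'))
    (fun h' => hn (by simpa using e.map_adj_iff.2 h'))
  refine ⟨s, hs, ?_⟩
  let e' : (G ⊔ edge (e.symm x) (e.symm y)) ≃g (H ⊔ edge x y) :=
    { toEquiv := e.toEquiv
      map_rel_iff' := by
        intro a b
        simp only [sup_adj, edge_adj]
        have h1 : H.Adj (e.toEquiv a) (e.toEquiv b) ↔ G.Adj a b := e.map_adj_iff
        have h2 : ∀ (c : V) (w : W), e.toEquiv c = w ↔ c = e.symm w := fun c w => by
          constructor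
          · rintro rfl
            exact (e.symm_apply_apply c).symm
          · rintro rfl
            exact e.apply_symm_apply w
        rw [h1, h2, h2, h2, h2, e.toEquiv.injective.ne_iff] }
  exact (contained_congr e').1 hc

variable {k r : ℕ}

/-- Vertices: the centre, the other vertices of the long cycle, the triangle vertices, and the
pendant vertices. -/
inductive Vt (k r : ℕ) : Type
  | z : Vt k r
  | c (i : Fin r) : Vt k r
  | t (j : Fin k) (s : Bool) : Vt k r
  | l (j : Fin k) (s : Bool) : Vt k r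
  deriving DecidableEq

open Vt

/-- The long cycle, as a sequence starting and ending at the centre. -/
def cy (k r p : ℕ) : Vt k r := if h : 1 ≤ p ∧ p ≤ r then c ⟨p - 1, by omega⟩ else z

theorem cy_zero : cy k r 0 = z := by simp [cy]

theorem cy_end : cy k r (r + 1) = z := by simp [cy]

theorem cy_pos {p : ℕ} (h1 : 1 ≤ p) (h2 : p ≤ r) : cy k r p = c ⟨p - 1, by omega⟩ := by
  simp [cy, h1, h2]

theorem c_eq (i : Fin r) : (c i : Vt k r) = cy k r (i + 1) := by
  rw [cy_pos (by omega) (by omega)]
  simp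

theorem cy_inj {p q : ℕ} (hp : p ≤ r) (hq : q ≤ r) (h : cy k r p = cy k r q) : p = q := by
  rcases Nat.eq_zero_or_pos p with rfl | hp0
  · rcases Nat.eq_zero_or_pos q with rfl | hq0
    · rfl
    · rw [cy_zero, cy_pos hq0 hq] at h
      cases h
  · rcases Nat.eq_zero_or_pos q with rfl | hq0
    · rw [cy_zero, cy_pos hp0 hp] at h
      cases h
    · rw [cy_pos hp0 hp, cy_pos hq0 hq] at h
      injection h with h
      rw [Fin.mk.injEq] at h
      omega

theorem cy_ne_t (p : ℕ) (j : Fin k) (s : Bool) : cy k r p ≠ t j s := by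
  unfold cy; split_ifs <;> simp

theorem cy_ne_l (p : ℕ) (j : Fin k) (s : Bool) : cy k r p ≠ l j s := by
  unfold cy; split_ifs <;> simp

/-- Oriented edges. -/
def E (a b : Vt k r) : Prop :=
  (∃ p ≤ r, a = cy k r p ∧ b = cy k r (p + 1)) ∨ (∃ j s, a = z ∧ b = t j s) ∨
  (∃ j, a = t j false ∧ b = t j true) ∨ (∃ j s, a = t j s ∧ b = l j s)

/-- The graph. -/
def Gr (k r : ℕ) : SimpleGraph (Vt k r) := SimpleGraph.fromRel E

theorem adj_iff (a b : Vt k r) : (Gr k r).Adj a b ↔ a ≠ b ∧ (E a b ∨ E b a) := Iff.rfl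

theorem adj_cy (hr : 2 ≤ r) {p : ℕ} (hp : p ≤ r) :
    (Gr k r).Adj (cy k r p) (cy k r (p + 1)) := by
  refine ⟨?_, Or.inl (Or.inl ⟨p, hp, rfl, rfl⟩)⟩
  intro h
  rcases Nat.lt_or_ge p r with h1 | h1
  · have := cy_inj hp (by omega) h
    omega
  · have : p = r := by omega
    subst this
    rw [cy_end, ← cy_zero] at h
    have := cy_inj le_rfl (by omega) h
    omega

theorem adj_zt (j : Fin k) (s : Bool) : (Gr k r).Adj z (t j s) :=
  ⟨by simp, Or.inl (Or.inr (Or.inl ⟨j, s, rfl, rfl⟩))⟩

theorem adj_tt (j : Fin k) (s : Bool) : (Gr k r).Adj (t j s) (t j (!s)) := by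
  cases s
  · exact ⟨by simp, Or.inl (Or.inr (Or.inr (Or.inl ⟨j, rfl, rfl⟩)))⟩
  · exact ⟨by simp, Or.inr (Or.inr (Or.inr (Or.inl ⟨j, rfl, rfl⟩)))⟩

theorem adj_tl (j : Fin k) (s : Bool) : (Gr k r).Adj (t j s) (l j s) :=
  ⟨by simp, Or.inl (Or.inr (Or.inr (Or.inr ⟨j, s, rfl, rfl⟩)))⟩

theorem nbr_l {j : Fin k} {s : Bool} {v : Vt k r} (h : (Gr k r).Adj (l j s) v) : v = t j s := by
  rcases h with ⟨-, h | h⟩
  · rcases h with ⟨p, hp, h1, h2⟩ | ⟨j', s', h1, h2⟩ | ⟨j', h1, h2⟩ | ⟨j', s', h1, h2⟩
    · exact absurd h1.symm (cy_ne_l p j s)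
    · cases h1
    · cases h1
    · cases h1
  · rcases h with ⟨p, hp, h1, h2⟩ | ⟨j', s', h1, h2⟩ | ⟨j', h1, h2⟩ | ⟨j', s', h1, h2⟩
    · exact absurd h2.symm (cy_ne_l (p + 1) j s)
    · cases h2
    · cases h2
    · cases h2
      exact h1

theorem nbr_t {j : Fin k} {s : Bool} {v : Vt k r} (h : (Gr k r).Adj (t j s) v) :
    v = z ∨ v = t j (!s) ∨ v = l j s := by
  rcases h with ⟨-, h | h⟩
  · rcases h with ⟨p, hp, h1, h2⟩ | ⟨j', s', h1, h2⟩ | ⟨j', h1, h2⟩ | ⟨j', s', h1, h2⟩
    · exact absurd h1.symm (cy_ne_t p j s)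
    · cases h1
    · cases h1
      exact Or.inr (Or.inl h2)
    · cases h1
      exact Or.inr (Or.inr h2)
  · rcases h with ⟨p, hp, h1, h2⟩ | ⟨j', s', h1, h2⟩ | ⟨j', h1, h2⟩ | ⟨j', s', h1, h2⟩
    · exact absurd h2.symm (cy_ne_t (p + 1) j s)
    · cases h2
      exact Or.inl h1
    · cases h2
      exact Or.inr (Or.inl h1)
    · cases h2

theorem nbr_c {p : ℕ} (hp1 : 1 ≤ p) (hp2 : p ≤ r) {v : Vt k r}
    (h : (Gr k r).Adj (cy k r p) v) : v = cy k r (p - 1) ∨ v = cy k r (p + 1) := by
  have hz : cy k r p ≠ z := by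
    intro h'
    rw [← cy_zero] at h'
    have := cy_inj hp2 (by omega) h'
    omega
  rcases h with ⟨-, h | h⟩
  · rcases h with ⟨q, hq, h1, h2⟩ | ⟨j', s', h1, h2⟩ | ⟨j', h1, h2⟩ | ⟨j', s', h1, h2⟩
    · have := cy_inj hp2 hq h1
      subst this
      exact Or.inr h2
    · exact absurd h1 hz
    · exact absurd h1 (cy_ne_t _ _ _)
    · exact absurd h1 (cy_ne_t _ _ _)
  · rcases h with ⟨q, hq, h1, h2⟩ | ⟨j', s', h1, h2⟩ | ⟨j', h1, h2⟩ | ⟨j', s', h1, h2⟩
    · rcases Nat.lt_or_ge q r with h3 | h3
      · have := cy_inj hp2 (by omega) h2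
        subst this
        exact Or.inl h1
      · have : q = r := by omega
        subst this
        rw [cy_end] at h2
        exact absurd h2 hz
    · exact absurd h2 (cy_ne_t _ _ _)
    · exact absurd h2 (cy_ne_t _ _ _)
    · exact absurd h2 (cy_ne_l _ _ _)

/-- No cycle of length between 4 and `r`. -/
theorem no_short (n : ℕ) (hn : n + 4 ≤ r) : ¬ (cycleGraph (n + 4)).IsContained (Gr k r) := by
  intro hc
  obtain ⟨f, finj, fadj⟩ := seq_of_contained (n := n + 1) hc
  have fadj' : ∀ i, (Gr k r).Adj (f i) (f (i - 1)) := fun i => by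
    have := fadj (i - 1)
    rw [sub_add_cancel] at this
    exact this.symm
  have h2 : ∀ i : Fin (n + 1 + 3), i + 1 ≠ i - 1 := by
    intro i h
    have h' : (1 : Fin (n + 1 + 3)) + 1 = 0 := by
      have : i + (1 + 1) = i + 0 := by
        rw [← add_assoc, h]; abel
      exact add_left_cancel this
    have := congrArg Fin.val h'
    rw [Fin.val_add, Fin.val_one, Fin.val_zero, Nat.mod_eq_of_lt (by omega)] at this
    omega
  have h3 : ∀ i : Fin (n + 1 + 3), i + 1 + 1 ≠ i - 1 := by
    intro i h
    have h' : (1 : Fin (n + 1 + 3)) + 1 + 1 = 0 := by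
      have : i + (1 + 1 + 1) = i + 0 := by
        rw [← add_assoc, ← add_assoc, h]; abel
      exact add_left_cancel this
    have := congrArg Fin.val h'
    rw [Fin.val_add, Fin.val_add, Fin.val_one, Fin.val_zero, Nat.mod_eq_of_lt (a := 1 + 1) (by omega),
      Nat.mod_eq_of_lt (by omega)] at this
    omega
  have hl : ∀ i j s, f i ≠ l j s := by
    intro i j s h
    have a1 := nbr_l (h ▸ fadj i)
    have a2 := nbr_l (h ▸ fadj' i)
    exact h2 i (finj (a1.trans a2.symm))
  have hcstep : ∀ p, 1 ≤ p → p ≤ r → (∃ i, f i = cy k r p) →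
      (∃ i, f i = cy k r (p - 1)) ∧ (∃ i, f i = cy k r (p + 1)) := by
    rintro p hp1 hp2 ⟨i, hi⟩
    have a1 := nbr_c hp1 hp2 (hi ▸ fadj i)
    have a2 := nbr_c hp1 hp2 (hi ▸ fadj' i)
    have a3 : f (i + 1) ≠ f (i - 1) := fun h => h2 i (finj h)
    rcases a1 with a1 | a1 <;> rcases a2 with a2 | a2
    · exact absurd (a1.trans a2.symm) a3
    · exact ⟨⟨_, a1⟩, ⟨_, a2⟩⟩
    · exact ⟨⟨_, a2⟩, ⟨_, a1⟩⟩
    · exact absurd (a1.trans a2.symm) a3
  have hcno : ∀ p, 1 ≤ p → p ≤ r → ∀ i, f i ≠ cy k r p := by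
    intro p hp1 hp2 i hi
    have down : ∀ d, d ≤ p → ∃ i, f i = cy k r (p - d) := by
      intro d
      induction d with
      | zero => exact fun _ => ⟨i, hi⟩
      | succ d ih =>
        intro hd
        have := (hcstep (p - d) (by omega) (by omega) (ih (by omega))).1
        rwa [show p - d - 1 = p - (d + 1) by omega] at this
    have up : ∀ d, p + d ≤ r → ∃ i, f i = cy k r (p + d) := by
      intro d
      induction d with
      | zero => exact fun _ => ⟨i, hi⟩
      | succ d ih =>
        intro hd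
        exact (hcstep (p + d) (by omega) (by omega) (ih (by omega))).2
    have all : ∀ q : Fin (r + 1), ∃ i, f i = cy k r q := by
      intro q
      rcases le_total (q : ℕ) p with h | h
      · have := down (p - q) (by omega)
        rwa [show p - (p - (q : ℕ)) = q by omega] at this
      · have := up (q - p) (by omega)
        rwa [show p + ((q : ℕ) - p) = q by omega] at this
    choose g hg using all
    have ginj : Function.Injective g := by
      intro a b hab
      have : cy k r a = cy k r b := by rw [← hg a, ← hg b, hab]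
      exact Fin.ext (cy_inj (by omega) (by omega) this)
    have := Fintype.card_le_of_injective g ginj
    simp only [Fintype.card_fin] at this
    omega
  have key : ∀ i, f i = z ∨ ∃ j s, f i = t j s := by
    intro i
    rcases hv : f i with _ | i' | ⟨j, s⟩ | ⟨j, s⟩
    · exact Or.inl rfl
    · exact absurd (hv.trans (c_eq i')) (hcno (i' + 1) (by omega) (by omega) i)
    · exact Or.inr ⟨j, s, rfl⟩
    · exact absurd hv (hl i j s)
  have nt : ∀ i j s, f i = t j s → (f (i + 1) = z ∨ f (i + 1) = t j (!s)) ∧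
      (f (i - 1) = z ∨ f (i - 1) = t j (!s)) := by
    intro i j s hi
    constructor
    · rcases nbr_t (hi ▸ fadj i) with h | h | h
      · exact Or.inl h
      · exact Or.inr h
      · exact absurd h (hl _ _ _)
    · rcases nbr_t (hi ▸ fadj' i) with h | h | h
      · exact Or.inl h
      · exact Or.inr h
      · exact absurd h (hl _ _ _)
  obtain ⟨i, j, s, hi⟩ : ∃ i j s, f i = t j s := by
    rcases key 0 with h0 | ⟨j, s, h0⟩
    · rcases key 1 with h1 | ⟨j, s, h1⟩
      · have := finj (h0.trans h1.symm)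
        have := congrArg Fin.val this
        simp at this
      · exact ⟨1, j, s, h1⟩
    · exact ⟨0, j, s, h0⟩
  have hne : f (i + 1) ≠ f (i - 1) := fun h => h2 i (finj h)
  rcases nt i j s hi with ⟨a | a, b | b⟩
  · exact hne (a.trans b.symm)
  · rcases (nt (i - 1) j (!s) b).2 with d | d
    · have e := finj (d.trans a.symm)
      apply h3 (i - 1)
      rw [sub_add_cancel]
      exact e.symm
    · rw [Bool.not_not] at d
      have e := finj (d.trans hi.symm)
      apply h2 (i - 1)
      rw [sub_add_cancel]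
      exact e.symm
  · rcases (nt (i + 1) j (!s) a).1 with d | d
    · exact h3 i (finj (d.trans b.symm))
    · rw [Bool.not_not] at d
      have e := finj (d.trans hi.symm)
      apply h2 (i + 1)
      rw [add_sub_cancel_right]
      exact e
  · exact hne (a.trans b.symm)

/-- Joining `x` and `y` creates a cycle with length in `[4, r]`. -/
def Good (x y : Vt k r) : Prop :=
  ∃ s ∈ Set.Icc 4 r, (cycleGraph s).IsContained (Gr k r ⊔ edge x y)

theorem Good.symm {x y : Vt k r} (h : Good x y) : Good y x := by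
  obtain ⟨s, hs, hc⟩ := h
  exact ⟨s, hs, by rwa [edge_comm]⟩

theorem good_cy (hr : 6 ≤ r) {p q : ℕ} (hpq : p + 2 ≤ q) (hq : q ≤ r) (h0 : ¬ (p = 0 ∧ q = r)) :
    Good (cy k r p) (cy k r q) := by
  rcases Nat.lt_or_ge (p + 2) q with h | h
  · refine ⟨q - p + 1, ⟨by omega, by omega⟩, ?_⟩
    refine contained_of_fun (by omega) (fun i => cy k r (p + i)) ?_ ?_ _ _ ?_ ?_
    · intro i hi j hj hij
      have := cy_inj (by omega) (by omega) hij
      omega
    · intro i hi
      exact adj_cy (by omega) (p := p + i) (by omega)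
    · rfl
    · show cy k r (p + (q - p + 1 - 1)) = cy k r q
      congr 1
      omega
  · have hq2 : q = p + 2 := by omega
    subst hq2
    refine ⟨r, ⟨by omega, le_rfl⟩, ?_⟩
    rw [edge_comm]
    have hwrap : ∀ i, i < r → (p + 2 + i) % (r + 1) =
        if p + 2 + i ≤ r then p + 2 + i else p + 1 + i - r := by
      intro i hi
      split_ifs with h1
      · exact Nat.mod_eq_of_lt (by omega)
      · rw [Nat.mod_eq_sub_mod (by omega), Nat.mod_eq_of_lt (by omega)]
        omega
    refine contained_of_fun (by omega) (fun i => cy k r ((p + 2 + i) % (r + 1))) ?_ ?_ _ _ ?_ ?_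
    · intro i hi j hj hij
      have := cy_inj (Nat.le_of_lt_succ (Nat.mod_lt _ (by omega)))
        (Nat.le_of_lt_succ (Nat.mod_lt _ (by omega))) hij
      rw [hwrap i hi, hwrap j hj] at this
      split_ifs at this <;> omega
    · intro i hi
      show (Gr k r).Adj (cy k r ((p + 2 + i) % (r + 1))) (cy k r ((p + 2 + (i + 1)) % (r + 1)))
      rw [hwrap i (by omega), hwrap (i + 1) (by omega)]
      rcases lt_trichotomy (p + 2 + i) r with h1 | h1 | h1
      · rw [if_pos (by omega), if_pos (by omega)]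
        exact adj_cy (by omega) (by omega)
      · rw [if_pos (by omega), if_neg (by omega), h1]
        have := adj_cy (k := k) (r := r) (by omega) (p := r) le_rfl
        rw [cy_end, ← cy_zero (k := k) (r := r)] at this
        rwa [show p + 1 + (i + 1) - r = 0 by omega]
      · rw [if_neg (by omega), if_neg (by omega)]
        have := adj_cy (k := k) (r := r) (by omega) (p := p + 1 + i - r) (by omega)
        rwa [show p + 1 + i - r + 1 = p + 1 + (i + 1) - r by omega] at this
    · show cy k r ((p + 2 + 0) % (r + 1)) = _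
      rw [hwrap 0 (by omega), if_pos (by omega)]
    · show cy k r ((p + 2 + (r - 1)) % (r + 1)) = _
      rw [hwrap (r - 1) (by omega), if_neg (by omega)]
      congr 1
      omega

/-- A short arm from the centre to a vertex of the long cycle. -/
theorem arm (hr : 6 ≤ r) (i : Fin r) : ∃ (g : ℕ → Vt k r) (d : ℕ), 1 ≤ d ∧ 2 * d ≤ r + 1 ∧
    g 0 = z ∧ g d = c i ∧ (∀ q < d, (Gr k r).Adj (g q) (g (q + 1))) ∧
    (∀ q ≤ d, ∀ q' ≤ d, g q = g q' → q = q') ∧ (∀ q j s, g q ≠ t j s ∧ g q ≠ l j s) := by
  rcases le_total (2 * ((i : ℕ) + 1)) (r + 1) with h | h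
  · refine ⟨cy k r, i + 1, by omega, h, cy_zero, (c_eq i).symm, ?_, ?_, ?_⟩
    · exact fun q hq => adj_cy (by omega) (by omega)
    · exact fun q hq q' hq' hh => cy_inj (by omega) (by omega) hh
    · exact fun q j s => ⟨cy_ne_t _ _ _, cy_ne_l _ _ _⟩
  · have hi := i.isLt
    refine ⟨fun q => cy k r (r + 1 - q), r - i, by omega, by omega, cy_end, ?_, ?_, ?_, ?_⟩
    · show cy k r (r + 1 - (r - i)) = c i
      rw [c_eq i]
      congr 1
      omega
    · intro q hq
      have := adj_cy (k := k) (r := r) (by omega) (p := r + 1 - (q + 1)) (by omega)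
      rw [show r + 1 - (q + 1) + 1 = r + 1 - q by omega] at this
      exact this.symm
    · intro q hq q' hq' hh
      rcases Nat.eq_zero_or_pos q with rfl | h1
      · rcases Nat.eq_zero_or_pos q' with rfl | h2
        · rfl
        · have hh' : cy k r (r + 1) = cy k r (r + 1 - q') := hh
          rw [cy_end, ← cy_zero (k := k) (r := r)] at hh'
          have := cy_inj (by omega) (by omega) hh'
          omega
      · rcases Nat.eq_zero_or_pos q' with rfl | h2
        · have hh' : cy k r (r + 1 - q) = cy k r (r + 1) := hh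
          rw [cy_end, ← cy_zero (k := k) (r := r)] at hh'
          have := cy_inj (by omega) (by omega) hh'
          omega
        · have := cy_inj (k := k) (r := r) (p := r + 1 - q) (q := r + 1 - q') (by omega) (by omega) hh
          omega
    · exact fun q j s => ⟨cy_ne_t _ _ _, cy_ne_l _ _ _⟩

theorem good_tc (hr : 6 ≤ r) (j : Fin k) (s : Bool) (i : Fin r) :
    Good (t j s) (c i : Vt k r) := by
  obtain ⟨g, d, hd1, hd2, g0, gd, gadj, ginj, gne⟩ := arm (k := k) hr i
  rcases Nat.lt_or_ge 1 d with h | h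
  · refine ⟨d + 2, ⟨by omega, by omega⟩, ?_⟩
    refine contained_of_fun (by omega)
      (fun q => match q with | 0 => t j s | q + 1 => g q) ?_ ?_ _ _ rfl ?_
    · intro a ha b hb hab
      rcases a with _ | a <;> rcases b with _ | b
      · rfl
      · exact absurd hab.symm (gne b j s).1
      · exact absurd hab (gne a j s).1
      · have := ginj a (by omega) b (by omega) hab
        omega
    · intro a ha
      rcases a with _ | a
      · show (Gr k r).Adj (t j s) (g 0)
        rw [g0]
        exact (adj_zt j s).symm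
      · exact gadj a (by omega)
    · exact gd
  · have : d = 1 := by omega
    subst this
    refine ⟨4, ⟨le_rfl, by omega⟩, ?_⟩
    have h1 := gadj 0 (by omega)
    rw [g0, show g (0 + 1) = c i from gd] at h1
    exact contained_four (adj_tt j s) (adj_zt j (!s)).symm h1 (by simp) (by simp) (by simp)

theorem good_lc (hr : 6 ≤ r) (j : Fin k) (s : Bool) (i : Fin r) :
    Good (l j s) (c i : Vt k r) := by
  obtain ⟨g, d, hd1, hd2, g0, gd, gadj, ginj, gne⟩ := arm (k := k) hr i
  rcases Nat.lt_or_ge 1 d with h | h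
  · refine ⟨d + 3, ⟨by omega, by omega⟩, ?_⟩
    refine contained_of_fun (by omega)
      (fun q => match q with | 0 => l j s | 1 => t j s | q + 2 => g q) ?_ ?_ _ _ rfl ?_
    · intro a ha b hb hab
      rcases a with _ | _ | a <;> rcases b with _ | _ | b
      · rfl
      · cases hab
      · exact absurd hab.symm (gne b j s).2
      · cases hab
      · rfl
      · exact absurd hab.symm (gne b j s).1
      · exact absurd hab (gne a j s).2
      · exact absurd hab (gne a j s).1
      · have := ginj a (by omega) b (by omega) hab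
        omega
    · intro a ha
      rcases a with _ | _ | a
      · exact (adj_tl j s).symm
      · show (Gr k r).Adj (t j s) (g 0)
        rw [g0]
        exact (adj_zt j s).symm
      · exact gadj a (by omega)
    · exact gd
  · have : d = 1 := by omega
    subst this
    refine ⟨4, ⟨le_rfl, by omega⟩, ?_⟩
    have h1 := gadj 0 (by omega)
    rw [g0, show g (0 + 1) = c i from gd] at h1
    exact contained_four (adj_tl j s).symm (adj_zt j s).symm h1 (by simp) (by simp) (by simp)

theorem good_zl (hr : 6 ≤ r) (j : Fin k) (s : Bool) : Good (z : Vt k r) (l j s) :=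
  ⟨4, ⟨le_rfl, by omega⟩, contained_four (adj_zt j (!s)) (by simpa using adj_tt j (!s))
    (adj_tl j s) (by simp) (by simp) (by simp)⟩

theorem good_tt (hr : 6 ≤ r) (j j' : Fin k) (hj : j ≠ j') (s s' : Bool) :
    Good (t j s : Vt k r) (t j' s') :=
  ⟨4, ⟨le_rfl, by omega⟩, contained_four (adj_tt j s) (adj_zt j (!s)).symm (adj_zt j' s')
    (by simp) (by simp [hj]) (by simp [hj])⟩

theorem good_tl (hr : 6 ≤ r) (j j' : Fin k) (s s' : Bool) (h : ¬ (j = j' ∧ s = s')) :
    Good (t j s : Vt k r) (l j' s') :=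
  ⟨4, ⟨le_rfl, by omega⟩, contained_four (adj_zt j s).symm (adj_zt j' s') (adj_tl j' s')
    (by simpa using h) (by simp) (by simp)⟩

theorem good_ll (hr : 6 ≤ r) (j j' : Fin k) (s s' : Bool) (h : ¬ (j = j' ∧ s = s')) :
    Good (l j s : Vt k r) (l j' s') := by
  by_cases hj : j = j'
  · subst hj
    have hs : s' = !s := by
      rcases s with _ | _ <;> rcases s' with _ | _ <;> simp_all
    subst hs
    exact ⟨4, ⟨le_rfl, by omega⟩, contained_four (adj_tl j s).symm (adj_tt j s)
      (adj_tl j (!s)) (by simp) (by simp) (by simp)⟩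
  · exact ⟨5, ⟨by omega, by omega⟩, contained_five (adj_tl j s).symm (adj_zt j s).symm
      (adj_zt j' s') (adj_tl j' s') (by simp) (by simp) (by simp [hj]) (by simp [hj]) (by simp)
      (by simp)⟩

theorem good_zc (hr : 6 ≤ r) (i : Fin r) (hn : ¬ (Gr k r).Adj z (c i)) :
    Good (z : Vt k r) (c i) := by
  have hi := i.isLt
  have h1 : (i : ℕ) ≠ 0 := by
    intro h
    apply hn
    have := adj_cy (k := k) (r := r) (by omega) (p := 0) (by omega)
    rw [cy_zero] at this
    rw [c_eq i, h]
    exact this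
  have h2 : (i : ℕ) + 1 ≠ r := by
    intro h
    apply hn
    have := adj_cy (k := k) (r := r) (by omega) (p := r) le_rfl
    rw [cy_end] at this
    rw [c_eq i, h]
    exact this.symm
  have := good_cy (k := k) hr (p := 0) (q := i + 1) (by omega) (by omega) (by omega)
  rwa [cy_zero, ← c_eq] at this

theorem good_cc (hr : 6 ≤ r) (i i' : Fin r) (hlt : i < i') (hn : ¬ (Gr k r).Adj (c i) (c i')) :
    Good (c i : Vt k r) (c i') := by
  have hi := i.isLt
  have hi' := i'.isLt
  have hlt' : (i : ℕ) < i' := hlt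
  have h1 : (i : ℕ) + 1 ≠ i' := by
    intro h
    apply hn
    have := adj_cy (k := k) (r := r) (by omega) (p := i + 1) (by omega)
    rw [c_eq i, c_eq i', ← h]
    exact this
  have := good_cy (k := k) hr (p := i + 1) (q := i' + 1) (by omega) (by omega) (by omega)
  rwa [← c_eq, ← c_eq] at this

theorem saturated (hr : 6 ≤ r) : CycleSaturated (Set.Icc 4 r) (Gr k r) := by
  refine ⟨?_, ?_⟩
  · rintro s ⟨h4, hsr⟩ hc
    obtain ⟨n, rfl⟩ : ∃ n, s = n + 4 := ⟨s - 4, by omega⟩
    exact no_short n hsr hc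
  · intro x y hne hn
    rcases x with _ | i | ⟨j, s⟩ | ⟨j, s⟩ <;> rcases y with _ | i' | ⟨j', s'⟩ | ⟨j', s'⟩
    · exact absurd rfl hne
    · exact good_zc hr i' hn
    · exact absurd (adj_zt j' s') hn
    · exact good_zl hr j' s'
    · exact (good_zc hr i (fun h => hn h.symm)).symm
    · rcases lt_trichotomy i i' with h | h | h
      · exact good_cc hr i i' h hn
      · exact absurd (by rw [h]) hne
      · exact (good_cc hr i' i h (fun h' => hn h'.symm)).symm
    · exact (good_tc hr j' s' i).symm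
    · exact (good_lc hr j' s' i).symm
    · exact absurd (adj_zt j s).symm hn
    · exact good_tc hr j s i'
    · by_cases hj : j = j'
      · subst hj
        have hs : s' = !s := by
          rcases s with _ | _ <;> rcases s' with _ | _ <;> simp_all
        subst hs
        exact absurd (adj_tt j s) hn
      · exact good_tt hr j j' hj s s'
    · refine good_tl hr j j' s s' ?_
      rintro ⟨rfl, rfl⟩
      exact hn (adj_tl _ _)
    · exact (good_zl hr j s).symm
    · exact good_lc hr j s i'
    · refine (good_tl hr j' j s' s ?_).symm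
      rintro ⟨rfl, rfl⟩
      exact hn (adj_tl _ _).symm
    · refine good_ll hr j j' s s' ?_
      rintro ⟨rfl, rfl⟩
      exact hne rfl

/-- The edges, listed. -/
def F (k r : ℕ) : Fin (r + 1) ⊕ (Fin k × Fin 5) → Sym2 (Vt k r)
  | Sum.inl p => s(cy k r p, cy k r (p + 1))
  | Sum.inr (j, 0) => s(z, t j false)
  | Sum.inr (j, 1) => s(z, t j true)
  | Sum.inr (j, 2) => s(t j false, t j true)
  | Sum.inr (j, 3) => s(t j false, l j false)
  | Sum.inr (j, 4) => s(t j true, l j true)

theorem E_mem (a b : Vt k r) (h : E a b) : s(a, b) ∈ Set.range (F k r) := by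
  rcases h with ⟨p, hp, h1, h2⟩ | ⟨j', s', h1, h2⟩ | ⟨j', h1, h2⟩ | ⟨j', s', h1, h2⟩
  · subst h1; subst h2
    exact ⟨Sum.inl ⟨p, by omega⟩, rfl⟩
  · subst h1; subst h2
    cases s'
    · exact ⟨Sum.inr (j', 0), rfl⟩
    · exact ⟨Sum.inr (j', 1), rfl⟩
  · subst h1; subst h2
    exact ⟨Sum.inr (j', 2), rfl⟩
  · subst h1; subst h2
    cases s'
    · exact ⟨Sum.inr (j', 3), rfl⟩
    · exact ⟨Sum.inr (j', 4), rfl⟩

theorem edges_le : (Gr k r).edgeSet.ncard ≤ 5 * k + r + 1 := by
  have hsub : (Gr k r).edgeSet ⊆ F k r '' Set.univ := by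
    intro e
    induction e with
    | _ a b =>
      intro h
      rw [Set.image_univ]
      rcases (adj_iff a b).1 h with ⟨-, h | h⟩
      · exact E_mem a b h
      · rw [Sym2.eq_swap]
        exact E_mem b a h
  have hfin : (F k r '' Set.univ).Finite := Set.toFinite _
  calc (Gr k r).edgeSet.ncard ≤ (F k r '' Set.univ).ncard := Set.ncard_le_ncard hsub hfin
    _ ≤ (Set.univ : Set (Fin (r + 1) ⊕ (Fin k × Fin 5))).ncard :=
        Set.ncard_image_le Set.finite_univ
    _ = 5 * k + r + 1 := by
        rw [Set.ncard_univ, Nat.card_eq_fintype_card]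
        simp
        ring

/-- The vertices, counted. -/
def vtEquiv (k r : ℕ) : Vt k r ≃ Option (Fin r ⊕ (Fin k × Bool × Bool)) where
  toFun
    | z => none
    | c i => some (Sum.inl i)
    | t j s => some (Sum.inr (j, s, false))
    | l j s => some (Sum.inr (j, s, true))
  invFun
    | none => z
    | some (Sum.inl i) => c i
    | some (Sum.inr (j, s, false)) => t j s
    | some (Sum.inr (j, s, true)) => l j s
  left_inv := by rintro (_ | i | ⟨j, s⟩ | ⟨j, s⟩) <;> rfl
  right_inv := by rintro (_ | i | ⟨j, s, _ | _⟩) <;> rfl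

instance : Fintype (Vt k r) := Fintype.ofEquiv _ (vtEquiv k r).symm

theorem card_vt : Fintype.card (Vt k r) = 4 * k + r + 1 := by
  rw [Fintype.card_congr (vtEquiv k r)]
  simp
  ring

theorem sat_le (hr : 6 ≤ r) : sat (4 * k + r + 1) (Set.Icc 4 r) ≤ 5 * k + r + 1 := by
  let e : Fin (4 * k + r + 1) ≃ Vt k r := (Fintype.equivFinOfCardEq (card_vt (k := k) (r := r))).symm
  let i : (Gr k r).comap e ≃g Gr k r := SimpleGraph.Iso.comap e (Gr k r)
  have h1 : sat (4 * k + r + 1) (Set.Icc 4 r) ≤ ((Gr k r).comap e).edgeSet.ncard :=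
    Nat.sInf_le ⟨_, (saturated hr).of_iso i.symm, rfl⟩
  have h2 : ((Gr k r).comap e).edgeSet.ncard = (Gr k r).edgeSet.ncard := by
    rw [← Nat.card_coe_set_eq, ← Nat.card_coe_set_eq]
    exact Nat.card_congr i.mapEdgeSet
  rw [h2] at h1
  exact h1.trans edges_le

end Pool.Agent.Q95.CycFam
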