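import Mathlib
import Pool.Agent.Q95.CycFam

/-!
The lower bound `5n/4 - 3/2` for the number of edges of a graph on `n` vertices which is saturated
for the cycles of length at least four.
-/

namespace Pool.Agent.Q95.CycInf

open SimpleGraph Pool.Agent.Q95.CycSat Pool.Agent.Q95.CycFam

variable {V : Type} {G : SimpleGraph V}

/-- A cycle through an edge `xy` is a path from `x` to `y` plus that edge. -/
theorem path_of_cycle {H : SimpleGraph V} [DecidableEq V] {x y v : V} (p : H.Walk v v)
    (hp : p.IsCycle) (hxy : s(x, y) ∈ p.edges) :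
    ∃ q : H.Walk x y, q.IsPath ∧ q.length + 1 = p.length ∧ s(x, y) ∉ q.edges := by
  have hx : x ∈ p.support := p.fst_mem_support_of_mem_edges hxy
  have key : ∀ c : H.Walk x x, c.IsCycle → c.snd = y →
      ∃ q : H.Walk x y, q.IsPath ∧ q.length + 1 = c.length ∧ s(x, y) ∉ q.edges := by
    intro c hc hs
    subst hs
    have hnn : ¬ c.Nil := hc.not_nil
    refine ⟨c.tail.reverse, hc.isPath_tail.reverse, ?_, ?_⟩
    · rw [Walk.length_reverse]
      exact Walk.length_tail_add_one hnn
    · rw [Walk.edges_reverse, List.mem_reverse]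
      have h1 := hc.isTrail.edges_nodup
      rw [← Walk.cons_tail_eq c hnn, Walk.edges_cons, List.nodup_cons] at h1
      exact h1.1
  have hc := hp.rotate hx
  have hl : (p.rotate x hx).length = p.length := Walk.length_rotate _ _ _
  have he : s(x, y) ∈ (p.rotate x hx).edges := (p.rotate_edges x hx).perm.mem_iff.2 hxy
  generalize p.rotate x hx = c at hc hl he
  have hnn : ¬ c.Nil := hc.not_nil
  by_cases hs : c.snd = y
  · obtain ⟨q, h1, h2, h3⟩ := key c hc hs
    exact ⟨q, h1, by omega, h3⟩
  · have hs' : c.reverse.snd = y := by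
      rw [Walk.snd_reverse]
      have h2 : s(x, y) ∈ c.tail.edges := by
        rw [← Walk.cons_tail_eq c hnn, Walk.edges_cons, List.mem_cons] at he
        rcases he with he | he
        · exfalso
          apply hs
          rw [Sym2.eq_iff] at he
          rcases he with ⟨_, he⟩ | ⟨he, he'⟩
          · exact he.symm
          · rw [he', ← he]
        · exact he
      have h3 := hc.isPath_tail.eq_penultimate_of_mem_edges h2
      rw [h3]
      have h4 : ¬ c.tail.Nil := by
        intro hn
        rw [Walk.edges_eq_nil.2 hn] at h2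
        simp at h2
      conv_lhs => rw [← Walk.cons_tail_eq c hnn]
      exact Walk.penultimate_cons_of_not_nil _ _ h4
    obtain ⟨q, h1, h2, h3⟩ := key c.reverse hc.reverse hs'
    exact ⟨q, h1, by rw [Walk.length_reverse] at h2; omega, h3⟩

/-- In a saturated graph two non-adjacent vertices are joined by a path of length at least 3. -/
theorem long_path (hG : CycleSaturated (Set.Ici 4) G) {x y : V} (hne : x ≠ y)
    (hn : ¬ G.Adj x y) : ∃ q : G.Walk x y, q.IsPath ∧ 3 ≤ q.length := by
  classical
  obtain ⟨s, hs, hc⟩ := hG.2 x y hne hn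
  have hs4 : 4 ≤ s := hs
  obtain ⟨v, p, hp, hl⟩ := (cycleGraph_isContained_iff (by omega)).1 hc
  by_cases hxy : s(x, y) ∈ p.edges
  · obtain ⟨q, hq, hql, hqe⟩ := path_of_cycle p hp hxy
    have hin : ∀ e ∈ q.edges, e ∈ G.edgeSet := by
      intro e he
      have h1 := q.edges_subset_edgeSet he
      rw [edgeSet_sup] at h1
      rcases h1 with h1 | h1
      · exact h1
      · exfalso
        rw [edgeSet_edge_of_ne hne] at h1
        rw [Set.mem_singleton_iff] at h1
        rw [h1] at he
        exact hqe he
    refine ⟨q.transfer G hin, hq.transfer hin, ?_⟩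
    rw [Walk.length_transfer]
    omega
  · exfalso
    have hin : ∀ e ∈ p.edges, e ∈ G.edgeSet := by
      intro e he
      have h1 := p.edges_subset_edgeSet he
      rw [edgeSet_sup] at h1
      rcases h1 with h1 | h1
      · exact h1
      · exfalso
        rw [edgeSet_edge_of_ne hne] at h1
        rw [Set.mem_singleton_iff] at h1
        rw [h1] at he
        exact hxy he
    refine hG.1 s hs ((cycleGraph_isContained_iff (by omega)).2
      ⟨v, p.transfer G hin, hp.transfer hin, ?_⟩)
    rw [Walk.length_transfer]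
    exact hl

/-- No cycle of length at least four, in terms of closed walks. -/
theorem length_le_three (hG : CycleSaturated (Set.Ici 4) G) {v : V} (p : G.Walk v v)
    (hp : p.IsCycle) : p.length ≤ 3 := by
  by_contra hcon
  exact hG.1 p.length (by simp only [Set.mem_Ici]; omega)
    ((cycleGraph_isContained_iff (by omega)).2 ⟨v, p, hp, rfl⟩)

/-- A path of length at least two between adjacent vertices has length exactly two. -/
theorem path_length (hG : CycleSaturated (Set.Ici 4) G) {x y : V} (h : G.Adj x y)
    (p : G.Walk x y) (hp : p.IsPath) : p.length ≤ 2 := by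
  classical
  by_contra hcon
  have h1 : (Walk.cons h.symm p).IsCycle := by
    rw [Walk.cons_isCycle_iff]
    refine ⟨hp, fun hmem => ?_⟩
    have h2 := hp.eq_snd_of_mem_edges (by rwa [Sym2.eq_swap] at hmem)
    have h3 : p.getVert 1 = p.getVert p.length := by
      rw [Walk.getVert_length]
      exact h2.symm
    have h4 := hp.getVert_injOn (by simp only [Set.mem_ofPred_eq]; omega)
      (by simp only [Set.mem_ofPred_eq]; omega) h3
    omega
  have h2 := length_le_three hG _ h1
  rw [Walk.length_cons] at h2
  omega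

theorem preconnected (hG : CycleSaturated (Set.Ici 4) G) : G.Preconnected := by
  intro x y
  by_cases hne : x = y
  · rw [hne]
  by_cases hadj : G.Adj x y
  · exact hadj.reachable
  obtain ⟨q, -, -⟩ := long_path hG hne hadj
  exact ⟨q⟩

/-- An edge lies in a triangle. -/
def InTri (G : SimpleGraph V) (x y : V) : Prop := ∃ w, G.Adj x w ∧ G.Adj w y

theorem InTri.symm {x y : V} (h : InTri G x y) : InTri G y x := by
  obtain ⟨w, h1, h2⟩ := h
  exact ⟨w, h2.symm, h1.symm⟩

/-- A path of length two between the ends of an edge shows that it lies in a triangle. -/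
theorem inTri_of_path {x y : V} (p : G.Walk x y) (hl : p.length = 2) : InTri G x y := by
  refine ⟨p.getVert 1, ?_, ?_⟩
  · have := p.adj_getVert_succ (i := 0) (by omega)
    simpa using this
  · have := p.adj_getVert_succ (i := 1) (by omega)
    rw [show (1 + 1 : ℕ) = p.length by omega, Walk.getVert_length] at this
    exact this

/-- The edges in no triangle form a matching. -/
theorem matching (hG : CycleSaturated (Set.Ici 4) G) {x v y : V} (hxv : G.Adj x v)
    (hvy : G.Adj v y) (h1 : ¬ InTri G x v) (h2 : ¬ InTri G v y) : x = y := by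
  classical
  by_contra hne
  have hn : ¬ G.Adj x y := fun h => h1 ⟨y, h, hvy.symm⟩
  obtain ⟨q, hq, hql⟩ := long_path hG hne hn
  by_cases hv : v ∈ q.support
  · have hsum : (q.takeUntil v hv).length + (q.dropUntil v hv).length = q.length := by
      rw [← Walk.length_append, Walk.take_spec]
    have hp1 := path_length hG hxv _ (hq.takeUntil hv)
    have hp2 := path_length hG hvy _ (hq.dropUntil hv)
    have h3 : (q.takeUntil v hv).length ≠ 2 := fun h => h1 (inTri_of_path _ h)
    have h4 : (q.dropUntil v hv).length ≠ 2 := fun h => h2 (inTri_of_path _ h)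
    omega
  · have hp : (Walk.cons hxv.symm q).IsPath := by
      rw [Walk.cons_isPath_iff]
      exact ⟨hq, hv⟩
    have := path_length hG hvy _ hp
    rw [Walk.length_cons] at this
    omega

/-- Each edge lies in at most one triangle. -/
theorem unique_third (hG : CycleSaturated (Set.Ici 4) G) {a b c d : V} (hab : G.Adj a b)
    (hac : G.Adj a c) (hcb : G.Adj c b) (had : G.Adj a d) (hdb : G.Adj d b) : c = d := by
  by_contra hne
  have h1 := contained_four (G := G) hac hcb hdb.symm hab.ne had.ne hne
  have h2 : G ⊔ edge a d = G := by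
    rw [sup_eq_left]
    exact (edge_le_iff _).2 (Or.inr had)
  rw [h2] at h1
  exact hG.1 4 (by simp) h1

section count

variable [Fintype V]

/-- The number of edges is at least `5n/4 - 3/2`. -/
theorem edges_ge (hG : CycleSaturated (Set.Ici 4) G) (hV : 0 < Fintype.card V) :
    5 * Fintype.card V ≤ 4 * G.edgeSet.ncard + 6 := by
  classical
  have : Nonempty V := Fintype.card_pos_iff.1 hV
  have hconn : G.Connected := ⟨preconnected hG⟩
  obtain ⟨T, hTG, hT⟩ := hconn.exists_isTree_le
  have hTc := hT.card_edgeFinset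
  have hsub : T.edgeFinset ⊆ G.edgeFinset := edgeFinset_mono hTG
  have hcard : G.edgeSet.ncard = G.edgeFinset.card := by
    rw [← coe_edgeFinset, Set.ncard_coe_finset]
  -- tree edges outside every triangle, and inside some triangle
  let P : Sym2 V → Prop := fun e => ∃ x y, e = s(x, y) ∧ InTri G x y
  let A := T.edgeFinset.filter (fun e => ¬ P e)
  let B := T.edgeFinset.filter P
  let N := G.edgeFinset \ T.edgeFinset
  have hAB : B.card + A.card = T.edgeFinset.card := Finset.card_filter_add_card_filter_not _
  have hN : N.card + T.edgeFinset.card = G.edgeFinset.card :=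
    Finset.card_sdiff_add_card_eq_card hsub
  -- the matching
  have hA : A.card * 2 ≤ Fintype.card V := by
    have h1 : (A.biUnion fun e => e.toFinset).card = ∑ e ∈ A, e.toFinset.card := by
      apply Finset.card_biUnion
      intro e he f hf hef
      rw [Function.onFun, Finset.disjoint_left]
      intro v hv hv'
      apply hef
      rw [Sym2.mem_toFinset] at hv hv'
      obtain ⟨x, rfl⟩ := hv
      obtain ⟨y, rfl⟩ := hv'
      rw [Finset.mem_coe] at he hf
      simp only [A, P, Finset.mem_filter, mem_edgeFinset, mem_edgeSet] at he hf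
      have e1 : G.Adj x v := (hTG he.1).symm
      have e2 : G.Adj v y := hTG hf.1
      have : x = y := matching hG e1 e2
        (fun h => he.2 ⟨v, x, rfl, h.symm⟩) (fun h => hf.2 ⟨v, y, rfl, h⟩)
      rw [this]
    have h2 : ∑ e ∈ A, e.toFinset.card = A.card * 2 := by
      rw [Finset.sum_const_nat]
      intro e he
      apply Sym2.card_toFinset_of_not_isDiag
      simp only [A, Finset.mem_filter, mem_edgeFinset] at he
      exact T.not_isDiag_of_mem_edgeSet he.1
    rw [← h2, ← h1]
    exact Finset.card_le_univ _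
  -- a non-tree edge in the triangle of a tree edge
  have hex : ∀ e ∈ B, ∃ f ∈ N, ∃ a b c, e = s(a, b) ∧ f = s(a, c) ∧ G.Adj a b ∧ G.Adj a c ∧
      G.Adj c b := by
    intro e he
    simp only [B, P, Finset.mem_filter, mem_edgeFinset] at he
    obtain ⟨heT, x, y, rfl, w, hxw, hwy⟩ := he
    have hxy : G.Adj x y := hTG heT
    by_cases h1 : T.Adj x w
    · by_cases h2 : T.Adj w y
      · exfalso
        have h3 : T.Adj x y := heT
        exact hT.isAcyclic.cliqueFree (n := 3) (by norm_num) {x, y, w}
          (by rw [is3Clique_triple_iff]; exact ⟨h3, h1, h2.symm⟩)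
      · refine ⟨s(y, w), ?_, y, x, w, Sym2.eq_swap, rfl, hxy.symm, hwy.symm, hxw.symm⟩
        simp only [N, Finset.mem_sdiff, mem_edgeFinset, mem_edgeSet]
        exact ⟨hwy.symm, fun h => h2 h.symm⟩
    · refine ⟨s(x, w), ?_, x, y, w, rfl, rfl, hxy, hxw, hwy⟩
      simp only [N, Finset.mem_sdiff, mem_edgeFinset, mem_edgeSet]
      exact ⟨hxw, h1⟩
  choose! F hFN a b c h1 h2 h3 h4 h5 using hex
  have hB : B.card ≤ 2 * (B.image F).card := by
    apply Finset.card_le_mul_card_image
    intro f hf
    rw [Finset.mem_image] at hf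
    obtain ⟨e₀, he₀, rfl⟩ := hf
    have hsub2 : (B.filter fun e => F e = F e₀) ⊆ {s(a e₀, b e₀), s(c e₀, b e₀)} := by
      intro e he
      rw [Finset.mem_filter] at he
      obtain ⟨he, hFe⟩ := he
      rw [h2 e he, h2 e₀ he₀, Sym2.eq_iff] at hFe
      rw [Finset.mem_insert, Finset.mem_singleton, h1 e he]
      rcases hFe with ⟨ha, hc⟩ | ⟨ha, hc⟩
      · left
        have h6 := h3 e he
        have h7 := h5 e he
        rw [ha] at h6
        rw [hc] at h7
        rw [ha, unique_third hG (h4 e₀ he₀) h6 h7.symm (h3 e₀ he₀) (h5 e₀ he₀).symm]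
      · right
        have h6 := h3 e he
        have h7 := h5 e he
        rw [ha] at h6
        rw [hc] at h7
        rw [ha, unique_third hG (h4 e₀ he₀) h7 h6.symm (h3 e₀ he₀) (h5 e₀ he₀).symm]
    exact (Finset.card_le_card hsub2).trans Finset.card_le_two
  have hFN' : (B.image F).card ≤ N.card := by
    apply Finset.card_le_card
    intro f hf
    rw [Finset.mem_image] at hf
    obtain ⟨e, he, rfl⟩ := hf
    exact hFN e he
  omega

end count

/-- Graphs saturated for the cycles with lengths in `I` exist. -/
theorem exists_saturated (I : Set ℕ) (hI : ∀ s ∈ I, 3 ≤ s) (n : ℕ) :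
    ∃ G : SimpleGraph (Fin n), CycleSaturated I G := by
  classical
  have hne : (({G : SimpleGraph (Fin n) | ∀ s ∈ I, ¬ (cycleGraph s).IsContained G}) :
      Set (SimpleGraph (Fin n))).Nonempty := by
    refine ⟨⊥, fun s hs hc => ?_⟩
    obtain ⟨v, p, hp, -⟩ := (cycleGraph_isContained_iff (by have := hI s hs; omega)).1 hc
    exact hp.ne_bot rfl
  obtain ⟨G, hG⟩ := (Set.toFinite _).exists_maximal hne
  refine ⟨G, hG.1, fun x y hxy hadj => ?_⟩
  by_contra hcon
  have h1 : G ⊔ edge x y ≤ G :=
    hG.2 (show ∀ s ∈ I, ¬ (cycleGraph s).IsContained (G ⊔ edge x y) from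
      fun s hs hc => hcon ⟨s, hs, hc⟩) le_sup_left
  apply hadj
  apply h1
  rw [sup_adj, edge_adj]
  exact Or.inr ⟨Or.inl ⟨rfl, rfl⟩, hxy⟩

theorem sat_Ici_ge (n : ℕ) (hn : 0 < n) : 5 * n ≤ 4 * sat n (Set.Ici 4) + 6 := by
  have hne : ({e : ℕ | ∃ G : SimpleGraph (Fin n), CycleSaturated (Set.Ici 4) G ∧
      G.edgeSet.ncard = e}).Nonempty := by
    obtain ⟨G, hG⟩ := exists_saturated (Set.Ici 4) (fun s hs => by
      have : 4 ≤ s := hs
      omega) n
    exact ⟨_, G, hG, rfl⟩
  obtain ⟨G, hG, he⟩ := Nat.sInf_mem hne
  have h1 := edges_ge hG (by simpa using hn)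
  rw [he, Fintype.card_fin] at h1
  exact h1

end Pool.Agent.Q95.CycInf
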