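import Mathlib

set_option autoImplicit false

namespace Pool.Agent.Q95.EigMult

open Matrix Finset

variable {n : Type*} [Fintype n] [DecidableEq n]

/-- the spectral theorem in coordinates -/
theorem diag_form {A : Matrix n n ℝ} (hA : A.IsHermitian) :
    ∃ U : Matrix n n ℝ, (∀ i j, ∑ x, U x i * U x j = if i = j then 1 else 0) ∧
      (∀ x y, ∑ i, U x i * U y i = if x = y then 1 else 0) ∧
      ∀ x y, A x y = ∑ i, hA.eigenvalues i * (U x i * U y i) := by
  refine ⟨(hA.eigenvectorUnitary : Matrix n n ℝ), ?_, ?_, ?_⟩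
  · intro i j
    have h : star (hA.eigenvectorUnitary : Matrix n n ℝ) * (hA.eigenvectorUnitary : Matrix n n ℝ) = 1 :=
      Unitary.coe_star_mul_self _
    have := congrFun (congrFun h i) j
    rw [Matrix.mul_apply, Matrix.one_apply] at this
    simpa [Matrix.star_apply] using this
  · intro x y
    have h : (hA.eigenvectorUnitary : Matrix n n ℝ) * star (hA.eigenvectorUnitary : Matrix n n ℝ) = 1 :=
      Unitary.coe_mul_star_self _
    have := congrFun (congrFun h x) y
    rw [Matrix.mul_apply, Matrix.one_apply] at this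
    simpa [Matrix.star_apply] using this
  · intro x y
    have h := hA.spectral_theorem
    rw [Unitary.conjStarAlgAut_apply] at h
    conv_lhs => rw [h]
    rw [Matrix.mul_apply]
    refine Finset.sum_congr rfl fun i _ => ?_
    rw [Matrix.mul_diagonal]
    simp [Matrix.star_apply]
    ring

/-- rank, trace and Frobenius norm of a real symmetric matrix -/
theorem trace_sq_le {M : Matrix n n ℝ} (hM : M.IsHermitian) :
    M.trace ^ 2 ≤ M.rank * ∑ x, ∑ y, M x y ^ 2 := by
  classical
  obtain ⟨U, hU1, hU2, hU3⟩ := diag_form hM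
  have h1 : M.trace = ∑ i, hM.eigenvalues i := by
    have := hM.trace_eq_sum_eigenvalues
    simpa using this
  have h2 : ∑ x, ∑ y, M x y ^ 2 = ∑ i, hM.eigenvalues i ^ 2 := by
    have e1 : ∀ x y, M x y ^ 2 = ∑ i, ∑ j, hM.eigenvalues i * hM.eigenvalues j *
        ((U x i * U x j) * (U y i * U y j)) := by
      intro x y
      rw [hU3 x y, sq, Finset.sum_mul_sum]
      refine Finset.sum_congr rfl fun i _ => Finset.sum_congr rfl fun j _ => by ring
    calc ∑ x, ∑ y, M x y ^ 2 = ∑ x, ∑ y, ∑ i, ∑ j, hM.eigenvalues i * hM.eigenvalues j *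
        ((U x i * U x j) * (U y i * U y j)) := by
          refine Finset.sum_congr rfl fun x _ => Finset.sum_congr rfl fun y _ => e1 x y
      _ = ∑ i, ∑ j, ∑ x, ∑ y, hM.eigenvalues i * hM.eigenvalues j *
        ((U x i * U x j) * (U y i * U y j)) := by
          rw [Finset.sum_congr rfl fun x _ => Finset.sum_comm]
          rw [Finset.sum_comm]
          refine Finset.sum_congr rfl fun i _ => ?_
          rw [Finset.sum_congr rfl fun x _ => Finset.sum_comm]
          rw [Finset.sum_comm]
      _ = ∑ i, ∑ j, hM.eigenvalues i * hM.eigenvalues j *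
        ((∑ x, U x i * U x j) * (∑ y, U y i * U y j)) := by
          refine Finset.sum_congr rfl fun i _ => Finset.sum_congr rfl fun j _ => ?_
          rw [Finset.sum_mul_sum, Finset.mul_sum]
          refine Finset.sum_congr rfl fun x _ => ?_
          rw [Finset.mul_sum]
      _ = ∑ i, hM.eigenvalues i ^ 2 := by
          refine Finset.sum_congr rfl fun i _ => ?_
          rw [Finset.sum_eq_single i]
          · rw [hU1]; simp; ring
          · intro j _ hj
            rw [hU1, if_neg (Ne.symm hj)]; ring
          · intro h; exact absurd (Finset.mem_univ i) h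
  rw [h2, h1, hM.rank_eq_card_non_zero_eigs]
  have h3 : ∑ i, hM.eigenvalues i = ∑ i ∈ Finset.univ.filter (fun i => hM.eigenvalues i ≠ 0), hM.eigenvalues i := by
    rw [Finset.sum_filter_ne_zero]
  have h4 : (Fintype.card {i // hM.eigenvalues i ≠ 0} : ℝ) =
      ((Finset.univ.filter (fun i => hM.eigenvalues i ≠ 0)).card : ℝ) := by
    rw [Fintype.card_subtype]
  rw [h3, h4]
  refine (sq_sum_le_card_mul_sum_sq).trans ?_
  refine mul_le_mul_of_nonneg_left ?_ (by positivity)
  exact Finset.sum_le_sum_of_subset_of_nonneg (Finset.filter_subset _ _) (fun i _ _ => sq_nonneg _)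

/-- **The main inequality.** A zero-one symmetric matrix with zero diagonal, the part `e` of its
spectral decomposition that belongs to the set `R` of eigenvalues of absolute value at most `L`; `s` is
minus the sum of these eigenvalues and `k` is the number of the others. -/
theorem core {A : Matrix n n ℝ} (hA : A.IsHermitian) (h01 : ∀ x y, A x y = 0 ∨ A x y = 1)
    (h0 : ∀ x, A x x = 0) (R : ℝ → Prop) [DecidablePred R] (L : ℝ) (hL : 0 ≤ L)
    (hRL : ∀ i, R (hA.eigenvalues i) → |hA.eigenvalues i| ≤ L) (s : ℝ)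
    (hs : s = - ∑ i, if R (hA.eigenvalues i) then hA.eigenvalues i else 0) (k : ℕ)
    (hk : (Finset.univ.filter (fun i => ¬ R (hA.eigenvalues i))).card = k)
    (hn : 0 < Fintype.card n) (hpos : 0 ≤ s ^ 2 / Fintype.card n - s) :
    (s ^ 2 / Fintype.card n - s) ^ 2 ≤
      (k ^ 2 + k : ℕ) * ((1 + L) ^ 2 * L ^ 2 * Fintype.card n) := by
  classical
  obtain ⟨U, hU1, hU2, hU3⟩ := diag_form hA
  set θ := hA.eigenvalues with hθ
  set e : n → n → ℝ := fun x y => ∑ i, (if R (θ i) then θ i else 0) * (U x i * U y i) with he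
  set a : n → n → ℝ := fun x y => ∑ i, (if R (θ i) then 0 else θ i) * (U x i * U y i) with ha
  have hae : ∀ x y, a x y = A x y - e x y := by
    intro x y
    rw [hU3 x y, ha, he]
    simp only
    rw [← Finset.sum_sub_distrib]
    refine Finset.sum_congr rfl fun i _ => ?_
    split_ifs <;> ring
  -- row norms
  have hrow : ∀ x, ∑ y, e x y ^ 2 = ∑ i, (if R (θ i) then θ i else 0) ^ 2 * (U x i) ^ 2 := by
    intro x
    have e1 : ∀ y, e x y ^ 2 = ∑ i, ∑ j, ((if R (θ i) then θ i else 0) * (if R (θ j) then θ j else 0) *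
        (U x i * U x j)) * (U y i * U y j) := by
      intro y
      rw [he]
      simp only
      rw [sq, Finset.sum_mul_sum]
      refine Finset.sum_congr rfl fun i _ => Finset.sum_congr rfl fun j _ => by ring
    calc ∑ y, e x y ^ 2 = ∑ y, ∑ i, ∑ j, ((if R (θ i) then θ i else 0) * (if R (θ j) then θ j else 0) *
        (U x i * U x j)) * (U y i * U y j) := Finset.sum_congr rfl fun y _ => e1 y
      _ = ∑ i, ∑ j, ∑ y, ((if R (θ i) then θ i else 0) * (if R (θ j) then θ j else 0) *
        (U x i * U x j)) * (U y i * U y j) := by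
          rw [Finset.sum_comm]
          refine Finset.sum_congr rfl fun i _ => ?_
          rw [Finset.sum_comm]
      _ = ∑ i, ∑ j, ((if R (θ i) then θ i else 0) * (if R (θ j) then θ j else 0) *
        (U x i * U x j)) * (∑ y, U y i * U y j) := by
          refine Finset.sum_congr rfl fun i _ => Finset.sum_congr rfl fun j _ => ?_
          rw [Finset.mul_sum]
      _ = _ := by
          refine Finset.sum_congr rfl fun i _ => ?_
          rw [Finset.sum_eq_single i]
          · rw [hU1, if_pos rfl]; ring
          · intro j _ hj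
            rw [hU1, if_neg (Ne.symm hj)]; ring
          · intro h; exact absurd (Finset.mem_univ i) h
  have hrowle : ∀ x, ∑ y, e x y ^ 2 ≤ L ^ 2 := by
    intro x
    rw [hrow x]
    have h1 : ∑ i, (U x i) ^ 2 = 1 := by
      have := hU2 x x
      simp only [if_true] at this
      rw [← this]
      exact Finset.sum_congr rfl fun i _ => sq _
    calc _ ≤ ∑ i, L ^ 2 * (U x i) ^ 2 := by
          refine Finset.sum_le_sum fun i _ => ?_
          refine mul_le_mul_of_nonneg_right ?_ (sq_nonneg _)
          split_ifs with h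
          · exact sq_le_sq' (by have := hRL i h; rw [abs_le] at this; linarith)
              (by have := hRL i h; rw [abs_le] at this; linarith)
          · nlinarith [sq_nonneg L]
      _ = L ^ 2 := by rw [← Finset.mul_sum, h1, mul_one]
  have hent : ∀ x y, |e x y| ≤ L := by
    intro x y
    have h1 : e x y ^ 2 ≤ L ^ 2 :=
      (Finset.single_le_sum (f := fun y => e x y ^ 2) (fun y _ => sq_nonneg _) (Finset.mem_univ y)).trans (hrowle x)
    exact abs_le_of_sq_le_sq h1 hL
  -- the matrix Q
  set Q : Matrix n n ℝ := Matrix.of fun x y => a x y ^ 2 - a x y with hQ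
  have hasym : ∀ x y, a x y = a y x := by
    intro x y
    rw [ha]
    simp only
    refine Finset.sum_congr rfl fun i _ => by ring
  have hQh : Q.IsHermitian := by
    ext x y
    simp only [Matrix.conjTranspose_apply, hQ, Matrix.of_apply, star_trivial]
    rw [hasym x y]
  have hQent : ∀ x y, Q x y ^ 2 ≤ (1 + L) ^ 2 * e x y ^ 2 := by
    intro x y
    have h1 : Q x y = a x y ^ 2 - a x y := rfl
    rw [h1, hae x y]
    have h2 := hent x y
    rw [abs_le] at h2
    rcases h01 x y with h | h
    · rw [h]
      have : (0 - e x y) ^ 2 - (0 - e x y) = e x y * (e x y + 1) := by ring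
      rw [this, mul_pow, mul_comm]
      refine mul_le_mul_of_nonneg_right ?_ (sq_nonneg _)
      nlinarith
    · rw [h]
      have : (1 - e x y) ^ 2 - (1 - e x y) = e x y * (e x y - 1) := by ring
      rw [this, mul_pow, mul_comm]
      refine mul_le_mul_of_nonneg_right ?_ (sq_nonneg _)
      nlinarith
  have hQF : ∑ x, ∑ y, Q x y ^ 2 ≤ (1 + L) ^ 2 * L ^ 2 * Fintype.card n := by
    calc ∑ x, ∑ y, Q x y ^ 2 ≤ ∑ x, ∑ y, (1 + L) ^ 2 * e x y ^ 2 :=
          Finset.sum_le_sum fun x _ => Finset.sum_le_sum fun y _ => hQent x y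
      _ = ∑ x, (1 + L) ^ 2 * ∑ y, e x y ^ 2 := Finset.sum_congr rfl fun x _ => (Finset.mul_sum _ _ _).symm
      _ ≤ ∑ _x : n, (1 + L) ^ 2 * L ^ 2 :=
          Finset.sum_le_sum fun x _ => mul_le_mul_of_nonneg_left (hrowle x) (sq_nonneg _)
      _ = _ := by rw [Finset.sum_const, Finset.card_univ, nsmul_eq_mul]; ring
  -- the rank of Q
  have hQr : Q.rank ≤ k ^ 2 + k := by
    let K := {i // ¬ R (θ i)}
    have hK : Fintype.card K = k := by
      rw [← hk, Fintype.card_subtype]
    have haK : ∀ x y, a x y = ∑ i : K, θ i.1 * (U x i.1 * U y i.1) := by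
      intro x y
      rw [ha]
      simp only
      rw [← Finset.sum_subtype (Finset.univ.filter (fun i => ¬ R (θ i)))
        (by intro i; simp) (fun i => θ i * (U x i * U y i)), Finset.sum_filter]
      refine Finset.sum_congr rfl fun i _ => ?_
      by_cases h : R (θ i) <;> simp [h]
    let B : Matrix n ((K × K) ⊕ K) ℝ := Matrix.of fun x c =>
      Sum.elim (fun p => (θ p.1.1 * U x p.1.1) * (θ p.2.1 * U x p.2.1)) (fun p => - (θ p.1 * U x p.1)) c
    let C : Matrix ((K × K) ⊕ K) n ℝ := Matrix.of fun c y =>
      Sum.elim (fun p => U y p.1.1 * U y p.2.1) (fun p => U y p.1) c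
    have hBC : Q = B * C := by
      ext x y
      rw [Matrix.mul_apply, Fintype.sum_sum_type, Fintype.sum_prod_type]
      have h1 : Q x y = a x y ^ 2 - a x y := rfl
      rw [h1, haK x y, sq, Finset.sum_mul_sum]
      rw [sub_eq_add_neg]
      congr 1
      · refine Finset.sum_congr rfl fun i _ => Finset.sum_congr rfl fun j _ => ?_
        simp only [B, C, Matrix.of_apply, Sum.elim_inl]
        ring
      · rw [← Finset.sum_neg_distrib]
        refine Finset.sum_congr rfl fun i _ => ?_
        simp only [B, C, Matrix.of_apply, Sum.elim_inr]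
        ring
    rw [hBC]
    refine (Matrix.rank_mul_le_left B C).trans ((Matrix.rank_le_card_width B).trans ?_)
    rw [Fintype.card_sum, Fintype.card_prod, hK, sq]
  -- the trace of Q
  have htra : ∑ x, a x x = s := by
    have h1 : ∀ x, a x x = - e x x := by intro x; rw [hae, h0]; ring
    rw [Finset.sum_congr rfl fun x _ => h1 x, Finset.sum_neg_distrib, hs]
    congr 1
    rw [he]
    simp only
    rw [Finset.sum_comm]
    refine Finset.sum_congr rfl fun i _ => ?_
    rw [← Finset.mul_sum, hU1]
    simp
  have hn' : (0 : ℝ) < Fintype.card n := by exact_mod_cast hn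
  have htrQ : s ^ 2 / Fintype.card n - s ≤ Q.trace := by
    have h1 : Q.trace = ∑ x, a x x ^ 2 - ∑ x, a x x := by
      rw [← Finset.sum_sub_distrib]; rfl
    rw [h1, htra]
    have h2 : s ^ 2 ≤ Fintype.card n * ∑ x, a x x ^ 2 := by
      rw [← htra]
      have := sq_sum_le_card_mul_sum_sq (s := (Finset.univ : Finset n)) (f := fun x => a x x)
      simpa using this
    have h3 : s ^ 2 / Fintype.card n ≤ ∑ x, a x x ^ 2 := by
      rw [div_le_iff₀ hn']; linarith
    linarith
  calc (s ^ 2 / Fintype.card n - s) ^ 2 ≤ Q.trace ^ 2 := by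
        apply pow_le_pow_left₀ hpos htrQ
    _ ≤ Q.rank * ∑ x, ∑ y, Q x y ^ 2 := trace_sq_le hQh
    _ ≤ (k ^ 2 + k : ℕ) * ((1 + L) ^ 2 * L ^ 2 * Fintype.card n) := by
        apply mul_le_mul _ hQF _ (by positivity)
        · exact_mod_cast hQr
        · exact Finset.sum_nonneg fun x _ => Finset.sum_nonneg fun y _ => sq_nonneg _

end Pool.Agent.Q95.EigMult
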