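import Pool.Agent.Q95.EigMult

set_option autoImplicit false

namespace Pool.Agent.Q95.EigMult

open Matrix Finset Polynomial

variable {n : Type*} [Fintype n] [DecidableEq n]

/-- conjugate numbers have the same multiplicity as eigenvalues of a rational symmetric matrix -/
theorem count_eq {A : Matrix n n ℝ} (hA : A.IsHermitian) (AQ : Matrix n n ℚ)
    (hAQ : AQ.map (algebraMap ℚ ℝ) = A) {μ : ℚ[X]} (hμ : Irreducible μ) (hmon : μ.Monic) :
    ∃ N : ℕ, (∀ ρ : ℝ, aeval ρ μ = 0 → (univ.filter fun i => hA.eigenvalues i = ρ).card = N) ∧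
      (0 < N → (μ.map (algebraMap ℚ ℝ)).Splits) := by
  classical
  have hf0 : AQ.charpoly ≠ 0 := AQ.charpoly_monic.ne_zero
  have hfin := finiteMultiplicity_of_degree_pos_of_monic (degree_pos_of_irreducible hμ) hmon hf0
  obtain ⟨g, hg, hng⟩ := hfin.exists_eq_pow_mul_and_not_dvd
  set N := multiplicity μ AQ.charpoly with hN
  have hF : AQ.charpoly.map (algebraMap ℚ ℝ) = A.charpoly := by
    rw [← hAQ]
    exact (Matrix.charpoly_map AQ (algebraMap ℚ ℝ)).symm
  have hroots : A.charpoly.roots = Multiset.map hA.eigenvalues Finset.univ.val := by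
    have := hA.roots_charpoly_eq_eigenvalues
    simpa using this
  have hg0 : g ≠ 0 := by
    rintro rfl
    exact hng (dvd_zero _)
  have hprod : A.charpoly = (μ.map (algebraMap ℚ ℝ)) ^ N * g.map (algebraMap ℚ ℝ) := by
    rw [← hF, hg, Polynomial.map_mul, Polynomial.map_pow]
  have hA0 : A.charpoly ≠ 0 := A.charpoly_monic.ne_zero
  refine ⟨N, ?_, ?_⟩
  · intro ρ hρ
    have h1 : (univ.filter fun i => hA.eigenvalues i = ρ).card = A.charpoly.roots.count ρ := by
      rw [hroots, Multiset.count_map]
      rw [Finset.card_def, Finset.filter_val]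
      congr 1
      refine Multiset.filter_congr fun x _ => ?_
      exact eq_comm
    rw [h1, hprod, roots_mul (by rw [← hprod]; exact hA0), Polynomial.roots_pow, Multiset.count_add,
      Multiset.count_nsmul]
    have h2 : (g.map (algebraMap ℚ ℝ)).roots.count ρ = 0 := by
      rw [Multiset.count_eq_zero]
      intro h
      have h3 := (Polynomial.mem_roots'.1 h).2
      rw [IsRoot.def, eval_map_algebraMap] at h3
      have h4 : μ = minpoly ℚ ρ := minpoly.eq_of_irreducible_of_monic hμ hρ hmon
      exact hng (h4 ▸ minpoly.dvd ℚ ρ h3)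
    have h5 : (μ.map (algebraMap ℚ ℝ)).roots.count ρ = 1 := by
      rw [Multiset.count_eq_one_of_mem]
      · exact nodup_roots (hμ.separable.map)
      · rw [Polynomial.mem_roots']
        refine ⟨Polynomial.map_ne_zero hμ.ne_zero, ?_⟩
        rw [IsRoot.def, eval_map_algebraMap]
        exact hρ
    rw [h2, h5]
    simp
  · intro hNpos
    refine Splits.of_dvd hA.splits_charpoly hA0 ?_
    rw [hprod]
    exact (dvd_pow_self _ hNpos.ne').mul_right _

/-- geometric multiplicity = number of eigenvalues -/
theorem finrank_eigenspace {A : Matrix n n ℝ} (hA : A.IsHermitian) (lam : ℝ) :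
    Module.finrank ℝ (Module.End.eigenspace (Matrix.toLin' A) lam) =
      (univ.filter fun i => hA.eigenvalues i = lam).card := by
  classical
  have h1 : (A - lam • (1 : Matrix n n ℝ)).rank = (univ.filter fun i => hA.eigenvalues i ≠ lam).card := by
    have h2 : A - lam • (1 : Matrix n n ℝ) =
        Unitary.conjStarAlgAut ℝ _ hA.eigenvectorUnitary
          (diagonal (fun i => hA.eigenvalues i - lam)) := by
      have h3 : (diagonal (fun i => hA.eigenvalues i - lam) : Matrix n n ℝ) =
          diagonal (RCLike.ofReal ∘ hA.eigenvalues) - lam • (1 : Matrix n n ℝ) := by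
        ext i j
        by_cases h : i = j
        · subst h; simp
        · simp [h]
      rw [h3, map_sub, map_smul, map_one, ← hA.spectral_theorem]
    rw [h2, Unitary.conjStarAlgAut_apply, ← Unitary.coe_star]
    have h4 : ((hA.eigenvectorUnitary : Matrix n n ℝ) * diagonal (fun i => hA.eigenvalues i - lam) *
        ((star hA.eigenvectorUnitary : Matrix.unitaryGroup n ℝ) : Matrix n n ℝ)).rank =
        (diagonal (fun i => hA.eigenvalues i - lam)).rank := by
      simp [-isUnit_iff_ne_zero, -Unitary.coe_star]
    rw [h4, Matrix.rank_diagonal, Fintype.card_subtype]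
    congr 1
    ext i
    simp [sub_eq_zero]
  have h5 : Module.End.eigenspace (Matrix.toLin' A) lam =
      LinearMap.ker (Matrix.toLin' (A - lam • (1 : Matrix n n ℝ))) := by
    rw [Module.End.eigenspace_def]
    congr 1
    rw [map_sub, map_smul, Matrix.toLin'_one]
    rfl
  rw [h5]
  have h6 := LinearMap.finrank_range_add_finrank_ker (Matrix.toLin' (A - lam • (1 : Matrix n n ℝ)))
  have h7 : Module.finrank ℝ (LinearMap.range (Matrix.toLin' (A - lam • (1 : Matrix n n ℝ)))) =
      (A - lam • (1 : Matrix n n ℝ)).rank := by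
    rw [Matrix.rank_eq_finrank_range_toLin _ (Pi.basisFun ℝ n) (Pi.basisFun ℝ n), Matrix.toLin_eq_toLin']
  rw [h7, h1, Module.finrank_fintype_fun_eq_card] at h6
  have h8 := Finset.card_filter_add_card_filter_not (s := (univ : Finset n)) (fun i => hA.eigenvalues i = lam)
  rw [Finset.card_univ] at h8
  have h9 : (univ.filter fun i => ¬ hA.eigenvalues i = lam).card =
      (univ.filter fun i => hA.eigenvalues i ≠ lam).card := rfl
  omega

end Pool.Agent.Q95.EigMult
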