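import Pool.Agent.Q95.EigMult2

set_option autoImplicit false

namespace Pool.Agent.Q95.EigMult

open Matrix Finset Polynomial

/-- The key inequality for one zero-one symmetric matrix. -/
theorem one_matrix {n : Type*} [Fintype n] [DecidableEq n] {A : Matrix n n ℝ} (hA : A.IsHermitian)
    (h01 : ∀ x y, A x y = 0 ∨ A x y = 1) (h0 : ∀ x, A x x = 0) (AQ : Matrix n n ℚ)
    (hAQ : AQ.map (algebraMap ℚ ℝ) = A) {lam : ℝ} (hint : IsIntegral ℚ lam)
    (hn : 0 < Fintype.card n) :
    let N := Module.finrank ℝ (Module.End.eigenspace (Matrix.toLin' A) lam)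
    let d := (minpoly ℚ lam).natDegree
    let t : ℝ := ((-(minpoly ℚ lam).nextCoeff : ℚ) : ℝ)
    let L : ℝ := ∑ ρ ∈ ((minpoly ℚ lam).map (algebraMap ℚ ℝ)).roots.toFinset, |ρ|
    0 < N → d * N ≤ Fintype.card n ∧
      (0 ≤ (N * t) ^ 2 / Fintype.card n + N * t →
        ((N * t) ^ 2 / Fintype.card n + N * t) ^ 2 ≤
          (((Fintype.card n - d * N : ℕ) ^ 2 + (Fintype.card n - d * N : ℕ) : ℕ) : ℝ) *
            ((1 + L) ^ 2 * L ^ 2 * Fintype.card n)) := by
  classical
  intro N d t L hN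
  have hirr : Irreducible (minpoly ℚ lam) := minpoly.irreducible hint
  have hmon : (minpoly ℚ lam).Monic := minpoly.monic hint
  obtain ⟨M, hM1, hM2⟩ := count_eq hA AQ hAQ hirr hmon
  have hNM : N = M := by
    have h1 := finrank_eigenspace hA lam
    have h2 := hM1 lam (minpoly.aeval ℚ lam)
    exact h1.trans h2
  have hsp := hM2 (hNM ▸ hN)
  set μR := (minpoly ℚ lam).map (algebraMap ℚ ℝ) with hμR
  have hnd : μR.roots.Nodup := nodup_roots (hirr.separable.map)
  have hmonR : μR.Monic := hmon.map _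
  have hμ0 : μR ≠ 0 := hmonR.ne_zero
  set T := μR.roots.toFinset with hT
  have hTcard : T.card = d := by
    rw [hT, Multiset.toFinset_card_of_nodup hnd]
    have := splits_iff_card_roots.1 hsp
    rw [this, hμR, natDegree_map]
  have hTsum : ∑ ρ ∈ T, ρ = t := by
    have h1 : ∑ ρ ∈ T, ρ = μR.roots.sum := by
      rw [hT, Finset.sum_multiset_count]
      refine Finset.sum_congr rfl fun ρ hρ => ?_
      rw [Multiset.count_eq_one_of_mem hnd (Multiset.mem_toFinset.1 hρ), one_smul]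
    have h2 := hsp.nextCoeff_eq_neg_sum_roots_of_monic hmonR
    have h3 : μR.nextCoeff = algebraMap ℚ ℝ (minpoly ℚ lam).nextCoeff := by
      rw [hμR, nextCoeff_map_eq]
    rw [h1]
    have h4 : t = - algebraMap ℚ ℝ (minpoly ℚ lam).nextCoeff := by
      simp [t]
    rw [h4, ← h3, h2, neg_neg]
  have hTmem : ∀ ρ : ℝ, ρ ∈ T ↔ aeval ρ (minpoly ℚ lam) = 0 := by
    intro ρ
    rw [hT, Multiset.mem_toFinset, Polynomial.mem_roots hμ0, IsRoot.def, hμR, eval_map_algebraMap]
  set θ := hA.eigenvalues with hθ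
  have hfib : ∀ ρ ∈ T, (univ.filter fun i => θ i = ρ).card = N := by
    intro ρ hρ
    rw [hNM]
    exact hM1 ρ ((hTmem ρ).1 hρ)
  -- number and sum of the eigenvalues in `T`
  have hcardT : (univ.filter fun i => θ i ∈ T).card = d * N := by
    have h1 : (univ.filter fun i => θ i ∈ T).card =
        ∑ ρ ∈ T, ((univ.filter fun i => θ i ∈ T).filter fun i => θ i = ρ).card :=
      Finset.card_eq_sum_card_fiberwise (fun i hi => by simpa using hi)
    rw [h1]
    have h2 : ∀ ρ ∈ T, ((univ.filter fun i => θ i ∈ T).filter fun i => θ i = ρ).card = N := by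
      intro ρ hρ
      rw [← hfib ρ hρ]
      congr 1
      ext i
      simp only [mem_filter, mem_univ, true_and]
      constructor
      · rintro ⟨_, h⟩; exact h
      · intro h; exact ⟨h ▸ hρ, h⟩
    rw [Finset.sum_congr rfl h2, Finset.sum_const, hTcard, smul_eq_mul]
  have hsumT : ∑ i, (if θ i ∈ T then θ i else 0) = N * t := by
    rw [← Finset.sum_filter]
    rw [← Finset.sum_fiberwise_of_maps_to (s := univ.filter fun i => θ i ∈ T) (t := T) (g := θ)
      (fun i hi => by simpa using hi) (fun i => θ i)]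
    have h2 : ∀ ρ ∈ T, ∑ i ∈ (univ.filter fun i => θ i ∈ T).filter (fun i => θ i = ρ), θ i = N * ρ := by
      intro ρ hρ
      have h3 : ((univ.filter fun i => θ i ∈ T).filter fun i => θ i = ρ) = univ.filter fun i => θ i = ρ := by
        ext i
        simp only [mem_filter, mem_univ, true_and]
        constructor
        · rintro ⟨_, h⟩; exact h
        · intro h; exact ⟨h ▸ hρ, h⟩
      rw [h3]
      have h4 : ∑ i ∈ univ.filter (fun i => θ i = ρ), θ i = ∑ i ∈ univ.filter (fun i => θ i = ρ), ρ :=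
        Finset.sum_congr rfl fun i hi => (mem_filter.1 hi).2
      rw [h4, Finset.sum_const, hfib ρ hρ, nsmul_eq_mul]
    rw [Finset.sum_congr rfl h2, ← Finset.mul_sum, hTsum]
  have hsplit := Finset.card_filter_add_card_filter_not (s := (univ : Finset n)) (fun i => θ i ∈ T)
  rw [hcardT, Finset.card_univ] at hsplit
  refine ⟨by omega, ?_⟩
  intro hpos
  have hL0 : 0 ≤ L := Finset.sum_nonneg fun _ _ => abs_nonneg _
  have hk' : (univ.filter fun i => ¬ (θ i ∈ T)).card = Fintype.card n - d * N := by omega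
  have key := core hA h01 h0 (fun x => x ∈ T) L hL0
    (fun i hi => Finset.single_le_sum (f := fun ρ : ℝ => |ρ|) (fun _ _ => abs_nonneg _) hi)
    (-(N * t)) (by rw [← hsumT]) (Fintype.card n - d * N) hk' hn
    (by
      have : (-(N * t)) ^ 2 / Fintype.card n - -(N * t) = (N * t) ^ 2 / Fintype.card n + N * t := by ring
      rw [this]; exact hpos)
  have e1 : (-(N * t)) ^ 2 / Fintype.card n - -(N * t) = (N * t) ^ 2 / Fintype.card n + N * t := by ring
  rw [e1] at key
  exact key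

/-- From the key inequality to the bound. -/
theorem numerics {d : ℕ} (hd : 0 < d) {t L η β : ℝ} (hη : 0 < η) (hβ : 0 < β)
    (hηβ : ∀ x : ℝ, (1 - η) / d ≤ x → x ≤ 1 / d → β ≤ (x * t) ^ 2 + x * t) :
    ∃ c : ℝ, 0 < c ∧ ∃ n₀ : ℕ, ∀ n : ℕ, n₀ ≤ n → ∀ N : ℕ,
      (0 < N → d * N ≤ n ∧ (0 ≤ (N * t) ^ 2 / n + N * t →
        ((N * t) ^ 2 / n + N * t) ^ 2 ≤
          (((n - d * N : ℕ) ^ 2 + (n - d * N : ℕ) : ℕ) : ℝ) * ((1 + L) ^ 2 * L ^ 2 * n))) →
      (N : ℝ) ≤ n / d - c * √n := by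
  have hd' : (0 : ℝ) < d := by exact_mod_cast hd
  set C : ℝ := (1 + L) ^ 2 * L ^ 2 + 1 with hC
  have hC0 : 0 < C := by positivity
  set κ : ℝ := β ^ 2 / (2 * C) with hκ
  have hκ0 : 0 < κ := by positivity
  set c : ℝ := min (√κ / d) (min (η / d) (1 / d)) with hc
  have hc0 : 0 < c := by
    rw [hc]
    refine lt_min ?_ (lt_min ?_ ?_)
    · have := Real.sqrt_pos.2 hκ0; positivity
    · positivity
    · positivity
  refine ⟨c, hc0, 1, ?_⟩
  intro n hn N h
  have hn1 : (1 : ℝ) ≤ n := by exact_mod_cast hn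
  have hn0 : (0 : ℝ) < n := by linarith
  have hs1 : 1 ≤ √(n : ℝ) := Real.one_le_sqrt.2 hn1
  have hs2 : √(n : ℝ) * √(n : ℝ) = n := Real.mul_self_sqrt hn0.le
  have hs3 : √(n : ℝ) ≤ n := by nlinarith
  have hcη : c * √(n : ℝ) ≤ η / d * n := by
    have h1 : c ≤ η / d := (min_le_right _ _).trans (min_le_left _ _)
    exact mul_le_mul h1 hs3 (by positivity) (by positivity)
  have hc1 : c * √(n : ℝ) ≤ n / d := by
    have h1 : c ≤ 1 / d := (min_le_right _ _).trans (min_le_right _ _)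
    calc c * √(n : ℝ) ≤ 1 / d * n := mul_le_mul h1 hs3 (by positivity) (by positivity)
      _ = n / d := by ring
  rcases Nat.eq_zero_or_pos N with h0 | hpos
  · rw [h0]
    push_cast
    linarith
  obtain ⟨hdN, hkey⟩ := h hpos
  by_cases hlow : (N : ℝ) < (1 - η) / d * n
  · have : (1 - η) / d * n = n / d - η / d * n := by ring
    linarith
  push Not at hlow
  have hx1 : (1 - η) / d ≤ (N : ℝ) / n := by
    rw [le_div_iff₀ hn0]; exact hlow
  have hx2 : (N : ℝ) / n ≤ 1 / d := by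
    rw [div_le_div_iff₀ hn0 hd']
    have : ((d * N : ℕ) : ℝ) ≤ n := by exact_mod_cast hdN
    push_cast at this
    linarith
  have hb := hηβ _ hx1 hx2
  have e1 : (N * t) ^ 2 / n + N * t = n * (((N : ℝ) / n * t) ^ 2 + (N : ℝ) / n * t) := by
    field_simp
  have hb2 : n * β ≤ (N * t) ^ 2 / n + N * t := by
    rw [e1]
    exact mul_le_mul_of_nonneg_left hb hn0.le
  have hk := hkey (le_trans (by positivity) hb2)
  have hk2 : (n * β) ^ 2 ≤ (((n - d * N : ℕ) ^ 2 + (n - d * N : ℕ) : ℕ) : ℝ) * (C * n) := by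
    refine (pow_le_pow_left₀ (by positivity) hb2 2).trans (hk.trans ?_)
    refine mul_le_mul_of_nonneg_left ?_ (by positivity)
    refine mul_le_mul_of_nonneg_right ?_ hn0.le
    rw [hC]; linarith
  set k : ℕ := n - d * N with hkdef
  have hkk : ((k ^ 2 + k : ℕ) : ℝ) ≤ 2 * (k : ℝ) ^ 2 := by
    have : k ≤ k ^ 2 := Nat.le_self_pow (by norm_num) k
    have h2 : k ^ 2 + k ≤ 2 * k ^ 2 := by omega
    exact_mod_cast h2
  have h3 : κ * n ≤ (k : ℝ) ^ 2 := by
    have h4 : (n * β) ^ 2 ≤ 2 * (k : ℝ) ^ 2 * (C * n) :=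
      hk2.trans (mul_le_mul_of_nonneg_right hkk (by positivity))
    have h5 : n * β ^ 2 ≤ 2 * (k : ℝ) ^ 2 * C := by
      have : n * (n * β ^ 2) ≤ n * (2 * (k : ℝ) ^ 2 * C) := by nlinarith
      exact le_of_mul_le_mul_left this hn0
    rw [hκ, div_mul_eq_mul_div, div_le_iff₀ (by positivity)]
    nlinarith
  have h6 : √κ * √(n : ℝ) ≤ k := by
    rw [← Real.sqrt_mul hκ0.le]
    exact Real.sqrt_le_iff.2 ⟨by positivity, h3⟩
  have h7 : (d : ℝ) * N + k = n := by
    have : d * N + k = n := by omega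
    exact_mod_cast this
  have h8 : (N : ℝ) = n / d - k / d := by
    field_simp
    linarith
  rw [h8]
  have h9 : c * √(n : ℝ) ≤ k / d := by
    have h1 : c ≤ √κ / d := min_le_left _ _
    calc c * √(n : ℝ) ≤ √κ / d * √(n : ℝ) := mul_le_mul_of_nonneg_right h1 (Real.sqrt_nonneg _)
      _ = √κ * √(n : ℝ) / d := by ring
      _ ≤ k / d := div_le_div_of_nonneg_right h6 hd'.le
  linarith

end Pool.Agent.Q95.EigMult
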