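import Mathlib

set_option autoImplicit false

namespace Pool.Agent.Q95.FreeCopy

open Finset

/-- first moment: some disjoint map has no free set of size `t` -/
theorem exists_bad (N t : ℕ) (hN : 4 ≤ N) (_ht : 2 ≤ t) (p : ℝ)
    (hp : p * ((N - 2).choose 2 : ℝ) = ((t - 2).choose 2 : ℝ)) (hp0 : p ≤ 1)
    (h : (N : ℝ) ^ t * (1 - p) ^ (t.choose 2) < 1) :
    ∃ f : Finset (Fin N) → Finset (Fin N), (∀ e, e.card = 2 → (f e).card = 2 ∧ Disjoint e (f e)) ∧
      ∀ S : Finset (Fin N), S.card = t → ∃ e, e.card = 2 ∧ e ⊆ S ∧ f e ⊆ S := by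
  classical
  set B : Finset (Fin N) → Finset (Finset (Fin N)) := fun e =>
    if e.card = 2 then powersetCard 2 (univ \ e) else {∅} with hB
  set A : Finset (Fin N) → Finset (Fin N) → Finset (Finset (Fin N)) := fun S e =>
    if e ∈ powersetCard 2 S then (powersetCard 2 (univ \ e)).filter (fun x => ¬ x ⊆ S) else B e with hA
  have hBcard : ∀ e : Finset (Fin N), e.card = 2 → (B e).card = (N - 2).choose 2 := by
    intro e he
    simp only [hB, he, if_true]
    rw [card_powersetCard, card_sdiff_of_subset (subset_univ e), card_univ, Fintype.card_fin, he]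
  have hBpos : ∀ e, 0 < (B e).card := by
    intro e
    by_cases he : e.card = 2
    · rw [hBcard e he]
      exact Nat.choose_pos (by omega)
    · simp [hB, he]
  have hAcard : ∀ S : Finset (Fin N), S.card = t → ∀ e, ((A S e).card : ℝ) =
      (B e).card * (if e ∈ powersetCard 2 S then (1 - p) else 1) := by
    intro S hS e
    by_cases he : e ∈ powersetCard 2 S
    · obtain ⟨he1, he2⟩ := mem_powersetCard.1 he
      simp only [hA, he, if_true]
      rw [hBcard e he2]
      have h1 := card_filter_add_card_filter_not (s := powersetCard 2 (univ \ e)) (fun x => x ⊆ S)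
      have h2 : (powersetCard 2 (univ \ e)).filter (fun x => x ⊆ S) = powersetCard 2 (S \ e) := by
        ext x
        simp only [mem_filter, mem_powersetCard]
        constructor
        · rintro ⟨⟨h3, h4⟩, h5⟩
          refine ⟨?_, h4⟩
          intro y hy
          rw [mem_sdiff]
          exact ⟨h5 hy, (mem_sdiff.1 (h3 hy)).2⟩
        · rintro ⟨h3, h4⟩
          refine ⟨⟨?_, h4⟩, ?_⟩
          · intro y hy
            rw [mem_sdiff]
            exact ⟨mem_univ y, (mem_sdiff.1 (h3 hy)).2⟩
          · intro y hy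
            exact (mem_sdiff.1 (h3 hy)).1
      rw [h2, card_powersetCard, card_powersetCard, card_sdiff_of_subset he1,
        card_sdiff_of_subset (subset_univ e), card_univ, Fintype.card_fin, he2, hS] at h1
      have h3 : ((t - 2).choose 2 : ℝ) + (((powersetCard 2 (univ \ e)).filter (fun x => ¬ x ⊆ S)).card : ℝ) =
          ((N - 2).choose 2 : ℝ) := by exact_mod_cast h1
      rw [← hp] at h3
      linarith
    · simp only [hA, if_neg he, mul_one]
  -- total number
  have htot : ∀ S : Finset (Fin N), S.card = t →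
      ((Fintype.piFinset (A S)).card : ℝ) = (Fintype.piFinset B).card * (1 - p) ^ (t.choose 2) := by
    intro S hS
    rw [Fintype.card_piFinset, Fintype.card_piFinset]
    push_cast
    rw [Finset.prod_congr rfl fun e _ => hAcard S hS e, Finset.prod_mul_distrib]
    congr 1
    rw [Finset.prod_ite, Finset.prod_const, Finset.prod_const_one, mul_one]
    congr 1
    rw [← hS, ← card_powersetCard]
    congr 1
    ext e
    simp
  have hpos : (0 : ℝ) < (Fintype.piFinset B).card := by
    rw [Fintype.card_piFinset]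
    push_cast
    exact Finset.prod_pos fun e _ => by exact_mod_cast hBpos e
  by_contra hcon
  push Not at hcon
  have hsub : Fintype.piFinset B ⊆ (powersetCard t (univ : Finset (Fin N))).biUnion
      (fun S => Fintype.piFinset (A S)) := by
    intro f hf
    rw [Fintype.mem_piFinset] at hf
    have h1 : ∀ e : Finset (Fin N), e.card = 2 → (f e).card = 2 ∧ Disjoint e (f e) := by
      intro e he
      have := hf e
      simp only [hB, he, if_true, mem_powersetCard] at this
      refine ⟨this.2, ?_⟩
      rw [Finset.disjoint_left]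
      intro x hx hx2
      exact (mem_sdiff.1 (this.1 hx2)).2 hx
    obtain ⟨S, hS, hS2⟩ := hcon f h1
    rw [mem_biUnion]
    refine ⟨S, by simp [hS], ?_⟩
    rw [Fintype.mem_piFinset]
    intro e
    by_cases he : e ∈ powersetCard 2 S
    · obtain ⟨he1, he2⟩ := mem_powersetCard.1 he
      simp only [hA, he, if_true, mem_filter]
      have h2 := hf e
      simp only [hB, he2, if_true] at h2
      exact ⟨h2, hS2 e he2 he1⟩
    · simp only [hA, he, if_false]
      exact hf e
  have h1 : ((Fintype.piFinset B).card : ℝ) ≤ ∑ S ∈ powersetCard t (univ : Finset (Fin N)),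
      ((Fintype.piFinset (A S)).card : ℝ) := by
    exact_mod_cast (card_le_card hsub).trans card_biUnion_le
  have h2 : ∑ S ∈ powersetCard t (univ : Finset (Fin N)), ((Fintype.piFinset (A S)).card : ℝ) =
      (N.choose t : ℝ) * ((Fintype.piFinset B).card * (1 - p) ^ (t.choose 2)) := by
    rw [Finset.sum_congr rfl fun S hS => htot S (mem_powersetCard.1 hS).2, Finset.sum_const,
      card_powersetCard, card_univ, Fintype.card_fin, nsmul_eq_mul]
  rw [h2] at h1
  have h3 : (N.choose t : ℝ) ≤ (N : ℝ) ^ t := by exact_mod_cast Nat.choose_le_pow N t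
  have hq : 0 ≤ (1 - p) ^ (t.choose 2) := pow_nonneg (by linarith) _
  have h4 : (N.choose t : ℝ) * ((Fintype.piFinset B).card * (1 - p) ^ (t.choose 2)) ≤
      (Fintype.piFinset B).card * ((N : ℝ) ^ t * (1 - p) ^ (t.choose 2)) := by
    have := mul_le_mul_of_nonneg_right h3 (mul_nonneg hpos.le hq)
    linarith
  have h5 : (Fintype.piFinset B).card * ((N : ℝ) ^ t * (1 - p) ^ (t.choose 2)) <
      (Fintype.piFinset B).card * 1 := mul_lt_mul_of_pos_left h hpos
  linarith

/-- existence of free sets for large `N` -/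
theorem exists_free (n : ℕ) (hn : 4 ≤ n) :
    ∀ f : Finset (Fin (8 * n ^ 2)) → Finset (Fin (8 * n ^ 2)),
      (∀ e, e.card = 2 → (f e).card = 2 ∧ Disjoint e (f e)) →
      ∃ S : Finset (Fin (8 * n ^ 2)), S.card = n ∧ ∀ e, e.card = 2 → e ⊆ S → ¬ f e ⊆ S := by
  classical
  obtain ⟨k, rfl⟩ : ∃ k, n = k + 4 := ⟨n - 4, by omega⟩
  obtain ⟨N, hNdef⟩ : ∃ N, N = 8 * (k + 4) ^ 2 := ⟨_, rfl⟩
  rw [← hNdef]
  intro f hf
  by_contra hcon
  push Not at hcon
  have hNk : 2 * (k + 4) ≤ N := by rw [hNdef]; nlinarith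
  have hsub : powersetCard (k + 4) (univ : Finset (Fin N)) ⊆
      (powersetCard 2 (univ : Finset (Fin N))).biUnion
        (fun e => (powersetCard k (univ : Finset (Fin N))).image (fun R => R ∪ (e ∪ f e))) := by
    intro S hS
    obtain ⟨_, hS⟩ := mem_powersetCard.1 hS
    obtain ⟨e, he, heS, hfe⟩ := hcon S hS
    rw [mem_biUnion]
    refine ⟨e, by simp [he], ?_⟩
    rw [mem_image]
    have hu : e ∪ f e ⊆ S := union_subset heS hfe
    have hcard : (e ∪ f e).card = 4 := by
      rw [card_union_of_disjoint (hf e he).2, he, (hf e he).1]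
    refine ⟨S \ (e ∪ f e), ?_, ?_⟩
    · rw [mem_powersetCard]
      refine ⟨subset_univ _, ?_⟩
      rw [card_sdiff_of_subset hu, hS, hcard]
      omega
    · exact sdiff_union_of_subset hu
  have h1 : N.choose (k + 4) ≤ N.choose 2 * N.choose k := by
    have h2 := (card_le_card hsub).trans card_biUnion_le
    rw [card_powersetCard, card_univ, Fintype.card_fin] at h2
    refine h2.trans ?_
    refine (sum_le_card_nsmul _ _ (N.choose k) ?_).trans ?_
    · intro e _
      refine card_image_le.trans ?_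
      rw [card_powersetCard, card_univ, Fintype.card_fin]
    · rw [card_powersetCard, card_univ, Fintype.card_fin, smul_eq_mul]
  -- comparison
  have e1 := Nat.choose_succ_right_eq N k
  have e2 := Nat.choose_succ_right_eq N (k + 1)
  have e3 := Nat.choose_succ_right_eq N (k + 2)
  have e4 := Nat.choose_succ_right_eq N (k + 3)
  have hC : 0 < N.choose k := Nat.choose_pos (by omega)
  have h5 : N.choose (k + 4) * ((k + 1) * (k + 2) * (k + 3) * (k + 4)) =
      N.choose k * ((N - k) * (N - (k + 1)) * (N - (k + 2)) * (N - (k + 3))) := by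
    calc N.choose (k + 4) * ((k + 1) * (k + 2) * (k + 3) * (k + 4))
        = (N.choose (k + 3 + 1) * (k + 3 + 1)) * ((k + 1) * (k + 2) * (k + 3)) := by ring
      _ = (N.choose (k + 3) * (N - (k + 3))) * ((k + 1) * (k + 2) * (k + 3)) := by rw [e4]
      _ = (N.choose (k + 2 + 1) * (k + 2 + 1)) * ((N - (k + 3)) * ((k + 1) * (k + 2))) := by ring
      _ = (N.choose (k + 2) * (N - (k + 2))) * ((N - (k + 3)) * ((k + 1) * (k + 2))) := by rw [e3]
      _ = (N.choose (k + 1 + 1) * (k + 1 + 1)) * ((N - (k + 2)) * (N - (k + 3)) * (k + 1)) := by ring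
      _ = (N.choose (k + 1) * (N - (k + 1))) * ((N - (k + 2)) * (N - (k + 3)) * (k + 1)) := by rw [e2]
      _ = (N.choose (k + 1) * (k + 1)) * ((N - (k + 1)) * (N - (k + 2)) * (N - (k + 3))) := by ring
      _ = (N.choose k * (N - k)) * ((N - (k + 1)) * (N - (k + 2)) * (N - (k + 3))) := by rw [e1]
      _ = _ := by ring
  obtain ⟨y, hy⟩ : ∃ y, N = 2 * y := ⟨4 * (k + 4) ^ 2, by rw [hNdef]; ring⟩
  have hyk : k + 4 ≤ y := by omega
  have hy2 : y = 4 * (k + 4) ^ 2 := by omega
  have h6 : y * y * y * y ≤ (N - k) * (N - (k + 1)) * (N - (k + 2)) * (N - (k + 3)) :=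
    Nat.mul_le_mul (Nat.mul_le_mul (Nat.mul_le_mul (by omega) (by omega)) (by omega)) (by omega)
  have h7 : (k + 1) * (k + 2) * (k + 3) * (k + 4) ≤ (k + 4) * (k + 4) * (k + 4) * (k + 4) :=
    Nat.mul_le_mul (Nat.mul_le_mul (Nat.mul_le_mul (by omega) (by omega)) (by omega)) le_rfl
  have h8 : N.choose 2 < N * N := by
    rw [Nat.choose_two_right]
    have h9 : N * (N - 1) / 2 ≤ N * (N - 1) := Nat.div_le_self _ _
    have h10 : N * (N - 1) < N * N := Nat.mul_lt_mul_of_pos_left (by omega) (by omega)
    omega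
  have h11 : N.choose k * (y * y * y * y) ≤ N.choose 2 * N.choose k * ((k + 4) * (k + 4) * (k + 4) * (k + 4)) := by
    calc N.choose k * (y * y * y * y) ≤ N.choose k * ((N - k) * (N - (k + 1)) * (N - (k + 2)) * (N - (k + 3))) :=
          Nat.mul_le_mul_left _ h6
      _ = N.choose (k + 4) * ((k + 1) * (k + 2) * (k + 3) * (k + 4)) := h5.symm
      _ ≤ _ := Nat.mul_le_mul h1 h7
  have h12 : N.choose 2 * N.choose k * ((k + 4) * (k + 4) * (k + 4) * (k + 4)) <
      N.choose k * (y * y * y * y) := by
    have h13 : N.choose 2 * ((k + 4) * (k + 4) * (k + 4) * (k + 4)) < N * N * ((k + 4) * (k + 4) * (k + 4) * (k + 4)) :=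
      Nat.mul_lt_mul_of_pos_right h8 (by positivity)
    have h14 : N * N * ((k + 4) * (k + 4) * (k + 4) * (k + 4)) ≤ y * y * y * y := by
      have h15 : y * y = 16 * ((k + 4) * (k + 4) * (k + 4) * (k + 4)) := by rw [hy2]; ring
      rw [hy]
      calc 2 * y * (2 * y) * ((k + 4) * (k + 4) * (k + 4) * (k + 4)) =
          (y * y) * (4 * ((k + 4) * (k + 4) * (k + 4) * (k + 4))) := by ring
        _ ≤ (y * y) * (16 * ((k + 4) * (k + 4) * (k + 4) * (k + 4))) := Nat.mul_le_mul_left _ (by omega)
        _ = (y * y) * (y * y) := by rw [h15]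
        _ = y * y * y * y := by ring
    calc N.choose 2 * N.choose k * ((k + 4) * (k + 4) * (k + 4) * (k + 4))
        = N.choose k * (N.choose 2 * ((k + 4) * (k + 4) * (k + 4) * (k + 4))) := by ring
      _ < N.choose k * (y * y * y * y) := Nat.mul_lt_mul_of_pos_left (h13.trans_le h14) hC
  omega

end Pool.Agent.Q95.FreeCopy
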