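import Pool.Agent.Q95.FreeCopy

set_option autoImplicit false

namespace Pool.Agent.Q95.FreeCopy

open Finset Filter

/-- `log (K s ^ 4) < s / (16 K ^ 2)` for large `s` -/
theorem log_small (K : ℝ) (hK : 1 ≤ K) :
    ∃ s₀ : ℕ, ∀ s : ℕ, s₀ ≤ s → Real.log (K * (s : ℝ) ^ 4) < s / (16 * K ^ 2) := by
  have hK0 : 0 < K := by linarith
  have hc : (0 : ℝ) < 1 / (128 * K ^ 2) := by positivity
  have h1 := (Real.isLittleO_log_id_atTop.bound hc)
  have h2 : ∀ᶠ s : ℕ in atTop, ‖Real.log (s : ℝ)‖ ≤ 1 / (128 * K ^ 2) * ‖id (s : ℝ)‖ :=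
    tendsto_natCast_atTop_atTop.eventually h1
  have h3 : ∀ᶠ s : ℕ in atTop, Real.log K * (64 * K ^ 2) + 1 ≤ (s : ℝ) :=
    tendsto_natCast_atTop_atTop.eventually_ge_atTop _
  obtain ⟨s₀, hs₀⟩ := eventually_atTop.1 ((h2.and h3).and (eventually_ge_atTop 1))
  refine ⟨s₀, fun s hs => ?_⟩
  obtain ⟨⟨h4, h5⟩, h6⟩ := hs₀ s hs
  have hs1 : (1 : ℝ) ≤ s := by exact_mod_cast h6
  have hs0 : (0 : ℝ) < s := by linarith
  rw [Real.log_mul hK0.ne' (by positivity), Real.log_pow]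
  rw [Real.norm_eq_abs, abs_of_nonneg (Real.log_nonneg hs1), id, Real.norm_eq_abs,
    abs_of_pos hs0] at h4
  push_cast
  have h7 : Real.log K < s / (64 * K ^ 2) := by
    rw [lt_div_iff₀ (by positivity)]
    linarith
  have h8 : (4 : ℝ) * Real.log s ≤ s / (32 * K ^ 2) := by
    calc (4 : ℝ) * Real.log s ≤ 4 * (1 / (128 * K ^ 2) * s) := by linarith
      _ = s / (32 * K ^ 2) := by field_simp; norm_num
  have h9 : (s : ℝ) / (64 * K ^ 2) + s / (32 * K ^ 2) ≤ s / (16 * K ^ 2) := by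
    have : (s : ℝ) / (16 * K ^ 2) - (s / (64 * K ^ 2) + s / (32 * K ^ 2)) = s / (64 * K ^ 2) := by
      field_simp; norm_num
    have h10 : (0 : ℝ) ≤ s / (64 * K ^ 2) := by positivity
    linarith
  linarith

theorem numer (K : ℝ) (hK : 1 ≤ K) :
    ∃ s₀ : ℕ, ∀ s : ℕ, s₀ ≤ s → ∀ N : ℕ, s ^ 3 ≤ N → (N : ℝ) ≤ K * (s : ℝ) ^ 4 →
      ∃ p : ℝ, p * ((N - 2).choose 2 : ℝ) = ((s ^ 3 - 2).choose 2 : ℝ) ∧ p ≤ 1 ∧
        (N : ℝ) ^ (s ^ 3) * (1 - p) ^ ((s ^ 3).choose 2) < 1 := by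
  obtain ⟨s₀, hs₀⟩ := log_small K hK
  refine ⟨max s₀ 2, ?_⟩
  intro s hs N hN1 hN2
  have hlog := hs₀ s ((le_max_left _ _).trans hs)
  have hs2 : 2 ≤ s := (le_max_right _ _).trans hs
  have ht8 : 8 ≤ s ^ 3 := by
    calc 8 = 2 ^ 3 := by norm_num
      _ ≤ s ^ 3 := Nat.pow_le_pow_left hs2 3
  obtain ⟨t, ht⟩ : ∃ t, t = s ^ 3 := ⟨_, rfl⟩
  rw [← ht] at ht8 hN1 ⊢
  have hD : 0 < (N - 2).choose 2 := Nat.choose_pos (by omega)
  have hD' : (0 : ℝ) < ((N - 2).choose 2 : ℝ) := by exact_mod_cast hD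
  have hs0 : (0 : ℝ) < s := by
    have : 0 < s := by omega
    exact_mod_cast this
  have hN0 : (0 : ℝ) < N := by
    have : 0 < N := by omega
    exact_mod_cast this
  have hK0 : 0 < K := by linarith
  refine ⟨((t - 2).choose 2 : ℝ) / ((N - 2).choose 2 : ℝ), by field_simp, ?_, ?_⟩
  · rw [div_le_one hD']
    exact_mod_cast Nat.choose_le_choose 2 (by omega)
  · set p : ℝ := ((t - 2).choose 2 : ℝ) / ((N - 2).choose 2 : ℝ) with hp
    -- lower bound for `p * choose t 2`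
    have htr : (8 : ℝ) ≤ t := by exact_mod_cast ht8
    have hcast : ((t - 2 : ℕ) : ℝ) = t - 2 := by
      have : 2 ≤ t := by omega
      push_cast [this]; ring
    have hcastN : ((N - 2 : ℕ) : ℝ) = N - 2 := by
      have : 2 ≤ N := by omega
      push_cast [this]; ring
    have h1 : ((t - 2).choose 2 : ℝ) = (t - 2) * (t - 3) / 2 := by
      rw [Nat.cast_choose_two, hcast]; ring
    have h2 : ((N - 2).choose 2 : ℝ) ≤ (N : ℝ) ^ 2 / 2 := by
      rw [Nat.cast_choose_two, hcastN]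
      have : (8 : ℝ) ≤ N := by
        have : 8 ≤ N := by omega
        exact_mod_cast this
      nlinarith
    have h3 : (t : ℝ) ^ 2 / 4 / (N : ℝ) ^ 2 ≤ p := by
      rw [hp, h1]
      have h4 : (t : ℝ) ^ 2 / 8 ≤ (t - 2) * (t - 3) / 2 := by nlinarith
      calc (t : ℝ) ^ 2 / 4 / (N : ℝ) ^ 2 = (t : ℝ) ^ 2 / 8 / ((N : ℝ) ^ 2 / 2) := by field_simp; norm_num
        _ ≤ (t - 2) * (t - 3) / 2 / ((N : ℝ) ^ 2 / 2) := div_le_div_of_nonneg_right h4 (by positivity)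
        _ ≤ (t - 2) * (t - 3) / 2 / ((N - 2).choose 2 : ℝ) := by
            apply div_le_div_of_nonneg_left _ hD' h2
            nlinarith
    have h5 : (t : ℝ) ^ 2 / 4 ≤ ((t.choose 2 : ℕ) : ℝ) := by
      rw [Nat.cast_choose_two]; nlinarith
    have h6 : (t : ℝ) ^ 4 / (16 * (N : ℝ) ^ 2) ≤ p * ((t.choose 2 : ℕ) : ℝ) := by
      calc (t : ℝ) ^ 4 / (16 * (N : ℝ) ^ 2) = (t : ℝ) ^ 2 / 4 / (N : ℝ) ^ 2 * ((t : ℝ) ^ 2 / 4) := by
            field_simp; norm_num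
        _ ≤ p * ((t.choose 2 : ℕ) : ℝ) := mul_le_mul h3 h5 (by positivity) (le_trans (by positivity) h3)
    have h7 : (t : ℝ) * Real.log N < p * ((t.choose 2 : ℕ) : ℝ) := by
      refine lt_of_lt_of_le ?_ h6
      have ht' : (t : ℝ) = (s : ℝ) ^ 3 := by rw [ht]; push_cast; ring
      have h8 : Real.log N ≤ Real.log (K * (s : ℝ) ^ 4) := Real.log_le_log hN0 hN2
      have h9 : (s : ℝ) ^ 4 / (16 * K ^ 2) ≤ (t : ℝ) ^ 4 / (16 * (N : ℝ) ^ 2) := by
        rw [ht', div_le_div_iff₀ (by positivity) (by positivity)]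
        have h10 : (N : ℝ) ^ 2 ≤ (K * (s : ℝ) ^ 4) ^ 2 := pow_le_pow_left₀ hN0.le hN2 2
        calc (s : ℝ) ^ 4 * (16 * (N : ℝ) ^ 2) ≤ (s : ℝ) ^ 4 * (16 * (K * (s : ℝ) ^ 4) ^ 2) := by gcongr
          _ = ((s : ℝ) ^ 3) ^ 4 * (16 * K ^ 2) := by ring
      refine lt_of_lt_of_le ?_ h9
      calc (t : ℝ) * Real.log N ≤ (s : ℝ) ^ 3 * Real.log (K * (s : ℝ) ^ 4) := by
            rw [ht']; exact mul_le_mul_of_nonneg_left h8 (by positivity)
        _ < (s : ℝ) ^ 3 * (s / (16 * K ^ 2)) := mul_lt_mul_of_pos_left hlog (by positivity)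
        _ = (s : ℝ) ^ 4 / (16 * K ^ 2) := by ring
    have hp1 : 0 ≤ 1 - p := by
      rw [hp, sub_nonneg, div_le_one hD']
      exact_mod_cast Nat.choose_le_choose 2 (by omega)
    have h11 : (1 - p) ^ (t.choose 2) ≤ Real.exp (-(p * ((t.choose 2 : ℕ) : ℝ))) := by
      have h12 : 1 - p ≤ Real.exp (-p) := by
        have := Real.add_one_le_exp (-p); linarith
      calc (1 - p) ^ (t.choose 2) ≤ (Real.exp (-p)) ^ (t.choose 2) := pow_le_pow_left₀ hp1 h12 _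
        _ = Real.exp (-(p * ((t.choose 2 : ℕ) : ℝ))) := by
            rw [← Real.exp_nat_mul]; congr 1; ring
    have h13 : (N : ℝ) ^ t = Real.exp (t * Real.log N) := by
      rw [← Real.exp_log hN0, ← Real.exp_nat_mul, Real.log_exp]
    calc (N : ℝ) ^ t * (1 - p) ^ (t.choose 2)
        ≤ Real.exp (t * Real.log N) * Real.exp (-(p * ((t.choose 2 : ℕ) : ℝ))) := by
          rw [h13]; exact mul_le_mul_of_nonneg_left h11 (Real.exp_pos _).le
      _ = Real.exp (t * Real.log N - p * ((t.choose 2 : ℕ) : ℝ)) := by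
          rw [← Real.exp_add]; congr 1
      _ < 1 := by rw [Real.exp_lt_one_iff]; linarith

end Pool.Agent.Q95.FreeCopy
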