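import Mathlib

/-!
General position sets of the integer grid `ℤ^n`: geodesics and monotone chains.
-/

namespace Pool.Agent.Q95.GridGP

open SimpleGraph Finset

/-- The `n`-dimensional integer grid: two points are adjacent when they differ by one in exactly
one coordinate. -/
def grid (n : ℕ) : SimpleGraph (Fin n → ℤ) where
  Adj x y := ∃ i, |x i - y i| = 1 ∧ ∀ j, j ≠ i → x j = y j
  symm := ⟨by
    rintro x y ⟨i, h1, h2⟩
    exact ⟨i, by rw [abs_sub_comm]; exact h1, fun j hj => (h2 j hj).symm⟩⟩
  loopless := ⟨by
    rintro x ⟨i, h1, -⟩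
    simp at h1⟩

variable {n : ℕ}

/-- The `ℓ₁` distance. -/
def l1 (x y : Fin n → ℤ) : ℕ := ∑ i, (x i - y i).natAbs

theorem l1_self (x : Fin n → ℤ) : l1 x x = 0 := by simp [l1]

theorem l1_comm (x y : Fin n → ℤ) : l1 x y = l1 y x := by
  unfold l1
  refine sum_congr rfl fun i _ => ?_
  rw [← Int.natAbs_neg]
  congr 1
  ring

theorem l1_triangle (x y z : Fin n → ℤ) : l1 x z ≤ l1 x y + l1 y z := by
  unfold l1
  rw [← sum_add_distrib]
  refine sum_le_sum fun i _ => ?_
  have : x i - z i = (x i - y i) + (y i - z i) := by ring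
  rw [this]
  exact Int.natAbs_add_le _ _

theorem l1_adj {x y : Fin n → ℤ} (h : (grid n).Adj x y) : l1 x y = 1 := by
  obtain ⟨i, h1, h2⟩ := h
  unfold l1
  rw [sum_eq_single i]
  · have : ((x i - y i).natAbs : ℤ) = 1 := by rw [Int.natCast_natAbs]; exact h1
    exact_mod_cast this
  · intro j _ hj
    rw [h2 j hj]
    simp
  · intro h
    exact absurd (mem_univ i) h

theorem l1_le_length {x y : Fin n → ℤ} (p : (grid n).Walk x y) : l1 x y ≤ p.length := by
  induction p with
  | nil => simp [l1_self]
  | @cons u v w h p ih =>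
    rw [Walk.length_cons]
    have h1 := l1_adj h
    have h2 := l1_triangle u v w
    omega

theorem exists_walk : ∀ (d : ℕ) (x y : Fin n → ℤ), l1 x y = d →
    ∃ p : (grid n).Walk x y, p.length = d := by
  intro d
  induction d with
  | zero =>
    intro x y h
    have : x = y := by
      funext i
      unfold l1 at h
      rw [sum_eq_zero_iff] at h
      have := h i (mem_univ i)
      omega
    subst this
    exact ⟨Walk.nil, rfl⟩
  | succ d ih =>
    intro x y h
    obtain ⟨i, hi⟩ : ∃ i, x i ≠ y i := by
      by_contra hcon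
      push Not at hcon
      have : x = y := funext hcon
      rw [this, l1_self] at h
      omega
    let s : ℤ := if x i < y i then 1 else -1
    have hs : s = 1 ∨ s = -1 := by
      by_cases h' : x i < y i <;> simp [s, h']
    let x' := Function.update x i (x i + s)
    have hadj : (grid n).Adj x x' := by
      refine ⟨i, ?_, fun j hj => ?_⟩
      · simp only [x', Function.update_self]
        rcases hs with hs | hs <;> rw [hs] <;> norm_num
      · simp only [x', Function.update_of_ne hj]
    have hd : l1 x' y = d := by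
      have e1 : l1 x y = (x i - y i).natAbs + ∑ j ∈ univ.erase i, (x j - y j).natAbs :=
        (add_sum_erase univ (fun j => (x j - y j).natAbs) (mem_univ i)).symm
      have e2 : l1 x' y = (x' i - y i).natAbs + ∑ j ∈ univ.erase i, (x' j - y j).natAbs :=
        (add_sum_erase univ (fun j => (x' j - y j).natAbs) (mem_univ i)).symm
      have e3 : ∑ j ∈ univ.erase i, (x' j - y j).natAbs =
          ∑ j ∈ univ.erase i, (x j - y j).natAbs := by
        refine sum_congr rfl fun j hj => ?_
        simp only [x', Function.update_of_ne (ne_of_mem_erase hj)]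
      have e4 : (x' i - y i).natAbs + 1 = (x i - y i).natAbs := by
        simp only [x', Function.update_self, s]
        split_ifs with h' <;> omega
      rw [e3] at e2
      omega
    obtain ⟨p, hp⟩ := ih x' y hd
    exact ⟨Walk.cons hadj p, by rw [Walk.length_cons, hp]⟩

theorem dist_eq (x y : Fin n → ℤ) : (grid n).dist x y = l1 x y := by
  obtain ⟨p, hp⟩ := exists_walk _ x y rfl
  apply le_antisymm
  · rw [← hp]
    exact dist_le p
  · obtain ⟨q, hq⟩ := (Walk.reachable p).exists_walk_length_eq_dist
    rw [← hq]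
    exact l1_le_length q

/-- `x` comes before `y` in the order given by the signs `σ`. -/
def Le (σ : Fin n → ℤ) (x y : Fin n → ℤ) : Prop := ∀ i, 0 ≤ σ i * (y i - x i)

theorem Le.refl (σ : Fin n → ℤ) (x : Fin n → ℤ) : Le σ x x := fun i => by simp

theorem Le.trans {σ x y z : Fin n → ℤ} (h1 : Le σ x y) (h2 : Le σ y z) : Le σ x z := by
  intro i
  have a := h1 i
  have b := h2 i
  nlinarith

/-- Sign vectors. -/
def IsSign (σ : Fin n → ℤ) : Prop := ∀ i, σ i = 1 ∨ σ i = -1

theorem Le.antisymm {σ x y : Fin n → ℤ} (hσ : IsSign σ) (h1 : Le σ x y) (h2 : Le σ y x) :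
    x = y := by
  funext i
  have a := h1 i
  have b := h2 i
  rcases hσ i with h | h <;> rw [h] at a b <;> linarith

theorem l1_add {σ x y z : Fin n → ℤ} (hσ : IsSign σ) (h1 : Le σ x y) (h2 : Le σ y z) :
    l1 x z = l1 x y + l1 y z := by
  unfold l1
  rw [← sum_add_distrib]
  refine sum_congr rfl fun i _ => ?_
  have a := h1 i
  have b := h2 i
  rcases hσ i with h | h <;> rw [h] at a b <;> omega

/-- The points of `C` lie on a common geodesic. -/
def OnGeodesic (C : Finset (Fin n → ℤ)) : Prop :=
  ∃ (u v : Fin n → ℤ) (p : (grid n).Walk u v), p.length = (grid n).dist u v ∧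
    ∀ x ∈ C, x ∈ p.support

/-- Pairwise comparable in the order given by `σ`. -/
def Chain (σ : Fin n → ℤ) (C : Finset (Fin n → ℤ)) : Prop :=
  ∀ x ∈ C, ∀ y ∈ C, Le σ x y ∨ Le σ y x

/-- A chain lies on a geodesic. -/
theorem Chain.onGeodesic_aux {σ : Fin n → ℤ} (hσ : IsSign σ) :
    ∀ (m : ℕ) (C : Finset (Fin n → ℤ)), C.card = m + 1 → Chain σ C →
      ∃ u ∈ C, ∃ v ∈ C, (∀ c ∈ C, Le σ u c ∧ Le σ c v) ∧
        ∃ p : (grid n).Walk u v, p.length = l1 u v ∧ ∀ c ∈ C, c ∈ p.support := by
  classical
  intro m
  induction m with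
  | zero =>
    intro C hC _
    obtain ⟨a, rfl⟩ := card_eq_one.1 hC
    refine ⟨a, mem_singleton_self a, a, mem_singleton_self a, ?_, Walk.nil, ?_, ?_⟩
    · intro c hc
      rw [mem_singleton.1 hc]
      exact ⟨Le.refl σ a, Le.refl σ a⟩
    · simp [l1_self]
    · intro c hc
      rw [mem_singleton.1 hc]
      simp
  | succ m ih =>
    intro C hC hch
    let φ : (Fin n → ℤ) → ℤ := fun x => ∑ i, σ i * x i
    have hφ : ∀ x y, Le σ x y → φ x ≤ φ y := by
      intro x y h
      apply sum_le_sum
      intro i _
      have := h i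
      nlinarith
    have hφ' : ∀ x y, Le σ x y → φ y ≤ φ x → x = y := by
      intro x y h h'
      have h0 : ∑ i, σ i * (y i - x i) = φ y - φ x := by
        simp only [φ, ← sum_sub_distrib]
        refine sum_congr rfl fun i _ => by ring
      have h1 : ∑ i, σ i * (y i - x i) = 0 := by
        apply le_antisymm
        · rw [h0]; linarith
        · exact sum_nonneg fun i _ => h i
      rw [sum_eq_zero_iff_of_nonneg fun i _ => h i] at h1
      funext i
      have h2 := h1 i (mem_univ i)
      rcases hσ i with h3 | h3 <;> rw [h3] at h2 <;> linarith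
    have hne : C.Nonempty := card_pos.1 (by omega)
    obtain ⟨x, hx, hmax⟩ := exists_max_image C φ hne
    have hxmax : ∀ c ∈ C, Le σ c x := by
      intro c hc
      rcases hch c hc x hx with h | h
      · exact h
      · rw [hφ' x c h (hmax c hc)]
        exact Le.refl σ c
    have hcard : (C.erase x).card = m + 1 := by
      rw [card_erase_of_mem hx]
      omega
    obtain ⟨u, hu, v, hv, huv, p, hp, hps⟩ := ih (C.erase x) hcard
      (fun a ha b hb => hch a (mem_of_mem_erase ha) b (mem_of_mem_erase hb))
    obtain ⟨q, hq⟩ := exists_walk _ v x rfl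
    refine ⟨u, mem_of_mem_erase hu, x, hx, ?_, p.append q, ?_, ?_⟩
    · intro c hc
      refine ⟨?_, hxmax c hc⟩
      by_cases hcx : c = x
      · rw [hcx]
        exact hxmax u (mem_of_mem_erase hu)
      · exact (huv c (mem_erase.2 ⟨hcx, hc⟩)).1
    · rw [Walk.length_append, hp, hq]
      exact (l1_add hσ (huv u hu).2 (hxmax v (mem_of_mem_erase hv))).symm
    · intro c hc
      rw [Walk.mem_support_append_iff]
      by_cases hcx : c = x
      · right
        rw [hcx]
        exact q.end_mem_support
      · left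
        exact hps c (mem_erase.2 ⟨hcx, hc⟩)

theorem Chain.onGeodesic {σ : Fin n → ℤ} (hσ : IsSign σ) {C : Finset (Fin n → ℤ)}
    (hC : Chain σ C) (hne : C.Nonempty) : OnGeodesic C := by
  obtain ⟨u, -, v, -, -, p, hp, hps⟩ := Chain.onGeodesic_aux hσ (C.card - 1) C
    (by have := card_pos.2 hne; omega) hC
  exact ⟨u, v, p, by rw [hp, dist_eq], hps⟩

/-- Points on a geodesic form a chain. -/
theorem OnGeodesic.chain {C : Finset (Fin n → ℤ)} (hC : OnGeodesic C) :
    ∃ σ, IsSign σ ∧ Chain σ C := by
  classical
  obtain ⟨u, v, p, hp, hps⟩ := hC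
  rw [dist_eq] at hp
  let σ : Fin n → ℤ := fun i => if u i ≤ v i then 1 else -1
  have hσ : IsSign σ := by
    intro i
    by_cases h : u i ≤ v i <;> simp [σ, h]
  -- two points on the geodesic, the first one earlier
  have key : ∀ x y : Fin n → ℤ, l1 u x + l1 x y + l1 y v ≤ l1 u v → Le σ x y := by
    intro x y h i
    have hle : ∀ j, (u j - v j).natAbs ≤
        (u j - x j).natAbs + (x j - y j).natAbs + (y j - v j).natAbs := fun j => by omega
    have hsum : ∑ j, ((u j - x j).natAbs + (x j - y j).natAbs + (y j - v j).natAbs) =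
        ∑ j, (u j - v j).natAbs := by
      apply le_antisymm
      · rw [sum_add_distrib, sum_add_distrib]
        exact h
      · exact sum_le_sum fun j _ => hle j
    have heq : ∀ j ∈ univ, (u j - v j).natAbs =
        (u j - x j).natAbs + (x j - y j).natAbs + (y j - v j).natAbs :=
      (sum_eq_sum_iff_of_le fun j _ => hle j).1 hsum.symm
    have h1 := heq i (mem_univ i)
    simp only [σ]
    split_ifs with h2 <;> omega
  have hmem : ∀ x ∈ p.support, ∀ y ∈ p.support, Le σ x y ∨ Le σ y x := by
    intro x hx y hy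
    have hs : (p.takeUntil x hx).length + (p.dropUntil x hx).length = p.length := by
      rw [← Walk.length_append, Walk.take_spec]
    have hy' : y ∈ (p.takeUntil x hx).support ∨ y ∈ (p.dropUntil x hx).support := by
      rw [← Walk.mem_support_append_iff, Walk.take_spec]
      exact hy
    rcases hy' with hy' | hy'
    · right
      apply key
      have h2 : ((p.takeUntil x hx).takeUntil y hy').length +
          ((p.takeUntil x hx).dropUntil y hy').length = (p.takeUntil x hx).length := by
        rw [← Walk.length_append, Walk.take_spec]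
      have h3 := l1_le_length ((p.takeUntil x hx).takeUntil y hy')
      have h4 := l1_le_length ((p.takeUntil x hx).dropUntil y hy')
      have h5 := l1_le_length (p.dropUntil x hx)
      omega
    · left
      apply key
      have h2 : ((p.dropUntil x hx).takeUntil y hy').length +
          ((p.dropUntil x hx).dropUntil y hy').length = (p.dropUntil x hx).length := by
        rw [← Walk.length_append, Walk.take_spec]
      have h3 := l1_le_length ((p.dropUntil x hx).takeUntil y hy')
      have h4 := l1_le_length ((p.dropUntil x hx).dropUntil y hy')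
      have h5 := l1_le_length (p.takeUntil x hx)
      omega
  exact ⟨σ, hσ, fun x hx y hy => hmem x (hps x hx) y (hps y hy)⟩

/-- `S` is a `k`-general position set: no `k` points of `S` lie on a common geodesic. -/
def KGen (k : ℕ) (S : Set (Fin n → ℤ)) : Prop :=
  ∀ C : Finset (Fin n → ℤ), (C : Set (Fin n → ℤ)) ⊆ S → C.card = k → ¬ OnGeodesic C

section upper

variable {m : ℕ}

/-- Sign vectors with first entry `1`. -/
def sg (τ : Fin m → Bool) : Fin (m + 1) → ℤ := Fin.cons 1 (fun i => if τ i then 1 else -1)

theorem sg_isSign (τ : Fin m → Bool) : IsSign (sg τ) := by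
  intro i
  refine Fin.cases ?_ (fun j => ?_) i
  · left
    rfl
  · simp only [sg, Fin.cons_succ]
    by_cases h : τ j <;> simp [h]

/-- Any two points are comparable in one of the orders. -/
theorem exists_sg (x y : Fin (m + 1) → ℤ) : ∃ τ : Fin m → Bool, Le (sg τ) x y ∨ Le (sg τ) y x := by
  by_cases h : x 0 ≤ y 0
  · refine ⟨fun i => decide (x i.succ ≤ y i.succ), Or.inl fun i => ?_⟩
    refine Fin.cases ?_ (fun j => ?_) i
    · simp only [sg, Fin.cons_zero]
      linarith
    · simp only [sg, Fin.cons_succ, decide_eq_true_eq]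
      split_ifs with h1 <;> linarith
  · refine ⟨fun i => decide (y i.succ ≤ x i.succ), Or.inr fun i => ?_⟩
    refine Fin.cases ?_ (fun j => ?_) i
    · simp only [sg, Fin.cons_zero]
      linarith
    · simp only [sg, Fin.cons_succ, decide_eq_true_eq]
      split_ifs with h1 <;> linarith

theorem upper {k : ℕ} (hk : 2 ≤ k) (T : Finset (Fin (m + 1) → ℤ))
    (hT : KGen k (T : Set (Fin (m + 1) → ℤ))) : T.card ≤ (k - 1) ^ (2 ^ m) := by
  classical
  have hb : ∀ (σ : Fin (m + 1) → ℤ), IsSign σ → ∀ C ⊆ T, Chain σ C → C.card ≤ k - 1 := by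
    intro σ hσ C hC hch
    by_contra hcon
    obtain ⟨C', hC', hcard⟩ := exists_subset_card_eq (show k ≤ C.card by omega)
    refine hT C' (by exact_mod_cast hC'.trans hC) hcard ?_
    exact Chain.onGeodesic hσ (fun x hx y hy => hch x (hC' hx) y (hC' hy))
      (card_pos.1 (by omega))
  let F : (Fin m → Bool) → (Fin (m + 1) → ℤ) → Finset (Finset (Fin (m + 1) → ℤ)) :=
    fun τ x => T.powerset.filter fun C => x ∈ C ∧ Chain (sg τ) C ∧ ∀ c ∈ C, Le (sg τ) c x
  let ℓ : (Fin m → Bool) → (Fin (m + 1) → ℤ) → ℕ := fun τ x => (F τ x).sup Finset.card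
  have hle : ∀ τ x, ℓ τ x ≤ k - 1 := by
    intro τ x
    apply Finset.sup_le
    intro C hC
    rw [mem_filter, mem_powerset] at hC
    exact hb (sg τ) (sg_isSign τ) C hC.1 hC.2.2.1
  have hpos : ∀ τ, ∀ x ∈ T, 1 ≤ ℓ τ x := by
    intro τ x hx
    have : ({x} : Finset (Fin (m + 1) → ℤ)) ∈ F τ x := by
      rw [mem_filter, mem_powerset]
      refine ⟨singleton_subset_iff.2 hx, mem_singleton_self x, ?_, ?_⟩
      · intro a ha b hb
        rw [mem_singleton.1 ha, mem_singleton.1 hb]
        exact Or.inl (Le.refl _ _)
      · intro c hc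
        rw [mem_singleton.1 hc]
        exact Le.refl _ _
    exact Finset.le_sup (f := Finset.card) this
  have hlt : ∀ τ, ∀ x ∈ T, ∀ y ∈ T, x ≠ y → Le (sg τ) x y → ℓ τ x < ℓ τ y := by
    intro τ x hx y hy hxy hle
    have hne : (F τ x).Nonempty := by
      by_contra hcon
      rw [not_nonempty_iff_eq_empty] at hcon
      have := hpos τ x hx
      simp only [ℓ, hcon, sup_empty] at this
      exact absurd this (by simp)
    obtain ⟨C, hC, hCl⟩ := exists_mem_eq_sup (F τ x) hne Finset.card
    have hC' := hC
    rw [mem_filter, mem_powerset] at hC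
    obtain ⟨h1, h2, h3, h4⟩ := hC
    have hyC : y ∉ C := fun h => hxy (Le.antisymm (sg_isSign τ) hle (h4 y h))
    have : insert y C ∈ F τ y := by
      rw [mem_filter, mem_powerset]
      refine ⟨insert_subset hy h1, mem_insert_self y C, ?_, ?_⟩
      · intro a ha b hb
        rcases mem_insert.1 ha with ha' | ha'
        · rcases mem_insert.1 hb with hb' | hb'
          · rw [ha', hb']
            exact Or.inl (Le.refl _ _)
          · rw [ha']
            exact Or.inr ((h4 b hb').trans hle)
        · rcases mem_insert.1 hb with hb' | hb'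
          · rw [hb']
            exact Or.inl ((h4 a ha').trans hle)
          · exact h3 a ha' b hb'
      · intro c hc
        rcases mem_insert.1 hc with rfl | hc
        · exact Le.refl _ _
        · exact (h4 c hc).trans hle
    have h5 := Finset.le_sup (f := Finset.card) this
    rw [card_insert_of_notMem hyC] at h5
    have h6 : ℓ τ x = C.card := hCl
    have h7 : C.card + 1 ≤ ℓ τ y := h5
    omega
  have hinj : Set.InjOn (fun x => fun τ => (ℓ τ x)) (T : Set (Fin (m + 1) → ℤ)) := by
    intro x hx y hy hxy
    by_contra hne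
    obtain ⟨τ, h | h⟩ := exists_sg x y
    · have := hlt τ x hx y hy hne h
      have h2 := congrFun hxy τ
      simp only at h2
      omega
    · have := hlt τ y hy x hx (Ne.symm hne) h
      have h2 := congrFun hxy τ
      simp only at h2
      omega
  have hmaps : ∀ x ∈ T, (fun τ => ℓ τ x) ∈
      Fintype.piFinset (fun _ : Fin m → Bool => Finset.Icc 1 (k - 1)) := by
    intro x hx
    rw [Fintype.mem_piFinset]
    intro τ
    rw [mem_Icc]
    exact ⟨hpos τ x hx, hle τ x⟩
  have h := card_le_card_of_injOn _ hmaps hinj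
  rw [Fintype.card_piFinset] at h
  simpa using h

end upper

section lower

/-- The most significant non-zero digit decides the sign, whatever the signs of the digits. -/
theorem top {K : ℤ} (hK : 2 ≤ K) : ∀ (N : ℕ) (d : Fin N → ℤ), (∀ t, |d t| ≤ K - 1) →
    (∀ s : Fin N → ℤ, (∀ t, s t = 1 ∨ s t = -1) →
      |∑ u, s u * d u * K ^ (u : ℕ)| ≤ K ^ N - 1) ∧
    (d ≠ 0 → ∃ t, d t ≠ 0 ∧ ∀ s : Fin N → ℤ, (∀ t, s t = 1 ∨ s t = -1) →
      0 < s t * d t * ∑ u, s u * d u * K ^ (u : ℕ)) := by
  intro N
  induction N with
  | zero =>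
    intro d _
    refine ⟨fun s _ => by simp, fun hd => ?_⟩
    exact absurd (Subsingleton.elim d 0) hd
  | succ N ih =>
    intro d hd
    obtain ⟨ih1, ih2⟩ := ih (fun u => d u.castSucc) (fun t => hd _)
    have hpow : (1 : ℤ) ≤ K ^ N := one_le_pow₀ (by linarith)
    constructor
    · intro s hs
      rw [Fin.sum_univ_castSucc]
      have h1 := ih1 (fun u => s u.castSucc) (fun t => hs _)
      have h2 : |s (Fin.last N) * d (Fin.last N) * K ^ ((Fin.last N : Fin (N + 1)) : ℕ)| ≤
          (K - 1) * K ^ N := by
        rw [abs_mul, abs_mul, Fin.val_last]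
        have h3 : |s (Fin.last N)| = 1 := by
          rcases hs (Fin.last N) with h | h <;> rw [h] <;> simp
        rw [h3, one_mul, abs_of_pos (show (0 : ℤ) < K ^ N by linarith)]
        exact mul_le_mul_of_nonneg_right (hd _) (by linarith)
      refine (abs_add_le _ _).trans ?_
      simp only [Fin.val_castSucc]
      rw [pow_succ]
      linarith
    · intro hd0
      by_cases hlast : d (Fin.last N) = 0
      · have hd' : (fun u : Fin N => d u.castSucc) ≠ 0 := by
          intro h
          apply hd0
          funext t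
          refine Fin.lastCases hlast (fun i => ?_) t
          exact congrFun h i
        obtain ⟨t, ht, hts⟩ := ih2 hd'
        refine ⟨t.castSucc, ht, fun s hs => ?_⟩
        rw [Fin.sum_univ_castSucc, hlast]
        simp only [Fin.val_castSucc, mul_zero, zero_mul, add_zero]
        exact hts (fun u => s u.castSucc) (fun t => hs _)
      · refine ⟨Fin.last N, hlast, fun s hs => ?_⟩
        rw [Fin.sum_univ_castSucc]
        have h1 := ih1 (fun u => s u.castSucc) (fun t => hs _)
        simp only [Fin.val_castSucc, Fin.val_last]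
        set A := ∑ u : Fin N, s u.castSucc * d u.castSucc * K ^ (u : ℕ) with hA
        set e := s (Fin.last N) * d (Fin.last N) with he
        have h2 : 1 ≤ |e| := by
          rw [he, abs_mul]
          have h3 : |s (Fin.last N)| = 1 := by
            rcases hs (Fin.last N) with h | h <;> rw [h] <;> simp
          rw [h3, one_mul]
          exact Int.one_le_abs hlast
        have h3 : e * (A + e * K ^ N) = e * A + e ^ 2 * K ^ N := by ring
        rw [h3]
        have h4 : -(|e| * (K ^ N - 1)) ≤ e * A := by
          have : |e * A| ≤ |e| * (K ^ N - 1) := by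
            rw [abs_mul]
            exact mul_le_mul_of_nonneg_left h1 (abs_nonneg _)
          exact (neg_le_neg this).trans (neg_abs_le _)
        have h5 : e ^ 2 = |e| * |e| := by rw [← abs_mul, abs_of_nonneg (mul_self_nonneg e)]; ring
        rw [h5]
        have h6 : |e| * K ^ N ≤ |e| * |e| * K ^ N := by
          apply mul_le_mul_of_nonneg_right _ (by linarith)
          nlinarith
        nlinarith

variable {m : ℕ}

/-- The points of the extremal set, indexed by the digits `a`. -/
noncomputable def pt (k : ℕ) (e : Fin (2 ^ m) ≃ (Fin m → Bool)) (a : Fin (2 ^ m) → Fin (k - 1)) :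
    Fin (m + 1) → ℤ :=
  fun j => ∑ u, sg (e u) j * ((a u : ℕ) : ℤ) * (k : ℤ) ^ (u : ℕ)

theorem pt_diff {k : ℕ} (hk : 2 ≤ k) (e : Fin (2 ^ m) ≃ (Fin m → Bool))
    {a b : Fin (2 ^ m) → Fin (k - 1)} (hab : a ≠ b) :
    ∃ t, a t ≠ b t ∧ ((∀ j, 0 < sg (e t) j * (pt k e b j - pt k e a j)) ∨
      ∀ j, sg (e t) j * (pt k e b j - pt k e a j) < 0) := by
  let d : Fin (2 ^ m) → ℤ := fun u => ((b u : ℕ) : ℤ) - ((a u : ℕ) : ℤ)
  have hd : ∀ t, |d t| ≤ (k : ℤ) - 1 := by
    intro t
    have h1 := (a t).isLt
    have h2 := (b t).isLt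
    rw [abs_le]
    simp only [d]
    constructor <;> omega
  have hd0 : d ≠ 0 := by
    intro h
    apply hab
    funext t
    have := congrFun h t
    simp only [d, Pi.zero_apply] at this
    apply Fin.ext
    omega
  obtain ⟨t, ht, hts⟩ := (top (K := k) (by exact_mod_cast hk) (2 ^ m) d hd).2 hd0
  have hdiff : ∀ j, pt k e b j - pt k e a j = ∑ u, sg (e u) j * d u * (k : ℤ) ^ (u : ℕ) := by
    intro j
    simp only [pt, ← sum_sub_distrib]
    refine sum_congr rfl fun u _ => ?_
    simp only [d]
    ring
  have hkey : ∀ j, 0 < d t * (sg (e t) j * (pt k e b j - pt k e a j)) := by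
    intro j
    have h := hts (fun u => sg (e u) j) (fun u => sg_isSign (e u) j)
    rw [hdiff]
    calc 0 < sg (e t) j * d t * ∑ u, sg (e u) j * d u * (k : ℤ) ^ (u : ℕ) := h
      _ = _ := by ring
  refine ⟨t, fun h => ht (by simp only [d, h, sub_self]), ?_⟩
  rcases lt_or_gt_of_ne ht with h | h
  · right
    intro j
    have := hkey j
    nlinarith
  · left
    intro j
    have := hkey j
    by_contra hcon
    push Not at hcon
    nlinarith

theorem pt_injective {k : ℕ} (hk : 2 ≤ k) (e : Fin (2 ^ m) ≃ (Fin m → Bool)) :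
    Function.Injective (pt k e) := by
  intro a b hab
  by_contra hne
  obtain ⟨t, -, h | h⟩ := pt_diff hk e hne
  · have := h 0
    rw [hab] at this
    simp at this
  · have := h 0
    rw [hab] at this
    simp at this

theorem lower {k : ℕ} (hk : 2 ≤ k) (m : ℕ) : ∃ S : Finset (Fin (m + 1) → ℤ),
    KGen k (S : Set (Fin (m + 1) → ℤ)) ∧ S.card = (k - 1) ^ (2 ^ m) := by
  classical
  let e : Fin (2 ^ m) ≃ (Fin m → Bool) :=
    (Fintype.equivFinOfCardEq (by simp)).symm
  refine ⟨univ.image (pt k e), ?_, ?_⟩
  · intro C hC hcard hgeo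
    obtain ⟨σ, hσ, hch⟩ := hgeo.chain
    -- the digits of the points of `C`
    have hpre : ∀ c ∈ C, ∃ a, pt k e a = c := by
      intro c hc
      have := hC hc
      rw [mem_coe, mem_image] at this
      obtain ⟨a, -, ha⟩ := this
      exact ⟨a, ha⟩
    have hnon : Nonempty (Fin (2 ^ m) → Fin (k - 1)) := ⟨fun _ => ⟨0, by omega⟩⟩
    choose! g hg using hpre
    -- the direction of any two points of `C`
    have hdir : ∀ x ∈ C, ∀ y ∈ C, x ≠ y → ∃ t, g x t ≠ g y t ∧
        ∀ j, sg (e t) j = σ 0 * σ j := by
      intro x hx y hy hxy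
      have hne : g x ≠ g y := fun h => hxy (by rw [← hg x hx, ← hg y hy, h])
      obtain ⟨t, ht, h⟩ := pt_diff hk e hne
      rw [hg x hx, hg y hy] at h
      refine ⟨t, ht, fun j => ?_⟩
      have h0 : sg (e t) 0 = 1 := rfl
      have hs := sg_isSign (e t) j
      have hσ0 := hσ 0
      have hσj := hσ j
      rcases hch x hx y hy with hc | hc
      · have c0 := hc 0
        have cj := hc j
        rcases h with h | h
        · have d0 := h 0
          have dj := h j
          rw [h0] at d0
          rcases hs with hs | hs <;> rcases hσ0 with hσ0 | hσ0 <;>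
            rcases hσj with hσj | hσj <;> rw [hs] at dj <;> rw [hσ0] at c0 <;>
            rw [hσj] at cj <;> rw [hs, hσ0, hσj] <;> first | (exfalso; linarith) | norm_num
        · have d0 := h 0
          have dj := h j
          rw [h0] at d0
          rcases hs with hs | hs <;> rcases hσ0 with hσ0 | hσ0 <;>
            rcases hσj with hσj | hσj <;> rw [hs] at dj <;> rw [hσ0] at c0 <;>
            rw [hσj] at cj <;> rw [hs, hσ0, hσj] <;> first | (exfalso; linarith) | norm_num
      · have c0 := hc 0
        have cj := hc j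
        rcases h with h | h
        · have d0 := h 0
          have dj := h j
          rw [h0] at d0
          rcases hs with hs | hs <;> rcases hσ0 with hσ0 | hσ0 <;>
            rcases hσj with hσj | hσj <;> rw [hs] at dj <;> rw [hσ0] at c0 <;>
            rw [hσj] at cj <;> rw [hs, hσ0, hσj] <;> first | (exfalso; linarith) | norm_num
        · have d0 := h 0
          have dj := h j
          rw [h0] at d0
          rcases hs with hs | hs <;> rcases hσ0 with hσ0 | hσ0 <;>
            rcases hσj with hσj | hσj <;> rw [hs] at dj <;> rw [hσ0] at c0 <;>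
            rw [hσj] at cj <;> rw [hs, hσ0, hσj] <;> first | (exfalso; linarith) | norm_num
    -- two different points
    obtain ⟨x₀, hx₀, y₀, hy₀, hne₀⟩ := one_lt_card.1 (show 1 < C.card by omega)
    obtain ⟨t₀, -, ht₀⟩ := hdir x₀ hx₀ y₀ hy₀ hne₀
    have huniq : ∀ t, (∀ j, sg (e t) j = σ 0 * σ j) → t = t₀ := by
      intro t ht
      apply e.injective
      funext i
      have h1 : sg (e t) i.succ = sg (e t₀) i.succ := by rw [ht, ht₀]
      simp only [sg, Fin.cons_succ] at h1
      by_cases h2 : e t i <;> by_cases h3 : e t₀ i <;> simp [h2, h3] at h1 ⊢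
    have hinj : Set.InjOn (fun x => g x t₀) (C : Set (Fin (m + 1) → ℤ)) := by
      intro x hx y hy hxy
      by_contra hne
      obtain ⟨t, ht, htj⟩ := hdir x hx y hy hne
      rw [huniq t htj] at ht
      exact ht hxy
    have h := card_le_card_of_injOn (fun x => g x t₀) (fun x _ => mem_univ (g x t₀)) hinj
    rw [card_univ, Fintype.card_fin] at h
    omega
  · rw [card_image_of_injective _ (pt_injective hk e)]
    simp

end lower

end Pool.Agent.Q95.GridGP
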