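import Mathlib.Algebra.BigOperators.Group.List.Basic
import Mathlib.Algebra.Group.Hom.Defs
import Mathlib.Data.Set.NAry
import Mathlib.Data.Finite.Prod
import Mathlib.Data.ENat.Basic
import Mathlib.GroupTheory.OrderOfElement

/-!
Definitions for MP_43520b_al: factorizations and minimal factorizations in a monoid in the sense
of Cossu and Tringali, unions of length sets, and the reduced finitary power monoid.
-/

namespace Pool.Agent.Q95.PowerMonoid

section general

variable {M : Type*} [Monoid M]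

/-- `x ∣ y` iff `y ∈ M x M`. -/
def Dvd' (x y : M) : Prop := ∃ u v, y = u * x * v

/-- `x ≃ y` iff `x ∣ y` and `y ∣ x`. -/
def Equ (x y : M) : Prop := Dvd' x y ∧ Dvd' y x

/-- `x` divides `1`. -/
def UnitDivisor (x : M) : Prop := Dvd' x 1

/-- `x` is a proper divisor of `y`: `x ∣ y` and not `y ∣ x`. -/
def ProperDivisor (x y : M) : Prop := Dvd' x y ∧ ¬ Dvd' y x

/-- Irreducible elements: non-unit-divisors `a` with no `a = b c` where `b, c` are proper divisors
of `a` that are not unit-divisors. -/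
def Irr (a : M) : Prop :=
  ¬ UnitDivisor a ∧ ¬ ∃ b c, a = b * c ∧ ProperDivisor b a ∧ ProperDivisor c a ∧
    ¬ UnitDivisor b ∧ ¬ UnitDivisor c

/-- `w` is a factorization of `x`: a word of irreducibles with product `x`. -/
def IsFactorization (w : List M) (x : M) : Prop := (∀ a ∈ w, Irr a) ∧ w.prod = x

/-- `w` is a minimal factorization of `x`: there is no shorter factorization `v` of `x` with an
injective map `τ` of positions such that the letters `v i` and `w (τ i)` are equivalent. -/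
def IsMinimalFactorization (w : List M) (x : M) : Prop :=
  IsFactorization w x ∧ ¬ ∃ v : List M, IsFactorization v x ∧ v.length < w.length ∧
    ∃ τ : Fin v.length → Fin w.length, Function.Injective τ ∧
      ∀ i, Equ (v.get i) (w.get (τ i))

/-- The length set of `x`; by convention `{0}` for `x = 1` and empty for the other
unit-divisors. -/
def lengthSet (x : M) : Set ℕ :=
  {m | (x = 1 ∧ m = 0) ∨ (¬ UnitDivisor x ∧ ∃ w : List M, IsFactorization w x ∧ w.length = m)}

/-- The set of lengths of minimal factorizations of `x`, with the same convention. -/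
def minLengthSet (x : M) : Set ℕ :=
  {m | (x = 1 ∧ m = 0) ∨
    (¬ UnitDivisor x ∧ ∃ w : List M, IsMinimalFactorization w x ∧ w.length = m)}

variable (M)

/-- `𝒰_k(M)`: the union of the length sets containing `k`. -/
def unionLengths (k : ℕ) : Set ℕ := {l | ∃ x : M, k ∈ lengthSet x ∧ l ∈ lengthSet x}

/-- `𝒰ᵐ_k(M)`: the union of the sets of minimal lengths containing `k`. -/
def unionMinLengths (k : ℕ) : Set ℕ := {l | ∃ x : M, k ∈ minLengthSet x ∧ l ∈ minLengthSet x}

/-- Intervals: sets `{x ∈ ℕ | a ≤ x ≤ b}` with `a, b ∈ ℕ ∪ {∞}` (possibly empty). -/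
def IsInterval (s : Set ℕ) : Prop := ∃ a b : ℕ∞, s = {x : ℕ | a ≤ x ∧ x ≤ b}

end general

/-- The reduced finitary power monoid of `H`: finite subsets of `H` containing `1`. -/
def PFin (H : Type*) [Monoid H] : Type _ := {X : Set H // X.Finite ∧ (1 : H) ∈ X}

namespace PFin

variable {H : Type*} [Monoid H]

/-- setwise multiplication -/
instance : Mul (PFin H) where
  mul X Y := ⟨Set.image2 (fun x y => x * y) X.1 Y.1, X.2.1.image2 _ Y.2.1,
    ⟨1, X.2.2, 1, Y.2.2, mul_one 1⟩⟩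

instance : One (PFin H) := ⟨⟨{1}, Set.finite_singleton 1, rfl⟩⟩

instance : Membership H (PFin H) := ⟨fun X h => h ∈ X.1⟩

theorem mem_mul {X Y : PFin H} {h : H} : h ∈ X * Y ↔ ∃ x ∈ X, ∃ y ∈ Y, x * y = h := Iff.rfl

theorem mem_one {h : H} : h ∈ (1 : PFin H) ↔ h = 1 := Iff.rfl

theorem one_mem (X : PFin H) : (1 : H) ∈ X := X.2.2

theorem ext' {X Y : PFin H} (h : ∀ a, a ∈ X ↔ a ∈ Y) : X = Y := Subtype.ext (Set.ext h)

instance : Monoid (PFin H) where
  mul_assoc X Y Z := by
    apply ext'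
    intro h
    simp only [mem_mul]
    constructor
    · rintro ⟨_, ⟨x, hx, y, hy, rfl⟩, z, hz, rfl⟩
      exact ⟨x, hx, _, ⟨y, hy, z, hz, rfl⟩, (mul_assoc _ _ _).symm⟩
    · rintro ⟨x, hx, _, ⟨y, hy, z, hz, rfl⟩, rfl⟩
      exact ⟨_, ⟨x, hx, y, hy, rfl⟩, z, hz, mul_assoc _ _ _⟩
  one_mul X := by
    apply ext'
    intro h
    rw [mem_mul]
    constructor
    · rintro ⟨x, hx, y, hy, rfl⟩
      rw [mem_one] at hx
      rwa [hx, one_mul]
    · intro hh
      exact ⟨1, one_mem _, h, hh, one_mul _⟩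
  mul_one X := by
    apply ext'
    intro h
    rw [mem_mul]
    constructor
    · rintro ⟨x, hx, y, hy, rfl⟩
      rw [mem_one] at hy
      rwa [hy, mul_one]
    · intro hh
      exact ⟨h, hh, 1, one_mem _, mul_one _⟩

/-! ### Divisibility and irreducibles -/

theorem left_sub (X Y : PFin H) {h : H} (hh : h ∈ X) : h ∈ X * Y :=
  mem_mul.2 ⟨h, hh, 1, one_mem _, mul_one _⟩

theorem right_sub (X Y : PFin H) {h : H} (hh : h ∈ Y) : h ∈ X * Y :=
  mem_mul.2 ⟨1, one_mem _, h, hh, one_mul _⟩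

theorem dvd_sub {X Y : PFin H} (h : Dvd' X Y) {a : H} (ha : a ∈ X) : a ∈ Y := by
  obtain ⟨U, V, rfl⟩ := h
  exact left_sub _ _ (right_sub _ _ ha)

theorem eq_of_dvd {X Y : PFin H} (h : Dvd' X Y) (h' : Dvd' Y X) : X = Y :=
  ext' fun _ => ⟨fun ha => dvd_sub h ha, fun ha => dvd_sub h' ha⟩

theorem equ_iff {X Y : PFin H} : Equ X Y ↔ X = Y :=
  ⟨fun h => eq_of_dvd h.1 h.2, fun h => h ▸ ⟨⟨1, 1, by simp⟩, ⟨1, 1, by simp⟩⟩⟩

theorem unitDivisor_iff {X : PFin H} : UnitDivisor X ↔ X = 1 := by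
  constructor
  · intro h
    apply ext'
    intro a
    rw [mem_one]
    exact ⟨fun ha => mem_one.1 (dvd_sub h ha), fun ha => ha ▸ one_mem _⟩
  · rintro rfl
    exact ⟨1, 1, by simp⟩

theorem irr_iff {A : PFin H} : Irr A ↔ A ≠ 1 ∧ ∀ B C, A = B * C → B = A ∨ C = A := by
  unfold Irr
  rw [unitDivisor_iff]
  constructor
  · rintro ⟨h1, h2⟩
    refine ⟨h1, fun B C hBC => ?_⟩
    by_contra hne
    push Not at hne
    apply h2
    refine ⟨B, C, hBC, ⟨⟨1, C, by rw [one_mul, hBC]⟩, fun h => hne.1 ?_⟩,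
      ⟨⟨B, 1, by rw [mul_one, hBC]⟩, fun h => hne.2 ?_⟩, ?_, ?_⟩
    · exact eq_of_dvd ⟨1, C, by rw [one_mul, hBC]⟩ h
    · exact eq_of_dvd ⟨B, 1, by rw [mul_one, hBC]⟩ h
    · rw [unitDivisor_iff]
      rintro rfl
      rw [one_mul] at hBC
      exact hne.2 hBC.symm
    · rw [unitDivisor_iff]
      rintro rfl
      rw [mul_one] at hBC
      exact hne.1 hBC.symm
  · rintro ⟨h1, h2⟩
    refine ⟨h1, ?_⟩
    rintro ⟨B, C, hBC, hB, hC, _, _⟩
    rcases h2 B C hBC with h | h
    · exact hB.2 (h ▸ ⟨1, 1, by simp⟩)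
    · exact hC.2 (h ▸ ⟨1, 1, by simp⟩)

theorem eq_one_iff {X : PFin H} : X = 1 ↔ ∀ a ∈ X, a = 1 := by
  constructor
  · rintro rfl a ha; exact mem_one.1 ha
  · intro h
    apply ext'
    intro a
    rw [mem_one]
    exact ⟨h a, fun ha => ha ▸ one_mem _⟩

/-- the set `{1, h}` -/
def pair (h : H) : PFin H := ⟨{1, h}, (Set.finite_singleton h).insert 1, Or.inl rfl⟩

theorem mem_pair {h a : H} : a ∈ pair h ↔ a = 1 ∨ a = h := Iff.rfl

theorem irr_pair {h : H} (hh : h ≠ 1) : Irr (pair h) := by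
  rw [irr_iff]
  refine ⟨fun h1 => hh (eq_one_iff.1 h1 h (mem_pair.2 (Or.inr rfl))), fun B C hBC => ?_⟩
  by_cases hB : h ∈ B
  · left
    apply ext'
    intro a
    rw [mem_pair]
    constructor
    · intro ha
      have : a ∈ pair h := by rw [hBC]; exact left_sub _ _ ha
      exact mem_pair.1 this
    · rintro (rfl | rfl)
      · exact one_mem _
      · exact hB
  · right
    have hB1 : B = 1 := by
      rw [eq_one_iff]
      intro a ha
      have : a ∈ pair h := by rw [hBC]; exact left_sub _ _ ha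
      rcases mem_pair.1 this with h1 | h1
      · exact h1
      · exact absurd (h1 ▸ ha) hB
    rw [hBC, hB1, one_mul]

/-- A criterion for irreducibility. -/
theorem irr_of_elem {D : PFin H} {d : H} (hd : d ∈ D) (hd1 : d ≠ 1)
    (h1 : ∀ b ∈ D, ∀ b' ∈ D, b * b' = d → b = 1 ∨ b' = 1)
    (h2 : ∀ c ∈ D, c ≠ 1 → ¬ d * c ∈ D ∧ ¬ c * d ∈ D) : Irr D := by
  rw [irr_iff]
  refine ⟨fun h => hd1 (eq_one_iff.1 h d hd), fun B C hBC => ?_⟩
  have hB : ∀ {a}, a ∈ B → a ∈ D := fun ha => by rw [hBC]; exact left_sub _ _ ha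
  have hC : ∀ {a}, a ∈ C → a ∈ D := fun ha => by rw [hBC]; exact right_sub _ _ ha
  have hd' := hd
  rw [hBC] at hd'
  obtain ⟨b, hb, c, hc, hbc⟩ := mem_mul.1 hd'
  rcases h1 b (hB hb) c (hC hc) hbc with rfl | rfl
  · -- `d ∈ C`
    rw [one_mul] at hbc
    subst hbc
    right
    have : B = 1 := by
      rw [eq_one_iff]
      intro a ha
      by_contra ha1
      refine (h2 a (hB ha) ha1).2 ?_
      rw [hBC]
      exact mem_mul.2 ⟨a, ha, _, hc, rfl⟩
    rw [hBC, this, one_mul]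
  · rw [mul_one] at hbc
    subst hbc
    left
    have : C = 1 := by
      rw [eq_one_iff]
      intro a ha
      by_contra ha1
      refine (h2 a (hC ha) ha1).1 ?_
      rw [hBC]
      exact mem_mul.2 ⟨_, hb, a, ha, rfl⟩
    rw [hBC, this, mul_one]

end PFin

end Pool.Agent.Q95.PowerMonoid
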