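import Mathlib

set_option autoImplicit false

namespace Pool.Agent.Q95.TreeProf

open SimpleGraph Finset
open scoped Classical

variable {V : Type} [Fintype V]

/-- boundary edge inside a connected set -/
lemma exists_boundary (T : SimpleGraph V) (U W : Finset V)
    (hU : (T.induce (U : Set V)).Connected) (hW : W ⊆ U) (hne : W.Nonempty) (hlt : W ≠ U) :
    ∃ y ∈ W, ∃ x ∈ U, x ∉ W ∧ T.Adj y x := by
  obtain ⟨w, hw⟩ := hne
  obtain ⟨x0, hx0, hx0'⟩ : ∃ x ∈ U, x ∉ W := by
    by_contra h
    push Not at h
    exact hlt (Finset.Subset.antisymm hW h)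
  obtain ⟨p⟩ := hU.preconnected ⟨w, hW hw⟩ ⟨x0, hx0⟩
  obtain ⟨d, _, h1, h2⟩ := p.exists_boundary_dart {a | (a : V) ∈ W} hw hx0'
  refine ⟨d.fst, h1, d.snd, ?_, h2, ?_⟩
  · have := d.snd.2
    exact_mod_cast this
  · have := d.adj
    simpa using this

/-- the number of connected `k`-sets containing a given set, with degrees at most `D` -/
lemma count_ext (T : SimpleGraph V) (k D : ℕ) : ∀ (j : ℕ) (W : Finset V), W.Nonempty →
    W.card + j = k →
    (univ.filter (fun U : Finset V => U.card = k ∧ W ⊆ U ∧
      (T.induce (U : Set V)).Connected ∧ ∀ x ∈ U, T.degree x ≤ D)).card ≤ (k * D) ^ j := by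
  intro j
  induction j with
  | zero =>
    intro W _ hk
    rw [pow_zero, Finset.card_le_one]
    intro A hA B hB
    rw [Finset.mem_filter] at hA hB
    have h1 : W = A := Finset.eq_of_subset_of_card_le hA.2.2.1 (by omega)
    have h2 : W = B := Finset.eq_of_subset_of_card_le hB.2.2.1 (by omega)
    rw [← h1, ← h2]
  | succ j ih =>
    intro W hne hk
    by_cases hdeg : ∀ y ∈ W, T.degree y ≤ D
    · set X : Finset V := (W.biUnion (fun y => T.neighborFinset y)) \ W with hX
      have hXc : X.card ≤ k * D := by
        calc X.card ≤ (W.biUnion (fun y => T.neighborFinset y)).card :=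
              Finset.card_le_card Finset.sdiff_subset
          _ ≤ W.card * D := Finset.card_biUnion_le_card_mul _ _ _ (fun y hy => by
              simpa using hdeg y hy)
          _ ≤ k * D := Nat.mul_le_mul_right _ (by omega)
      have hsub : (univ.filter (fun U : Finset V => U.card = k ∧ W ⊆ U ∧
          (T.induce (U : Set V)).Connected ∧ ∀ x ∈ U, T.degree x ≤ D)) ⊆
          X.biUnion (fun x => univ.filter (fun U : Finset V => U.card = k ∧ insert x W ⊆ U ∧
          (T.induce (U : Set V)).Connected ∧ ∀ x ∈ U, T.degree x ≤ D)) := by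
        intro U hU
        rw [Finset.mem_filter] at hU
        obtain ⟨_, h1, h2, h3, h4⟩ := hU
        obtain ⟨y, hy, x, hx, hxW, hadj⟩ := exists_boundary T U W h3 h2 hne (by
          rintro rfl
          omega)
        rw [Finset.mem_biUnion]
        refine ⟨x, ?_, ?_⟩
        · rw [hX, Finset.mem_sdiff, Finset.mem_biUnion]
          exact ⟨⟨y, hy, by simpa using hadj⟩, hxW⟩
        · rw [Finset.mem_filter]
          exact ⟨Finset.mem_univ _, h1, Finset.insert_subset hx h2, h3, h4⟩
      refine (Finset.card_le_card hsub).trans ?_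
      refine (Finset.card_biUnion_le_card_mul _ _ ((k * D) ^ j) ?_).trans ?_
      · intro x hx
        refine ih (insert x W) (Finset.insert_nonempty _ _) ?_
        have : x ∉ W := (Finset.mem_sdiff.1 hx).2
        rw [Finset.card_insert_of_notMem this]
        omega
      · rw [pow_succ, Nat.mul_comm]
        exact Nat.mul_le_mul_left _ hXc
    · push Not at hdeg
      obtain ⟨y, hy, hyD⟩ := hdeg
      rw [Finset.card_eq_zero.2]
      · exact Nat.zero_le _
      · rw [Finset.filter_eq_empty_iff]
        rintro U - ⟨_, h2, _, h4⟩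
        exact absurd (h4 y (h2 hy)) (by omega)

/-- `U` is a star with centre `v` -/
def StarAt (T : SimpleGraph V) (v : V) (U : Finset V) : Prop :=
  v ∈ U ∧ (∀ x ∈ U, x ≠ v → T.Adj v x) ∧ ∀ x ∈ U, ∀ y ∈ U, x ≠ v → y ≠ v → ¬ T.Adj x y

/-- star sets and non-star sets -/
noncomputable def starSets (T : SimpleGraph V) (k : ℕ) : Finset (Finset V) :=
  univ.filter (fun U => U.card = k ∧ ∃ v, StarAt T v U)

noncomputable def nonStarSets (T : SimpleGraph V) (k : ℕ) : Finset (Finset V) :=
  univ.filter (fun U => U.card = k ∧ (T.induce (U : Set V)).Connected ∧ ¬ ∃ v, StarAt T v U)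

/-- a connected set which is not a star at `v` has a vertex at distance two from `v` -/
lemma dist_two (T : SimpleGraph V) (U : Finset V) (v : V) (hv : v ∈ U)
    (hU : (T.induce (U : Set V)).Connected) (hs : ¬ StarAt T v U) :
    ∃ u ∈ U, ∃ w ∈ U, T.Adj v u ∧ T.Adj u w ∧ w ≠ v := by
  by_contra hcon
  push Not at hcon
  apply hs
  have hW : insert v (U.filter (fun x => T.Adj v x)) = U := by
    by_contra hne
    obtain ⟨y, hy, x, hx, hxW, hadj⟩ := exists_boundary T U
      (insert v (U.filter (fun x => T.Adj v x))) hU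
      (Finset.insert_subset hv (Finset.filter_subset _ _)) (Finset.insert_nonempty _ _) hne
    rw [Finset.mem_insert, Finset.mem_filter] at hy hxW
    rcases hy with rfl | ⟨hy1, hy2⟩
    · exact hxW (Or.inr ⟨hx, hadj⟩)
    · exact hxW (Or.inl (hcon y hy1 x hx hy2 hadj))
  refine ⟨hv, ?_, ?_⟩
  · intro x hx hxv
    rw [← hW, Finset.mem_insert, Finset.mem_filter] at hx
    rcases hx with h | h
    · exact absurd h hxv
    · exact h.2
  · intro x hx y hy hxv hyv hadj
    have hx' := hx
    rw [← hW, Finset.mem_insert, Finset.mem_filter] at hx'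
    rcases hx' with h | h
    · exact absurd h hxv
    · exact hyv (hcon x hx y hy h.2 hadj)

/-- the bound for non-star sets -/
lemma nonStar_le (T : SimpleGraph V) (k : ℕ) (hk : 3 ≤ k) :
    (nonStarSets T k).card ≤ ∑ v : V, ∑ u ∈ (T.neighborFinset v).filter
      (fun u => T.degree u ≤ T.degree v), T.degree u * (k * T.degree v) ^ (k - 3) := by
  have hsub : nonStarSets T k ⊆ (univ : Finset V).biUnion (fun v =>
      ((T.neighborFinset v).filter (fun u => T.degree u ≤ T.degree v)).biUnion (fun u =>
        ((T.neighborFinset u).filter (fun w => w ≠ v)).biUnion (fun w =>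
          univ.filter (fun U : Finset V => U.card = k ∧ ({v, u, w} : Finset V) ⊆ U ∧
          (T.induce (U : Set V)).Connected ∧ ∀ x ∈ U, T.degree x ≤ T.degree v)))) := by
    intro U hU
    rw [nonStarSets, Finset.mem_filter] at hU
    obtain ⟨_, h1, h2, h3⟩ := hU
    have hne : U.Nonempty := by
      rw [← Finset.card_pos]
      omega
    obtain ⟨v, hv, hmax⟩ := Finset.exists_max_image U (fun x => T.degree x) hne
    obtain ⟨u, hu, w, hw, hvu, huw, hwv⟩ := dist_two T U v hv h2 (fun h => h3 ⟨v, h⟩)
    simp only [Finset.mem_biUnion, Finset.mem_filter, Finset.mem_univ, true_and,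
      SimpleGraph.mem_neighborFinset]
    refine ⟨v, u, ⟨hvu, hmax u hu⟩, w, ⟨huw, hwv⟩, h1, ?_, h2, hmax⟩
    intro x hx
    simp only [Finset.mem_insert, Finset.mem_singleton] at hx
    rcases hx with rfl | rfl | rfl <;> assumption
  refine (Finset.card_le_card hsub).trans ?_
  refine Finset.card_biUnion_le.trans (Finset.sum_le_sum (fun v _ => ?_))
  refine Finset.card_biUnion_le.trans (Finset.sum_le_sum (fun u hu => ?_))
  rw [Finset.mem_filter, SimpleGraph.mem_neighborFinset] at hu
  refine (Finset.card_biUnion_le_card_mul _ _ ((k * T.degree v) ^ (k - 3)) ?_).trans ?_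
  · intro w hw
    rw [Finset.mem_filter, SimpleGraph.mem_neighborFinset] at hw
    refine count_ext T k (T.degree v) (k - 3) {v, u, w} (Finset.insert_nonempty _ _) ?_
    rw [Finset.card_insert_of_notMem, Finset.card_insert_of_notMem, Finset.card_singleton]
    · omega
    · rw [Finset.mem_singleton]
      exact hw.1.ne
    · rw [Finset.mem_insert, Finset.mem_singleton, not_or]
      exact ⟨hu.1.ne, fun h => hw.2 h.symm⟩
  · refine Nat.mul_le_mul_right _ ?_
    calc ((T.neighborFinset u).filter (fun w => w ≠ v)).card ≤ (T.neighborFinset u).card :=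
          Finset.card_filter_le _ _
      _ = T.degree u := by simp

end Pool.Agent.Q95.TreeProf
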