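import Pool.Agent.Q95.TreeProf

set_option autoImplicit false

namespace Pool.Agent.Q95.TreeProf

open SimpleGraph Finset
open scoped Classical

variable {V : Type} [Fintype V]

/-- stars: `k * S ≥ Σ_v C(d(v), k-1)` -/
lemma star_lower (T : SimpleGraph V) (hT : T.IsTree) (k : ℕ) (hk : 1 ≤ k) :
    ∑ v : V, (T.degree v).choose (k - 1) ≤ k * (starSets T k).card := by
  have h1 : ∀ v : V, (T.degree v).choose (k - 1) ≤ ((starSets T k).filter (fun U => v ∈ U)).card := by
    intro v
    have : (T.degree v).choose (k - 1) = ((T.neighborFinset v).powersetCard (k - 1)).card := by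
      rw [Finset.card_powersetCard, SimpleGraph.card_neighborFinset_eq_degree]
    rw [this]
    refine Finset.card_le_card_of_injOn (fun L => insert v L) ?_ ?_
    · intro L hL
      rw [Finset.mem_coe, Finset.mem_powersetCard] at hL
      have hvL : v ∉ L := by
        intro h
        have := hL.1 h
        simp at this
      rw [Finset.mem_coe, Finset.mem_filter, starSets, Finset.mem_filter]
      refine ⟨⟨Finset.mem_univ _, ?_, v, Finset.mem_insert_self _ _, ?_, ?_⟩,
        Finset.mem_insert_self _ _⟩
      · rw [Finset.card_insert_of_notMem hvL, hL.2]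
        omega
      · intro x hx hxv
        have := hL.1 ((Finset.mem_insert.1 hx).resolve_left hxv)
        simpa using this
      · intro x hx y hy hxv hyv hadj
        have hx' := hL.1 ((Finset.mem_insert.1 hx).resolve_left hxv)
        have hy' := hL.1 ((Finset.mem_insert.1 hy).resolve_left hyv)
        rw [SimpleGraph.mem_neighborFinset, ← SimpleGraph.dist_eq_one_iff_adj] at hx' hy'
        exact hT.dist_ne_of_adj v hadj (by rw [hx', hy'])
    · intro L hL L' hL' h
      rw [Finset.mem_coe, Finset.mem_powersetCard] at hL hL'
      have hvL : v ∉ L := by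
        intro h
        have := hL.1 h
        simp at this
      have hvL' : v ∉ L' := by
        intro h
        have := hL'.1 h
        simp at this
      have := congrArg (fun s => Finset.erase s v) h
      simpa [Finset.erase_insert hvL, Finset.erase_insert hvL'] using this
  calc ∑ v : V, (T.degree v).choose (k - 1)
      ≤ ∑ v : V, ((starSets T k).filter (fun U => v ∈ U)).card :=
        Finset.sum_le_sum (fun v _ => h1 v)
    _ = ∑ v : V, ∑ U ∈ starSets T k, (if v ∈ U then 1 else 0) := by
        refine Finset.sum_congr rfl (fun v _ => ?_)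
        rw [Finset.card_filter]
    _ = ∑ U ∈ starSets T k, ∑ v : V, (if v ∈ U then 1 else 0) := Finset.sum_comm
    _ = ∑ U ∈ starSets T k, U.card := by
        refine Finset.sum_congr rfl (fun U _ => ?_)
        simp
    _ = ∑ U ∈ starSets T k, k := by
        refine Finset.sum_congr rfl (fun U hU => ?_)
        rw [starSets, Finset.mem_filter] at hU
        exact hU.2.1
    _ = k * (starSets T k).card := by
        rw [Finset.sum_const, smul_eq_mul, Nat.mul_comm]

/-- sets inducing a path -/
noncomputable def pathSets (T : SimpleGraph V) (k : ℕ) : Finset (Finset V) :=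
  univ.filter (fun U => U.card = k ∧ Nonempty (T.induce (U : Set V) ≃g pathGraph k))

lemma path_through (T : SimpleGraph V) (hT : T.Connected) (k : ℕ) (hk : 1 ≤ k) (v a : V)
    (h : k - 1 ≤ T.dist v a) : ∃ U ∈ pathSets T k, v ∈ U := by
  obtain ⟨p, hp⟩ := hT.exists_walk_length_eq_dist v a
  have hd : ∀ i, i < k → T.dist v (p.getVert i) = i := by
    intro i hi
    have hil : i ≤ p.length := by omega
    apply le_antisymm
    · have := SimpleGraph.dist_le (p.take i)
      rwa [Walk.take_length, min_eq_left hil] at this
    · have h2 := SimpleGraph.dist_le (p.drop i)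
      rw [Walk.drop_length] at h2
      have h3 := hT.dist_triangle (u := v) (v := p.getVert i) (w := a)
      omega
  let f : Fin k → V := fun i => p.getVert i.val
  have hf : Function.Injective f := by
    intro i j hij
    have h1 := hd i i.2
    have h2 := hd j j.2
    have : p.getVert i = p.getVert j := hij
    rw [this, h2] at h1
    exact Fin.ext h1.symm
  refine ⟨univ.image f, ?_, ?_⟩
  · rw [pathSets, Finset.mem_filter]
    refine ⟨Finset.mem_univ _, ?_, ?_⟩
    · rw [Finset.card_image_of_injective _ hf, Finset.card_univ, Fintype.card_fin]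
    · have hmem : ∀ i, f i ∈ ((univ.image f : Finset V) : Set V) := by
        intro i
        simp
      let g : Fin k → ((univ.image f : Finset V) : Set V) := fun i => ⟨f i, hmem i⟩
      have hg : Function.Bijective g := by
        constructor
        · intro i j hij
          exact hf (congrArg Subtype.val hij)
        · rintro ⟨x, hx⟩
          have hx' : x ∈ univ.image f := by exact_mod_cast hx
          rw [Finset.mem_image] at hx'
          obtain ⟨i, _, hi⟩ := hx'
          exact ⟨i, Subtype.ext hi⟩
      refine ⟨SimpleGraph.Iso.symm ⟨Equiv.ofBijective g hg, ?_⟩⟩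
      intro i j
      rw [pathGraph_adj]
      show T.Adj (p.getVert i) (p.getVert j) ↔ _
      constructor
      · intro hadj
        have h1 := hd i i.2
        have h2 := hd j j.2
        have h3 := hadj.diff_dist_adj (u := v)
        rw [h1, h2] at h3
        have h4 : i.val ≠ j.val := by
          intro h
          rw [h] at hadj
          exact hadj.ne rfl
        omega
      · rintro (h1 | h1)
        · have := p.adj_getVert_succ (i := i.val) (by
            have := j.2
            omega)
          rw [← h1]
          exact this
        · have := p.adj_getVert_succ (i := j.val) (by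
            have := i.2
            omega)
          rw [← h1]
          exact this.symm
  · rw [Finset.mem_image]
    exact ⟨⟨0, by omega⟩, Finset.mem_univ _, by simp [f]⟩

/-- many paths if the diameter is large -/
lemma path_lower (T : SimpleGraph V) (hT : T.Connected) (k : ℕ) (hk : 1 ≤ k) (a b : V)
    (hab : 2 * k ≤ T.dist a b) : Fintype.card V ≤ k * (pathSets T k).card := by
  have h1 : ∀ v : V, 1 ≤ ((pathSets T k).filter (fun U => v ∈ U)).card := by
    intro v
    have h2 := hT.dist_triangle (u := a) (v := v) (w := b)
    rw [SimpleGraph.dist_comm (u := a) (v := v)] at h2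
    rw [Nat.one_le_iff_ne_zero, ← Nat.pos_iff_ne_zero, Finset.card_pos]
    rcases Nat.lt_or_ge (T.dist v a) (k - 1) with h3 | h3
    · obtain ⟨U, hU, hv⟩ := path_through T hT k hk v b (by omega)
      exact ⟨U, Finset.mem_filter.2 ⟨hU, hv⟩⟩
    · obtain ⟨U, hU, hv⟩ := path_through T hT k hk v a h3
      exact ⟨U, Finset.mem_filter.2 ⟨hU, hv⟩⟩
  calc Fintype.card V = ∑ v : V, 1 := by simp
    _ ≤ ∑ v : V, ((pathSets T k).filter (fun U => v ∈ U)).card :=
        Finset.sum_le_sum (fun v _ => h1 v)
    _ = ∑ v : V, ∑ U ∈ pathSets T k, (if v ∈ U then 1 else 0) := by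
        refine Finset.sum_congr rfl (fun v _ => ?_)
        rw [Finset.card_filter]
    _ = ∑ U ∈ pathSets T k, ∑ v : V, (if v ∈ U then 1 else 0) := Finset.sum_comm
    _ = ∑ U ∈ pathSets T k, U.card := by
        refine Finset.sum_congr rfl (fun U _ => ?_)
        simp
    _ = ∑ U ∈ pathSets T k, k := by
        refine Finset.sum_congr rfl (fun U hU => ?_)
        rw [pathSets, Finset.mem_filter] at hU
        exact hU.2.1
    _ = k * (pathSets T k).card := by
        rw [Finset.sum_const, smul_eq_mul, Nat.mul_comm]

/-- uniqueness of the parent -/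
lemma parent_unique (T : SimpleGraph V) (hT : T.IsTree) (r u v v' : V) (h1 : T.Adj v u)
    (h2 : T.Adj v' u) (h3 : T.dist r v < T.dist r u) (h4 : T.dist r v' < T.dist r u) : v = v' := by
  have key : ∀ x, T.Adj x u → T.dist r x < T.dist r u → ∃ q : T.Walk r u, q.IsPath ∧
      q.penultimate = x := by
    intro x hx hlt
    obtain ⟨p, hp⟩ := hT.connected.exists_walk_length_eq_dist r x
    have h5 := hT.dist_eq_dist_add_one_of_adj r hx
    refine ⟨p.concat hx, ?_, ?_⟩
    · apply Walk.isPath_of_length_eq_dist
      rw [Walk.length_concat, hp]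
      omega
    · simp
  obtain ⟨q, hq, hqv⟩ := key v h1 h3
  obtain ⟨q', hq', hqv'⟩ := key v' h2 h4
  have := hT.isAcyclic.path_unique ⟨q, hq⟩ ⟨q', hq'⟩
  have h6 : q = q' := congrArg Subtype.val this
  rw [← hqv, ← hqv', h6]

/-- sums over edges of a tree, weighted by a function of the child -/
lemma child_sum (T : SimpleGraph V) (hT : T.IsTree) (r : V) (g : V → ℝ) (hg : ∀ v, 0 ≤ g v) :
    ∑ v : V, ∑ u ∈ (T.neighborFinset v).filter (fun u => T.dist r v < T.dist r u), g u ≤
      ∑ u : V, g u := by
  have h1 : ∀ v : V, ∑ u ∈ (T.neighborFinset v).filter (fun u => T.dist r v < T.dist r u), g u =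
      ∑ u : V, if (T.Adj v u ∧ T.dist r v < T.dist r u) then g u else 0 := by
    intro v
    rw [← Finset.sum_filter]
    refine Finset.sum_congr ?_ (fun _ _ => rfl)
    ext u
    simp
  rw [Finset.sum_congr rfl (fun v _ => h1 v), Finset.sum_comm]
  refine Finset.sum_le_sum (fun u _ => ?_)
  rw [← Finset.sum_filter, Finset.sum_const, nsmul_eq_mul]
  have hc : (univ.filter (fun v => T.Adj v u ∧ T.dist r v < T.dist r u)).card ≤ 1 := by
    rw [Finset.card_le_one]
    intro v hv v' hv'
    rw [Finset.mem_filter] at hv hv'
    exact parent_unique T hT r u v v' hv.2.1 hv'.2.1 hv.2.2 hv'.2.2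
  have hc' : ((univ.filter (fun v => T.Adj v u ∧ T.dist r v < T.dist r u)).card : ℝ) ≤ 1 := by
    exact_mod_cast hc
  calc _ ≤ 1 * g u := mul_le_mul_of_nonneg_right hc' (hg u)
    _ = g u := one_mul _

/-- levels -/
lemma level_succ (T : SimpleGraph V) (hT : T.Connected) (r : V) (i : ℕ) :
    (univ.filter (fun x => T.dist r x = i + 1)).card ≤
      ∑ x ∈ univ.filter (fun x => T.dist r x = i), T.degree x := by
  have hsub : univ.filter (fun x => T.dist r x = i + 1) ⊆
      (univ.filter (fun x => T.dist r x = i)).biUnion (fun x => T.neighborFinset x) := by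
    intro y hy
    rw [Finset.mem_filter] at hy
    obtain ⟨p, hp⟩ := hT.exists_walk_length_eq_dist r y
    rw [Finset.mem_biUnion]
    refine ⟨p.getVert i, ?_, ?_⟩
    · rw [Finset.mem_filter]
      refine ⟨Finset.mem_univ _, ?_⟩
      have hil : i ≤ p.length := by omega
      apply le_antisymm
      · have := SimpleGraph.dist_le (p.take i)
        rwa [Walk.take_length, min_eq_left hil] at this
      · have h2 := SimpleGraph.dist_le (p.drop i)
        rw [Walk.drop_length] at h2
        have h3 := hT.dist_triangle (u := r) (v := p.getVert i) (w := y)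
        omega
    · rw [SimpleGraph.mem_neighborFinset]
      have h1 := p.adj_getVert_succ (i := i) (by omega)
      have h2 : p.getVert (i + 1) = y := by
        apply p.getVert_of_length_le
        omega
      rwa [h2] at h1
  refine (Finset.card_le_card hsub).trans (Finset.card_biUnion_le.trans ?_)
  exact Finset.sum_le_sum (fun x _ => by simp)

end Pool.Agent.Q95.TreeProf
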