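import Pool.Agent.Q95.TreeProf2

set_option autoImplicit false

namespace Pool.Agent.Q95.TreeProf

open SimpleGraph Finset
open scoped Classical

section
variable {V : Type} [Fintype V]

/-- power sum of degrees -/
noncomputable def X (T : SimpleGraph V) (m : ℕ) : ℝ := ∑ v : V, (T.degree v : ℝ) ^ m

lemma X_nonneg (T : SimpleGraph V) (m : ℕ) : 0 ≤ X T m :=
  Finset.sum_nonneg (fun v _ => by positivity)

/-- lower powers are controlled by higher powers -/
lemma X_low (T : SimpleGraph V) (m : ℕ) (η : ℝ) (hη : 0 < η) :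
    X T m ≤ η * X T (m + 1) + (1 / η) ^ m * Fintype.card V := by
  have h : ∀ v : V, (T.degree v : ℝ) ^ m ≤ η * (T.degree v : ℝ) ^ (m + 1) + (1 / η) ^ m := by
    intro v
    have hd : (0 : ℝ) ≤ (T.degree v : ℝ) := by positivity
    rcases le_total (1 / η) (T.degree v : ℝ) with h1 | h1
    · have h2 : 1 ≤ η * (T.degree v : ℝ) := by
        rw [div_le_iff₀ hη] at h1
        linarith
      have h3 : (T.degree v : ℝ) ^ m ≤ η * (T.degree v : ℝ) ^ (m + 1) := by
        rw [pow_succ]
        have := mul_le_mul_of_nonneg_right h2 (pow_nonneg hd m)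
        nlinarith
      have : 0 ≤ (1 / η) ^ m := by positivity
      linarith
    · have h2 : (T.degree v : ℝ) ^ m ≤ (1 / η) ^ m := pow_le_pow_left₀ hd h1 m
      have h3 : 0 ≤ η * (T.degree v : ℝ) ^ (m + 1) := by positivity
      linarith
  calc X T m ≤ ∑ v : V, (η * (T.degree v : ℝ) ^ (m + 1) + (1 / η) ^ m) :=
        Finset.sum_le_sum (fun v _ => h v)
    _ = η * X T (m + 1) + (1 / η) ^ m * Fintype.card V := by
        rw [Finset.sum_add_distrib, ← Finset.mul_sum, Finset.sum_const, nsmul_eq_mul]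
        simp only [X, Finset.card_univ]
        ring

/-- splitting the double sum of `nonStar_le` -/
lemma double_sum (T : SimpleGraph V) (hT : T.IsTree) (m : ℕ) (η : ℝ) (hη : 0 < η)
    (hη1 : η ≤ 1) :
    ∑ v : V, ∑ u ∈ (T.neighborFinset v).filter (fun u => T.degree u ≤ T.degree v),
      (T.degree u : ℝ) * (T.degree v : ℝ) ^ m ≤
      η * X T (m + 2) + ((1 / η) ^ (m + 1) + 1) * X T (m + 1) := by
  obtain ⟨r⟩ := hT.connected.nonempty
  set A : V → V → ℝ := fun v u => η * (T.degree v : ℝ) ^ (m + 1) +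
    (if T.dist r v < T.dist r u then (1 / η) ^ (m + 1) * (T.degree u : ℝ) ^ (m + 1) else 0) +
    (if T.dist r u < T.dist r v then (T.degree v : ℝ) ^ (m + 1) else 0) with hA
  have hA0 : ∀ v u, 0 ≤ A v u := by
    intro v u
    have h1 : 0 ≤ η * (T.degree v : ℝ) ^ (m + 1) := by positivity
    have h2 : 0 ≤ (if T.dist r v < T.dist r u then
        (1 / η) ^ (m + 1) * (T.degree u : ℝ) ^ (m + 1) else 0) := by
      split_ifs <;> positivity
    have h3 : 0 ≤ (if T.dist r u < T.dist r v then (T.degree v : ℝ) ^ (m + 1) else 0) := by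
      split_ifs <;> positivity
    simp only [hA]
    linarith
  have hterm : ∀ v u, T.Adj v u → T.degree u ≤ T.degree v →
      (T.degree u : ℝ) * (T.degree v : ℝ) ^ m ≤ A v u := by
    intro v u hadj hdeg
    have hdv : (0 : ℝ) ≤ (T.degree v : ℝ) := by positivity
    have hdu : (0 : ℝ) ≤ (T.degree u : ℝ) := by positivity
    have hdeg' : (T.degree u : ℝ) ≤ (T.degree v : ℝ) := by exact_mod_cast hdeg
    have hg1 : (T.degree u : ℝ) * (T.degree v : ℝ) ^ m ≤ (T.degree v : ℝ) ^ (m + 1) := by
      rw [pow_succ]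
      nlinarith [pow_nonneg hdv m]
    have h1 : 0 ≤ η * (T.degree v : ℝ) ^ (m + 1) := by positivity
    simp only [hA]
    rcases hT.dist_eq_dist_add_one_of_adj r hadj with h | h
    · rw [if_neg (by omega), if_pos (by omega)]
      linarith
    · rw [if_pos (by omega), if_neg (by omega)]
      rcases le_total (T.degree u : ℝ) (η * (T.degree v : ℝ)) with h2 | h2
      · have h3 : (T.degree u : ℝ) * (T.degree v : ℝ) ^ m ≤ η * (T.degree v : ℝ) ^ (m + 1) := by
          rw [pow_succ]
          have := mul_le_mul_of_nonneg_right h2 (pow_nonneg hdv m)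
          nlinarith
        have h4 : 0 ≤ (1 / η) ^ (m + 1) * (T.degree u : ℝ) ^ (m + 1) := by positivity
        linarith
      · have h3 : (T.degree v : ℝ) ≤ (1 / η) * (T.degree u : ℝ) := by
          rw [one_div, ← div_eq_inv_mul, le_div_iff₀ hη]
          linarith
        have h4 : (T.degree v : ℝ) ^ (m + 1) ≤ (1 / η) ^ (m + 1) * (T.degree u : ℝ) ^ (m + 1) := by
          rw [← mul_pow]
          exact pow_le_pow_left₀ hdv h3 _
        linarith
  have step1 : ∑ v : V, ∑ u ∈ (T.neighborFinset v).filter (fun u => T.degree u ≤ T.degree v),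
      (T.degree u : ℝ) * (T.degree v : ℝ) ^ m ≤ ∑ v : V, ∑ u ∈ T.neighborFinset v, A v u := by
    refine Finset.sum_le_sum (fun v _ => ?_)
    calc _ ≤ ∑ u ∈ (T.neighborFinset v).filter (fun u => T.degree u ≤ T.degree v), A v u := by
          refine Finset.sum_le_sum (fun u hu => ?_)
          rw [Finset.mem_filter, SimpleGraph.mem_neighborFinset] at hu
          exact hterm v u hu.1 hu.2
      _ ≤ _ := Finset.sum_le_sum_of_subset_of_nonneg (Finset.filter_subset _ _)
          (fun u _ _ => hA0 v u)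
  have step2 : ∑ v : V, ∑ u ∈ T.neighborFinset v, A v u =
      ∑ v : V, ∑ u ∈ T.neighborFinset v, η * (T.degree v : ℝ) ^ (m + 1) +
      ∑ v : V, ∑ u ∈ (T.neighborFinset v).filter (fun u => T.dist r v < T.dist r u),
        (1 / η) ^ (m + 1) * (T.degree u : ℝ) ^ (m + 1) +
      ∑ v : V, ∑ u ∈ (T.neighborFinset v).filter (fun u => T.dist r u < T.dist r v),
        (T.degree v : ℝ) ^ (m + 1) := by
    simp only [hA, Finset.sum_add_distrib, Finset.sum_filter]
  have s1 : ∑ v : V, ∑ u ∈ T.neighborFinset v, η * (T.degree v : ℝ) ^ (m + 1) =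
      η * X T (m + 2) := by
    rw [X, Finset.mul_sum]
    refine Finset.sum_congr rfl (fun v _ => ?_)
    rw [Finset.sum_const, SimpleGraph.card_neighborFinset_eq_degree, nsmul_eq_mul]
    ring
  have s2 : ∑ v : V, ∑ u ∈ (T.neighborFinset v).filter (fun u => T.dist r v < T.dist r u),
        (1 / η) ^ (m + 1) * (T.degree u : ℝ) ^ (m + 1) ≤ (1 / η) ^ (m + 1) * X T (m + 1) := by
    refine (child_sum T hT r (fun u => (1 / η) ^ (m + 1) * (T.degree u : ℝ) ^ (m + 1))
      (fun v => by positivity)).trans (le_of_eq ?_)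
    rw [X, Finset.mul_sum]
  have s3 : ∑ v : V, ∑ u ∈ (T.neighborFinset v).filter (fun u => T.dist r u < T.dist r v),
        (T.degree v : ℝ) ^ (m + 1) ≤ X T (m + 1) := by
    have e : ∑ v : V, ∑ u ∈ (T.neighborFinset v).filter (fun u => T.dist r u < T.dist r v),
        (T.degree v : ℝ) ^ (m + 1) =
        ∑ u : V, ∑ v ∈ (T.neighborFinset u).filter (fun v => T.dist r u < T.dist r v),
        (T.degree v : ℝ) ^ (m + 1) := by
      have e1 : ∀ v : V, ∑ u ∈ (T.neighborFinset v).filter (fun u => T.dist r u < T.dist r v),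
          (T.degree v : ℝ) ^ (m + 1) =
          ∑ u : V, if (T.Adj v u ∧ T.dist r u < T.dist r v) then
            (T.degree v : ℝ) ^ (m + 1) else 0 := by
        intro v
        rw [← Finset.sum_filter]
        refine Finset.sum_congr ?_ (fun _ _ => rfl)
        ext u
        simp
      have e2 : ∀ u : V, ∑ v ∈ (T.neighborFinset u).filter (fun v => T.dist r u < T.dist r v),
          (T.degree v : ℝ) ^ (m + 1) =
          ∑ v : V, if (T.Adj v u ∧ T.dist r u < T.dist r v) then
            (T.degree v : ℝ) ^ (m + 1) else 0 := by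
        intro u
        rw [← Finset.sum_filter]
        refine Finset.sum_congr ?_ (fun _ _ => rfl)
        ext v
        simp [SimpleGraph.adj_comm]
      rw [Finset.sum_congr rfl (fun v _ => e1 v), Finset.sum_congr rfl (fun u _ => e2 u),
        Finset.sum_comm]
    rw [e]
    exact child_sum T hT r (fun v => (T.degree v : ℝ) ^ (m + 1)) (fun v => by positivity)
  rw [step2, s1] at step1
  linarith

/-- the non-star sets -/
lemma nonStar_bound (k : ℕ) (hk : 3 ≤ k) (ε : ℝ) (hε : 0 < ε) :
    ∃ C : ℝ, 0 ≤ C ∧ ∀ (V : Type) [Fintype V] (T : SimpleGraph V), T.IsTree →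
      ((nonStarSets T k).card : ℝ) ≤ ε * X T (k - 1) + C * Fintype.card V := by
  obtain ⟨m, rfl⟩ : ∃ m, k = m + 3 := ⟨k - 3, by omega⟩
  set K : ℝ := ((m + 3 : ℕ) : ℝ) ^ m with hK
  have hK0 : 1 ≤ K := by
    rw [hK]
    exact one_le_pow₀ (by push_cast; linarith [(Nat.cast_nonneg m : (0 : ℝ) ≤ m)])
  set η : ℝ := min 1 (ε / (2 * K)) with hη
  have hη0 : 0 < η := lt_min one_pos (by positivity)
  have hη1 : η ≤ 1 := min_le_left _ _
  have hη2 : K * η ≤ ε / 2 := by
    have : η ≤ ε / (2 * K) := min_le_right _ _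
    calc K * η ≤ K * (ε / (2 * K)) := mul_le_mul_of_nonneg_left this (by linarith)
      _ = ε / 2 := by field_simp
  set M : ℝ := K * ((1 / η) ^ (m + 1) + 1) with hM
  have hM0 : 0 < M := by positivity
  set δ : ℝ := ε / (2 * M) with hδ
  have hδ0 : 0 < δ := by positivity
  refine ⟨M * (1 / δ) ^ (m + 1), by positivity, ?_⟩
  intro V _ T hT
  have h1 : ((nonStarSets T (m + 3)).card : ℝ) ≤
      K * ∑ v : V, ∑ u ∈ (T.neighborFinset v).filter (fun u => T.degree u ≤ T.degree v),
      (T.degree u : ℝ) * (T.degree v : ℝ) ^ m := by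
    have h2 := nonStar_le T (m + 3) (by omega)
    have h3 : ((nonStarSets T (m + 3)).card : ℝ) ≤ ((∑ v : V, ∑ u ∈ (T.neighborFinset v).filter
      (fun u => T.degree u ≤ T.degree v), T.degree u * ((m + 3) * T.degree v) ^ (m + 3 - 3) : ℕ) :
        ℝ) := by exact_mod_cast h2
    refine h3.trans (le_of_eq ?_)
    push_cast
    rw [Finset.mul_sum]
    refine Finset.sum_congr rfl (fun v _ => ?_)
    rw [Finset.mul_sum]
    refine Finset.sum_congr rfl (fun u _ => ?_)
    rw [hK]
    push_cast
    rw [mul_pow]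
    ring
  have h2 := double_sum T hT m η hη0 hη1
  have h3 := X_low T (m + 1) δ hδ0
  rw [show m + 3 - 1 = m + 2 from rfl]
  have hX := X_nonneg T (m + 2)
  calc ((nonStarSets T (m + 3)).card : ℝ) ≤ K * (η * X T (m + 2) +
        ((1 / η) ^ (m + 1) + 1) * X T (m + 1)) :=
        h1.trans (mul_le_mul_of_nonneg_left h2 (by linarith))
    _ = (K * η) * X T (m + 2) + M * X T (m + 1) := by rw [hM]; ring
    _ ≤ (ε / 2) * X T (m + 2) + M * (δ * X T (m + 1 + 1) + (1 / δ) ^ (m + 1) * Fintype.card V) := by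
        apply add_le_add
        · exact mul_le_mul_of_nonneg_right hη2 hX
        · exact mul_le_mul_of_nonneg_left h3 hM0.le
    _ = (ε / 2 + M * δ) * X T (m + 2) + M * (1 / δ) ^ (m + 1) * Fintype.card V := by ring
    _ = ε * X T (m + 2) + M * (1 / δ) ^ (m + 1) * Fintype.card V := by
        have : M * δ = ε / 2 := by
          rw [hδ]
          field_simp
        rw [this]
        ring

/-- the star sets control the power sum -/
lemma X_le_star (k : ℕ) (hk : 2 ≤ k) : ∃ C₁ C₂ : ℝ, 0 < C₁ ∧ 0 ≤ C₂ ∧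
    ∀ (V : Type) [Fintype V] (T : SimpleGraph V), T.IsTree →
      X T (k - 1) ≤ C₁ * (starSets T k).card + C₂ * Fintype.card V := by
  obtain ⟨r, rfl⟩ : ∃ r, k = r + 2 := ⟨k - 2, by omega⟩
  rw [show r + 2 - 1 = r + 1 from rfl]
  set a : ℝ := 2 ^ (r + 1) * ((r + 1).factorial : ℝ) with ha
  have ha0 : 0 < a := by positivity
  set b : ℝ := ((2 * (r + 1) : ℕ) : ℝ) ^ (r + 1) with hb
  have key : ∀ d : ℕ, (d : ℝ) ^ (r + 1) ≤ a * (d.choose (r + 1) : ℝ) + b := by
    intro d
    rcases Nat.lt_or_ge d (2 * (r + 1)) with h | h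
    · have h1 : (d : ℝ) ^ (r + 1) ≤ b := by
        rw [hb]
        exact pow_le_pow_left₀ (by positivity) (by exact_mod_cast h.le) _
      have : 0 ≤ a * (d.choose (r + 1) : ℝ) := by positivity
      linarith
    · have h1 := Nat.pow_le_choose (α := ℝ) (r + 1) d
      rw [div_le_iff₀ (by positivity)] at h1
      have h2 : (d : ℝ) ≤ 2 * ((d + 1 - (r + 1) : ℕ) : ℝ) := by
        have : d ≤ 2 * (d + 1 - (r + 1)) := by omega
        exact_mod_cast this
      have h3 : (d : ℝ) ^ (r + 1) ≤ 2 ^ (r + 1) * ((d + 1 - (r + 1) : ℕ) : ℝ) ^ (r + 1) := by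
        rw [← mul_pow]
        exact pow_le_pow_left₀ (by positivity) h2 _
      have h4 : 2 ^ (r + 1) * ((d + 1 - (r + 1) : ℕ) : ℝ) ^ (r + 1) ≤
          2 ^ (r + 1) * ((d.choose (r + 1) : ℝ) * ((r + 1).factorial : ℝ)) :=
        mul_le_mul_of_nonneg_left h1 (by positivity)
      have h5 : 0 ≤ b := by positivity
      rw [ha]
      linarith
  refine ⟨a * (r + 2), b, by positivity, by positivity, ?_⟩
  intro V _ T hT
  have h1 := star_lower T hT (r + 2) (by omega)
  rw [show r + 2 - 1 = r + 1 from rfl] at h1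
  have h2 : ((∑ v : V, (T.degree v).choose (r + 1) : ℕ) : ℝ) ≤
      ((r + 2 : ℕ) : ℝ) * ((starSets T (r + 2)).card : ℝ) := by exact_mod_cast h1
  calc X T (r + 1) ≤ ∑ v : V, (a * ((T.degree v).choose (r + 1) : ℝ) + b) :=
        Finset.sum_le_sum (fun v _ => key _)
    _ = a * ((∑ v : V, (T.degree v).choose (r + 1) : ℕ) : ℝ) + b * Fintype.card V := by
        rw [Finset.sum_add_distrib, ← Finset.mul_sum, Finset.sum_const, nsmul_eq_mul]
        push_cast
        simp only [Finset.card_univ]
        ring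
    _ ≤ a * (((r + 2 : ℕ) : ℝ) * ((starSets T (r + 2)).card : ℝ)) + b * Fintype.card V := by
        have := mul_le_mul_of_nonneg_left h2 ha0.le
        linarith
    _ = _ := by
        push_cast
        ring

/-- levels of a connected graph -/
lemma level_bound (m : ℕ) (i : ℕ) : ∀ ε : ℝ, 0 < ε → ∃ C : ℝ, 0 ≤ C ∧
    ∀ (V : Type) [Fintype V] (T : SimpleGraph V), T.Connected → ∀ r : V,
      ((univ.filter (fun x => T.dist r x = i)).card : ℝ) ≤ C + ε * X T (m + 2) := by
  induction i with
  | zero =>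
    intro ε hε
    refine ⟨1, zero_le_one, ?_⟩
    intro V _ T hT r
    have h1 : (univ.filter (fun x => T.dist r x = 0)).card ≤ 1 := by
      rw [Finset.card_le_one]
      intro a ha b hb
      rw [Finset.mem_filter] at ha hb
      have h2 := hT.dist_eq_zero_iff.1 ha.2
      have h3 := hT.dist_eq_zero_iff.1 hb.2
      rw [← h2, ← h3]
    have h2 : ((univ.filter (fun x => T.dist r x = 0)).card : ℝ) ≤ 1 := by exact_mod_cast h1
    have := mul_nonneg hε.le (X_nonneg T (m + 2))
    linarith
  | succ i ih =>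
    intro ε hε
    set M : ℝ := 2 / ε with hM
    have hM0 : 0 < M := by positivity
    obtain ⟨C, hC0, hC⟩ := ih (ε / (2 * M)) (by positivity)
    refine ⟨M * C, by positivity, ?_⟩
    intro V _ T hT r
    have h1 := level_succ T hT r i
    have h2 : ((univ.filter (fun x => T.dist r x = i + 1)).card : ℝ) ≤
        ∑ x ∈ univ.filter (fun x => T.dist r x = i), (T.degree x : ℝ) := by exact_mod_cast h1
    have h3 : ∀ x : V, (T.degree x : ℝ) ≤ M + (ε / 2) * (T.degree x : ℝ) ^ (m + 2) := by
      intro x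
      rcases le_total (T.degree x : ℝ) M with h | h
      · have : 0 ≤ (ε / 2) * (T.degree x : ℝ) ^ (m + 2) := by positivity
        linarith
      · rcases Nat.eq_zero_or_pos (T.degree x) with h0 | h0
        · rw [h0]
          have : 0 ≤ (ε / 2) * ((0 : ℕ) : ℝ) ^ (m + 2) := by positivity
          push_cast at this ⊢
          linarith
        · have h4 : (1 : ℝ) ≤ (T.degree x : ℝ) := by exact_mod_cast h0
          have h5 : (T.degree x : ℝ) ^ 2 ≤ (T.degree x : ℝ) ^ (m + 2) :=
            pow_le_pow_right₀ h4 (by omega)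
          have h6 : 1 ≤ (ε / 2) * (T.degree x : ℝ) := by
            have h7 : (ε / 2) * M = 1 := by
              rw [hM]
              field_simp
            have := mul_le_mul_of_nonneg_left h (by positivity : 0 ≤ ε / 2)
            linarith
          have h8 : (T.degree x : ℝ) ≤ (ε / 2) * (T.degree x : ℝ) ^ 2 := by nlinarith
          have h9 := mul_le_mul_of_nonneg_left h5 (by positivity : 0 ≤ ε / 2)
          linarith
    have h4 : ∑ x ∈ univ.filter (fun x => T.dist r x = i), (T.degree x : ℝ) ≤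
        M * ((univ.filter (fun x => T.dist r x = i)).card : ℝ) + (ε / 2) * X T (m + 2) := by
      calc _ ≤ ∑ x ∈ univ.filter (fun x => T.dist r x = i),
            (M + (ε / 2) * (T.degree x : ℝ) ^ (m + 2)) := Finset.sum_le_sum (fun x _ => h3 x)
        _ = M * ((univ.filter (fun x => T.dist r x = i)).card : ℝ) + (ε / 2) *
            ∑ x ∈ univ.filter (fun x => T.dist r x = i), (T.degree x : ℝ) ^ (m + 2) := by
            rw [Finset.sum_add_distrib, ← Finset.mul_sum, Finset.sum_const, nsmul_eq_mul]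
            ring
        _ ≤ _ := by
            have : ∑ x ∈ univ.filter (fun x => T.dist r x = i), (T.degree x : ℝ) ^ (m + 2) ≤
                X T (m + 2) := Finset.sum_le_sum_of_subset_of_nonneg (Finset.filter_subset _ _)
                (fun x _ _ => by positivity)
            have := mul_le_mul_of_nonneg_left this (by positivity : 0 ≤ ε / 2)
            linarith
    have h5 := mul_le_mul_of_nonneg_left (hC V T hT r) hM0.le
    have h6 : M * (ε / (2 * M)) = ε / 2 := by field_simp
    calc _ ≤ _ := h2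
      _ ≤ _ := h4
      _ ≤ M * (C + ε / (2 * M) * X T (m + 2)) + (ε / 2) * X T (m + 2) := by linarith
      _ = M * C + (M * (ε / (2 * M)) + ε / 2) * X T (m + 2) := by ring
      _ = M * C + ε * X T (m + 2) := by
          rw [h6]
          ring

end

end Pool.Agent.Q95.TreeProf
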