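import Pool.Agent.Q95.TreeProf3

set_option autoImplicit false

namespace Pool.Agent.Q95.TreeProf

open SimpleGraph Finset
open scoped Classical

/-- number of vertices: either controlled by paths, or by the power sum -/
lemma vertex_bound (k : ℕ) (hk : 3 ≤ k) (ε : ℝ) (hε : 0 < ε) : ∃ C : ℝ, 0 ≤ C ∧
    ∀ (V : Type) [Fintype V] (T : SimpleGraph V), T.IsTree →
      (Fintype.card V : ℝ) ≤ k * (pathSets T k).card ∨
      (Fintype.card V : ℝ) ≤ C + ε * X T (k - 1) := by
  obtain ⟨m, rfl⟩ : ∃ m, k = m + 3 := ⟨k - 3, by omega⟩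
  rw [show m + 3 - 1 = m + 2 from rfl]
  have hL := fun i => level_bound m i (ε / (2 * (m + 3))) (by positivity)
  choose C hC0 hC using hL
  refine ⟨∑ i ∈ range (2 * (m + 3)), C i, Finset.sum_nonneg (fun i _ => hC0 i), ?_⟩
  intro V _ T hT
  by_cases h : ∃ a b : V, 2 * (m + 3) ≤ T.dist a b
  · left
    obtain ⟨a, b, hab⟩ := h
    have := path_lower T hT.connected (m + 3) (by omega) a b hab
    exact_mod_cast this
  · right
    push Not at h
    obtain ⟨r⟩ := hT.connected.nonempty
    have h1 : Fintype.card V = ∑ i ∈ range (2 * (m + 3)),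
        (univ.filter (fun x => T.dist r x = i)).card := by
      rw [← Finset.card_univ]
      exact Finset.card_eq_sum_card_fiberwise (fun x _ => Finset.mem_coe.2
        (Finset.mem_range.2 (h r x)))
    rw [h1]
    push_cast
    calc ∑ i ∈ range (2 * (m + 3)), ((univ.filter (fun x => T.dist r x = i)).card : ℝ)
        ≤ ∑ i ∈ range (2 * (m + 3)), (C i + ε / (2 * (m + 3)) * X T (m + 2)) :=
          Finset.sum_le_sum (fun i _ => hC i V T hT.connected r)
      _ = _ := by
          rw [Finset.sum_add_distrib, Finset.sum_const, Finset.card_range, nsmul_eq_mul]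
          push_cast
          field_simp

/-- the main inequality -/
theorem main (k : ℕ) (hk : 3 ≤ k) (ε : ℝ) (hε : 0 < ε) : ∃ (C : ℝ) (n₀ : ℕ), 0 ≤ C ∧
    ∀ (V : Type) [Fintype V] (T : SimpleGraph V), T.IsTree → n₀ ≤ Fintype.card V →
      ((nonStarSets T k).card : ℝ) ≤ ε * (starSets T k).card + C * (pathSets T k).card ∧
      0 < (starSets T k).card + (pathSets T k).card := by
  obtain ⟨C₁, C₂, hC₁, hC₂, hX⟩ := X_le_star k (by omega)
  obtain ⟨C, hC, hN⟩ := nonStar_bound k hk (ε / (4 * C₁)) (by positivity)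
  -- everything in terms of `S` and `N`
  set A : ℝ := ε / (4 * C₁) * C₂ + C with hA
  have hA0 : 0 ≤ A := by positivity
  have h1 : ∀ (V : Type) [Fintype V] (T : SimpleGraph V), T.IsTree →
      ((nonStarSets T k).card : ℝ) ≤ ε / 4 * (starSets T k).card + A * Fintype.card V := by
    intro V _ T hT
    have h2 := hN V T hT
    have h3 := mul_le_mul_of_nonneg_left (hX V T hT) (by positivity : 0 ≤ ε / (4 * C₁))
    have h4 : ε / (4 * C₁) * C₁ = ε / 4 := by field_simp
    calc _ ≤ _ := h2
      _ ≤ ε / (4 * C₁) * (C₁ * (starSets T k).card + C₂ * Fintype.card V) +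
          C * Fintype.card V := by linarith
      _ = (ε / (4 * C₁) * C₁) * (starSets T k).card + A * Fintype.card V := by
          rw [hA]
          ring
      _ = _ := by rw [h4]
  -- the number of vertices
  have h2 : ∀ δ : ℝ, 0 < δ → ∃ B : ℝ, 0 ≤ B ∧ ∀ (V : Type) [Fintype V] (T : SimpleGraph V),
      T.IsTree → (Fintype.card V : ℝ) ≤ k * (pathSets T k).card ∨
      (Fintype.card V : ℝ) ≤ B + δ * (starSets T k).card := by
    intro δ hδ
    set ε' : ℝ := min (1 / (2 * (C₂ + 1))) (δ / (2 * C₁)) with hε'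
    have h0 : 0 < ε' := lt_min (by positivity) (by positivity)
    have h01 : ε' * C₂ ≤ 1 / 2 := by
      have : ε' ≤ 1 / (2 * (C₂ + 1)) := min_le_left _ _
      calc ε' * C₂ ≤ 1 / (2 * (C₂ + 1)) * C₂ := mul_le_mul_of_nonneg_right this hC₂
        _ ≤ 1 / 2 := by
            rw [div_mul_eq_mul_div, div_le_div_iff₀ (by positivity) (by positivity)]
            linarith
    have h02 : ε' * C₁ ≤ δ / 2 := by
      have : ε' ≤ δ / (2 * C₁) := min_le_right _ _
      calc ε' * C₁ ≤ δ / (2 * C₁) * C₁ := mul_le_mul_of_nonneg_right this hC₁.le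
        _ = δ / 2 := by field_simp
    obtain ⟨B, hB0, hB⟩ := vertex_bound k hk ε' h0
    refine ⟨2 * B, by positivity, ?_⟩
    intro V _ T hT
    rcases hB V T hT with h | h
    · exact Or.inl h
    · right
      have h3 := mul_le_mul_of_nonneg_left (hX V T hT) h0.le
      have hn : (0 : ℝ) ≤ (Fintype.card V : ℝ) := by positivity
      have hs : (0 : ℝ) ≤ ((starSets T k).card : ℝ) := by positivity
      have h4 := mul_le_mul_of_nonneg_right h01 hn
      have h5 := mul_le_mul_of_nonneg_right h02 hs
      nlinarith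
  obtain ⟨B, hB0, hB⟩ := h2 (ε / (4 * (A + 1))) (by positivity)
  obtain ⟨B', hB0', hB'⟩ := h2 1 one_pos
  -- threshold: `S` is large in the second case
  refine ⟨A * k, ⌈B' + 4 * A * B / ε⌉₊ + 1, by positivity, ?_⟩
  intro V _ T hT hn
  have hn' : B' + 4 * A * B / ε + 1 ≤ (Fintype.card V : ℝ) := by
    have h3 : ((⌈B' + 4 * A * B / ε⌉₊ + 1 : ℕ) : ℝ) ≤ (Fintype.card V : ℝ) := by exact_mod_cast hn
    push_cast at h3
    have h4 := Nat.le_ceil (B' + 4 * A * B / ε)
    linarith
  have hq : 0 ≤ 4 * A * B / ε := by positivity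
  have hp : (0 : ℝ) ≤ ((pathSets T k).card : ℝ) := by positivity
  have hs : (0 : ℝ) ≤ ((starSets T k).card : ℝ) := by positivity
  constructor
  · have h3 := h1 V T hT
    rcases hB V T hT with h | h
    · have h4 := mul_le_mul_of_nonneg_left h hA0
      nlinarith
    · rcases hB' V T hT with h' | h'
      · have h4 := mul_le_mul_of_nonneg_left h' hA0
        nlinarith
      · have h5 : 4 * A * B / ε ≤ ((starSets T k).card : ℝ) := by linarith
        have h6 : A * B ≤ ε / 4 * ((starSets T k).card : ℝ) := by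
          rw [div_le_iff₀ hε] at h5
          linarith
        have h7 := mul_le_mul_of_nonneg_left h hA0
        have h8 : A * (ε / (4 * (A + 1))) ≤ ε / 4 := by
          rw [mul_div_assoc', div_le_div_iff₀ (by positivity) (by positivity)]
          nlinarith
        have h9 := mul_le_mul_of_nonneg_right h8 hs
        have h10 : 0 ≤ A * k * ((pathSets T k).card : ℝ) := by positivity
        nlinarith
  · rw [Nat.pos_iff_ne_zero]
    intro h0
    have h3 : (starSets T k).card = 0 := by omega
    have h4 : (pathSets T k).card = 0 := by omega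
    rcases hB' V T hT with h' | h'
    · rw [h4] at h'
      push_cast at h'
      linarith
    · rw [h3] at h'
      push_cast at h'
      linarith

/-- the path is a tree -/
lemma isTree_path (k : ℕ) (hk : 1 ≤ k) : (pathGraph k).IsTree := by
  obtain ⟨n, rfl⟩ : ∃ n, k = n + 1 := ⟨k - 1, by omega⟩
  rw [isTree_iff_connected_and_card]
  refine ⟨pathGraph_connected n, ?_⟩
  have h1 := (pathGraph_connected n).card_vert_le_card_edgeSet_add_one
  have h2 : Nat.card (pathGraph (n + 1)).edgeSet ≤ n := by
    set S : Finset (Sym2 (Fin (n + 1))) :=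
      (univ : Finset (Fin n)).image (fun i => s(i.castSucc, i.succ)) with hS
    have hsub : (pathGraph (n + 1)).edgeSet ⊆ (S : Set (Sym2 (Fin (n + 1)))) := by
      intro e
      induction e with
      | _ x y =>
        intro he
        rw [SimpleGraph.mem_edgeSet, pathGraph_adj] at he
        rw [hS, Finset.coe_image, Set.mem_image]
        rcases he with h | h
        · refine ⟨⟨x.val, by have := y.2; omega⟩, Finset.mem_coe.2 (Finset.mem_univ _), ?_⟩
          have e1 : (⟨x.val, by have := y.2; omega⟩ : Fin n).castSucc = x := Fin.ext rfl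
          have e2 : (⟨x.val, by have := y.2; omega⟩ : Fin n).succ = y := Fin.ext h
          rw [e1, e2]
        · refine ⟨⟨y.val, by have := x.2; omega⟩, Finset.mem_coe.2 (Finset.mem_univ _), ?_⟩
          have e1 : (⟨y.val, by have := x.2; omega⟩ : Fin n).castSucc = y := Fin.ext rfl
          have e2 : (⟨y.val, by have := x.2; omega⟩ : Fin n).succ = x := Fin.ext h
          rw [e1, e2, Sym2.eq_swap]
    have h3 : (pathGraph (n + 1)).edgeSet.ncard ≤ (S : Set (Sym2 (Fin (n + 1)))).ncard :=
      Set.ncard_le_ncard hsub (Finset.finite_toSet _)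
    rw [Set.ncard_coe_finset] at h3
    have h4 : S.card ≤ n := by
      calc S.card ≤ (univ : Finset (Fin n)).card := Finset.card_image_le
        _ = n := by simp
    exact h3.trans h4
  rw [Nat.card_fin] at h1 ⊢
  omega

/-- a star set induces the star graph -/
lemma star_iso {V : Type} [Fintype V] (T : SimpleGraph V) (k : ℕ) (hk : 1 ≤ k) (U : Finset V)
    (hU : U.card = k) (v : V) (h : StarAt T v U) :
    Nonempty (T.induce (U : Set V) ≃g starGraph (⟨0, hk⟩ : Fin k)) := by
  obtain ⟨hv, h1, h2⟩ := h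
  have hc : Fintype.card ((U : Set V) : Type) = Fintype.card (Fin k) := by
    simp [hU]
  let e : ((U : Set V) : Type) ≃ Fin k := Fintype.equivOfCardEq hc
  let e' : ((U : Set V) : Type) ≃ Fin k := e.trans (Equiv.swap (e ⟨v, hv⟩) ⟨0, hk⟩)
  have he' : e' ⟨v, hv⟩ = ⟨0, hk⟩ := by
    simp [e']
  refine ⟨⟨e', ?_⟩⟩
  intro x y
  rw [starGraph_adj]
  have hx : e' x = ⟨0, hk⟩ ↔ (x : V) = v := by
    rw [← he', e'.apply_eq_iff_eq]
    exact ⟨fun h => congrArg Subtype.val h, fun h => Subtype.ext h⟩
  have hy : e' y = ⟨0, hk⟩ ↔ (y : V) = v := by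
    rw [← he', e'.apply_eq_iff_eq]
    exact ⟨fun h => congrArg Subtype.val h, fun h => Subtype.ext h⟩
  have hxU : (x : V) ∈ U := by
    have := x.2
    exact_mod_cast this
  have hyU : (y : V) ∈ U := by
    have := y.2
    exact_mod_cast this
  rw [hx, hy, e'.injective.ne_iff]
  show _ ↔ T.Adj x y
  constructor
  · rintro ⟨hne, h3 | h3⟩
    · rw [h3]
      refine h1 y hyU (fun h4 => hne (Subtype.ext (h3.trans h4.symm)))
    · rw [h3]
      exact (h1 x hxU (fun h4 => hne (Subtype.ext (h4.trans h3.symm)))).symm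
  · intro hadj
    refine ⟨fun h4 => hadj.ne (congrArg Subtype.val h4), ?_⟩
    by_contra hcon
    push Not at hcon
    exact h2 x hxU y hyU hcon.1 hcon.2 hadj

end Pool.Agent.Q95.TreeProf
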